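import Pool.Agent.J4H98.HP.DDefs

/-!
# Project HP, stage 2: the jobs

The pairing with Drinfeld modular forms. For `f ∈ M` (doubly cuspidal of weight 2, type 1, for
`Γ₀(n)`, `n` prime of degree 4) the residues `rc t s ι f g = res_{|z| = |s|} (f|g)`, `s² = t`, form a
`Γ₀(n)`-invariant harmonic cochain with values in `C` (K3), `rc f (edge 1 1 0) = a_1 = 0`.
`f = ∑_{i ≥ 1} c_i e_A^{-i}` for `|z|_i ≥ 1` with `c_i = res_{|z| = |s⁻¹|} (f e_A^{i-1})` (K4);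
`c_q(T_g f) = res_{|z| = |s⁻¹|} (f(z) e_A(g z)^{q-1})` (K9) `= ∫_{πO} e_A(g y)^{q-1} dμ(y)` (K7), where
`μ(u + π^k O) = rc f (edge 1 k u)`; if this vanishes for all `g ∈ A`, then
`∫ (∑_j β_j y_j)^{q-1} dμ = 0` for all `β ∈ F_q^4` (K10), `y = ∑ y_j π^{j+1}`; these are the Hecke
conditions of stage 1, so all residues vanish (J9-J13 of stage 1 with `N = C`), and `f = 0` (K8).
-/

open Polynomial Matrix Filter Topology

namespace Pool.Agent.J4H98.HP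

open Pool.Agent.TH828.DM (Omega OmegaN IsRigidAnalytic expA res HasRes pt)
open Pool.Agent.N814.DR (slash SmallAtInfinity)

/-- K1. The embedding `F_q((π)) → C` (evaluate power series in `t⁻¹`: absolutely convergent; then
`IsFractionRing.lift`), its image is the closure of `F_q(t)`. -/
def S_EMB : Prop := ∀ (Fq C : Type) [Field Fq] [Fintype Fq] [NontriviallyNormedField C]
  [IsUltrametricDist C] [CompleteSpace C] [IsAlgClosed C] [Algebra Fq C] (t : C), 1 < ‖t‖ →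
  ∃ (s : C) (ι : Kinf Fq →+* C), Sta t s ι

/-- K2. Formal properties of the action (library: `IsRigidAnalytic.mob`, `mob_mem_omega`,
`den_ne_zero`, `slash_mul`). -/
def S_SL : Prop := ∀ (Fq C : Type) [Field Fq] [Fintype Fq] [NontriviallyNormedField C]
  [IsUltrametricDist C] [CompleteSpace C] [IsAlgClosed C] [Algebra Fq C] (t s : C)
  (ι : Kinf Fq →+* C), Sta t s ι →
  (∀ (g h : G Fq) (f : C → C), sl t ι (g * h) f = sl t ι h (sl t ι g f)) ∧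
  (∀ f : C → C, (∀ z, z ∉ Omega Fq t → f z = 0) → sl t ι 1 f = f) ∧
  (∀ (g : G Fq) (f : C → C), IsRigidAnalytic Fq t f → IsRigidAnalytic Fq t (sl t ι g f)) ∧
  (∀ (g : G Fq) (f f' : C → C), sl t ι g (f + f') = sl t ι g f + sl t ι g f') ∧
  (∀ (g : G Fq) (c : C) (f : C → C), sl t ι g (c • f) = c • sl t ι g f) ∧
  (∀ (δ : Matrix (Fin 2) (Fin 2) Fq[X]) (f : C → C), δ.det ≠ 0 →
    sl t ι (gl (δ.map (emb Fq))) f = slash Fq t 2 1 δ f) ∧
  (∀ (z : Kinf Fq) (f : C → C), z ≠ 0 → (∀ y, y ∉ Omega Fq t → f y = 0) →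
    sl t ι (gl !![z, 0; 0, z]) f = f)

/-- K3. The residues form a cochain. Change of variables: for `g = (a b; c d)` mapping the circle
`|z| = |s|` to itself, `((z - e)^(-j))|g = det (c z + d)^(j-2) ((a - e c) z + b - e d)^(-j)`, for `j = 1`
this is `A/(A z + B) - c/(c z + d)`, no residue for `j ≥ 2`; polynomials: no residue. Then approximate
by rational functions. `harmonic`: `g (c 1; 1 0)` maps the circle `|z| = |s|` to `|z - c| = |s⁻¹|`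
(reversed), and the residue theorem (`good_of_approx` with `RegOK` for the points of `F_q`). -/
def S_COCH : Prop := ∀ (Fq C : Type) [Field Fq] [Fintype Fq] [NontriviallyNormedField C]
  [IsUltrametricDist C] [CompleteSpace C] [IsAlgClosed C] [Algebra Fq C] (t s : C)
  (ι : Kinf Fq →+* C), Sta t s ι → ∀ f : C → C, IsRigidAnalytic Fq t f →
  IsCochain (rc t s ι f)

/-- K3b. The residue at an edge is the residue on the circle `|z - u| = |π^k s|` (exact substitution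
in the averages); in particular it exists. -/
def S_EDGE : Prop := ∀ (Fq C : Type) [Field Fq] [Fintype Fq] [NontriviallyNormedField C]
  [IsUltrametricDist C] [CompleteSpace C] [IsAlgClosed C] [Algebra Fq C] (t s : C)
  (ι : Kinf Fq →+* C), Sta t s ι → ∀ f : C → C, IsRigidAnalytic Fq t f →
  ∀ δ : Matrix (Fin 2) (Fin 2) Fq[X], δ.det ≠ 0 → ∀ (k : ℤ) (u : Kinf Fq),
  HasRes (Fintype.card Fq) (slash Fq t 2 1 δ f) (ι u) (t ^ (-k) * s) (rc t s ι f (edge δ k u))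

/-- K5. The exponential function of the lattice `A`. Let `e_N(z) = z ∏_{0 ≠ a, deg a < N} (1 - z/a)`:
these are `F_q`-linear polynomials with derivative `1`, converging uniformly on discs. -/
def S_EXPA : Prop := ∀ (Fq C : Type) [Field Fq] [Fintype Fq] [NontriviallyNormedField C]
  [IsUltrametricDist C] [CompleteSpace C] [IsAlgClosed C] [Algebra Fq C] (t : C), 1 < ‖t‖ →
  (∀ z z' : C, expA Fq t (z + z') = expA Fq t z + expA Fq t z') ∧
  (∀ (c : Fq) (z : C), expA Fq t (algebraMap Fq C c * z) = algebraMap Fq C c * expA Fq t z) ∧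
  (∀ a : Fq[X], expA Fq t (aeval t a) = 0) ∧
  (∀ z : C, ‖z‖ < 1 → ‖expA Fq t z‖ = ‖z‖) ∧
  (∀ (z : C) (ρ : ℝ), 1 ≤ ρ → Far Fq t ρ z → ρ ≤ ‖expA Fq t z‖) ∧
  (∀ z ∈ Omega Fq t, expA Fq t z ≠ 0) ∧
  (∀ R : ℝ, ∀ ε : ℝ, 0 < ε → ∃ P : C[X], ∀ z : C, ‖z‖ ≤ R → ‖expA Fq t z - P.eval z‖ ≤ ε) ∧
  (∀ R : ℝ, ∃ L : ℝ, ∀ z z' : C, ‖z‖ ≤ R → ‖z'‖ ≤ R →
    ‖expA Fq t z - expA Fq t z'‖ ≤ L * ‖z - z'‖) ∧
  (∀ w ∈ Omega Fq t, Tendsto (fun N : ℕ => ∑ b : Fin N → Fq, (w - pt t b)⁻¹) atTop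
    (𝓝 (expA Fq t w)⁻¹))

/-- K4. Expansions at infinity (uses K5). For `w` far from `K_∞` Cauchy's formula on the disc
`|z| ≤ |s^(2N+1)|` without the discs `|z - a| < |s⁻¹|`, `deg a ≤ N`, and periodicity give
`f w = lim_N -∑_a res_{|z| = |s⁻¹|} (f z / (z + a - w)) = res_{|z| = |s⁻¹|} (f z / e_A(w - z))`
(the outer residue tends to `0` by smallness; the convergence of `∑_a 1/(w - z - a)` to `1/e_A(w - z)`
is uniform for `|z| = |s⁻¹|`), and `1/e_A(w - z) = ∑_j e_A(z)^j e_A(w)^(-j-1)`, uniformly for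
`|z| = |s⁻¹|`, as `|e_A z| = |s⁻¹| < 1 ≤ |e_A w|`. -/
def S_UE : Prop := ∀ (Fq C : Type) [Field Fq] [Fintype Fq] [NontriviallyNormedField C]
  [IsUltrametricDist C] [CompleteSpace C] [IsAlgClosed C] [Algebra Fq C] (t s : C)
  (ι : Kinf Fq →+* C), Sta t s ι → ∀ f : C → C, IsRigidAnalytic Fq t f → Per Fq t f →
  SmallAtInfinity Fq t f →
  ∃ c : ℕ → C, c 0 = 0 ∧
    (∀ i : ℕ, HasRes (Fintype.card Fq) (fun z => f z * expA Fq t z ^ i) 0 s⁻¹ (c (i + 1))) ∧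
    (∀ w ∈ Omega Fq t, Far Fq t 1 w → HasSum (fun i => c i * (expA Fq t w)⁻¹ ^ i) (f w)) ∧
    ∃ B : ℝ, ∀ w ∈ Omega Fq t, Far Fq t 1 w → ‖f w‖ * ‖expA Fq t w‖ ≤ B

/-- K13. Uniqueness of expansions, and smallness. -/
def S_UNIQ : Prop := ∀ (Fq C : Type) [Field Fq] [Fintype Fq] [NontriviallyNormedField C]
  [IsUltrametricDist C] [CompleteSpace C] [IsAlgClosed C] [Algebra Fq C] (t ϖ : C), 1 < ‖t‖ →
  ϖ ≠ 0 → ∀ (f : C → C) (a b : ℕ → C), HasExp Fq t ϖ f a →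
    (HasExp Fq t ϖ f b → a = b) ∧ (a 0 = 0 → SmallAtInfinity Fq t f)

/-- K6. The growth bound `|f z| |z|_i ≤ B` on all of `Ω` (uses the last part of K4 for `f` and for
`f|W`, `W = (0 1; n 0)`; `|γ z|_i = |det γ| |z|_i / |c z + d|²`; for every `z ∈ Ω` there is
`γ ∈ GL₂(A)` with `|γ z|_i ≥ 1`; `GL₂(A) = Γ₀(n) ∪ Γ₀(n) (0 1; 1 0) (1 *; 0 1)` as `n` is prime; rigid
functions are bounded on every `Ω_N`). -/
def S_GB : Prop := ∀ (Fq C : Type) [Field Fq] [Fintype Fq] [NontriviallyNormedField C]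
  [IsUltrametricDist C] [CompleteSpace C] [IsAlgClosed C] [Algebra Fq C] (t s : C)
  (ι : Kinf Fq →+* C), Sta t s ι → ∀ n : Fq[X], n.Monic → Irreducible n →
  ∀ f : C → C, (∀ z, z ∉ Omega Fq t → f z = 0) → IsRigidAnalytic Fq t f →
  (∀ γ : Matrix (Fin 2) (Fin 2) Fq[X], IsUnit γ.det → n ∣ γ 1 0 → slash Fq t 2 1 γ f = f) →
  SmallAtInfinity Fq t f → SmallAtInfinity Fq t (slash Fq t 2 1 !![0, 1; n, 0] f) → GB Fq t f

/-- K7. Residues as limits of Riemann sums. -/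
def S_RIEM : Prop := ∀ (Fq C : Type) [Field Fq] [Fintype Fq] [NontriviallyNormedField C]
  [IsUltrametricDist C] [CompleteSpace C] [IsAlgClosed C] [Algebra Fq C] (t s : C)
  (ι : Kinf Fq →+* C), Sta t s ι → ∀ f : C → C, IsRigidAnalytic Fq t f → GB Fq t f →
  ∀ h : C → C, (∃ L : ℝ, ∀ z z' : C, ‖z‖ ≤ ‖s⁻¹‖ → ‖z'‖ ≤ ‖s⁻¹‖ → ‖h z - h z'‖ ≤ L * ‖z - z'‖) →
  (∀ ε : ℝ, 0 < ε → ∃ P : C[X], ∀ z : C, ‖z‖ ≤ ‖s⁻¹‖ → ‖h z - P.eval z‖ ≤ ε) →
  ∃ v : C, HasRes (Fintype.card Fq) (fun z => f z * h z) 0 s⁻¹ v ∧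
    Tendsto (fun k : ℕ => ∑ w : Fin k → Fq, h (ι (uu w)) * rc t s ι f (edge 1 (k + 1) (uu w)))
      atTop (𝓝 v)

/-- K8. A function without residues is zero: Cauchy's formula on large discs without small discs
around the points of `K_∞`; `1/(z - w)` is a power series in `z - b` on such a disc, and the moments
`res_B (f(z) (z - b)^j)` vanish by refining the disc (as in K7, error `≤ B ρ`). -/
def S_VAN : Prop := ∀ (Fq C : Type) [Field Fq] [Fintype Fq] [NontriviallyNormedField C]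
  [IsUltrametricDist C] [CompleteSpace C] [IsAlgClosed C] [Algebra Fq C] (t s : C)
  (ι : Kinf Fq →+* C), Sta t s ι → ∀ f : C → C, (∀ z, z ∉ Omega Fq t → f z = 0) →
  IsRigidAnalytic Fq t f → SmallAtInfinity Fq t f → GB Fq t f →
  (∀ (k : ℤ) (u : Kinf Fq), HasRes (Fintype.card Fq) f (ι u) (t ^ (-k) * s) 0) → f = 0

/-- K9. The `q`-th coefficient of `T_g f`. For `a = 1` the discs `|z - b/g| < |s⁻¹/g|`, `deg b < deg g`,
contain all points of `K_∞` with `|z| < 1`. For `a ≠ 1`: `V z = ∑_b f((z + b)/d)` is `A`-periodic and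
`∑_{deg c < deg a} e_A((y + c)/a)^(q-1)` does not depend on `y` (sum of `(q-1)`-st powers over a coset
of an `F_q`-vector space), and `res V = res f = 0`. -/
def S_HB : Prop := ∀ (Fq C : Type) [Field Fq] [Fintype Fq] [NontriviallyNormedField C]
  [IsUltrametricDist C] [CompleteSpace C] [IsAlgClosed C] [Algebra Fq C] (t s : C)
  (ι : Kinf Fq →+* C), Sta t s ι → ∀ n g : Fq[X], n.Monic → g.Monic →
  ∀ f : C → C, IsRigidAnalytic Fq t f → Per Fq t f → HasRes (Fintype.card Fq) f 0 s⁻¹ 0 →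
  ∃ v : C, HasRes (Fintype.card Fq) (fun z => heckeM t n g f z *
      expA Fq t z ^ (Fintype.card Fq - 1)) 0 s⁻¹ v ∧
    HasRes (Fintype.card Fq) (fun z => f z *
      expA Fq t (aeval t g * z) ^ (Fintype.card Fq - 1)) 0 s⁻¹ v

/-- K10. Inversion (no analysis). `μ` is a bounded additive family on `F_q^ℕ`. With
`X_s(w) = ∑_{i ≥ s} w_i lam (i - s)` the hypothesis for all `g ∈ F_q[X]` gives, since
`(∑ g_s X_s)^(q-1)` is a reduced polynomial in the `g_s`, `∫ X^e dμ = 0` whenever `|e| = q - 1` and the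
multinomial coefficient is not `0` in `F_q`; so `∫ (∑_s α_s X_s)^(q-1) dμ = 0` for all finite
`α` in `C`, then for `α = β / lam` (power series division, `α_s → 0`) by continuity. -/
def S_INV : Prop := ∀ (Fq C : Type) [Field Fq] [Fintype Fq] [NontriviallyNormedField C]
  [IsUltrametricDist C] [CompleteSpace C] [Algebra Fq C] (lam : ℕ → C) (r : ℝ),
  0 ≤ r → r < 1 → lam 0 ≠ 0 → (∀ j, ‖lam j‖ ≤ ‖lam 0‖ * r ^ j) → (∀ x : Fq, ‖algebraMap Fq C x‖ ≤ 1) →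
  ∀ μ : (k : ℕ) → (Fin k → Fq) → C,
  (∀ (k : ℕ) (w : Fin k → Fq), μ k w = ∑ c : Fq, μ (k + 1) (Fin.snoc w c)) →
  (∃ B : ℝ, ∀ (k : ℕ) (w : Fin k → Fq), ‖μ k w‖ ≤ B) →
  (∀ g : Fq[X], Tendsto (fun k : ℕ => ∑ w : Fin k → Fq,
    (∑ i : Fin k, ∑ j ∈ Finset.range ((i : ℕ) + 1), algebraMap Fq C (g.coeff j) *
      algebraMap Fq C (w i) * lam (i - j)) ^ (Fintype.card Fq - 1) * μ k w) atTop (𝓝 0)) →
  ∀ (k : ℕ) (β : Fin k → Fq),
    ∑ w : Fin k → Fq, (algebraMap Fq C (∑ i, β i * w i)) ^ (Fintype.card Fq - 1) * μ k w = 0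

/-- K11. In characteristic `p` one cusp condition implies the other: with `G b = Φ 1 5 (b/n)`,
`b ∈ A/n`, `G b = -∑_x G(b⁻¹ + x)` for `b ≠ 0`; sum over `b ≠ 0`:
`(q + 1) ∑ G = G 0 + ∑_x G x`, where `∑ G = Φ 1 1 0`, `G 0 = -Φ w (-4) 0 = -q Φ w (-3) 0`,
`∑_x G x = Φ 1 4 0 = -Φ w (-3) 0`. -/
def S_CUSPC : Prop := ∀ (Fq : Type) [Field Fq] [Fintype Fq] (n : Fq[X]), n.Monic →
  n.natDegree = 4 → Irreducible n → ∀ (N : Type) [AddCommGroup N],
  (∀ x : N, (Fintype.card Fq) • x = 0) →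
  ∀ Φ : Matrix (Fin 2) (Fin 2) Fq[X] → ℤ → Kinf Fq → N, Fam0 n Φ → Φ 1 1 0 = 0 →
  Φ !![0, 1; 1, 0] (-3) 0 = 0

/-- K11b. `T_m` preserves the cusp condition at infinity (see `V_vanish` etc. in J4H97/HP/C1b). -/
def S_HCUSP : Prop := ∀ (Fq : Type) [Field Fq] [Fintype Fq] (n m : Fq[X]) (N : Type)
  [AddCommGroup N] (F : G Fq → N), IsCochain F → Fam0 n (fun δ k u => F (edge δ k u)) →
  F (edge 1 1 0) = 0 → m.Monic → hecke n m F (edge 1 1 0) = 0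

/-- K16. The Hecke conditions on `κ = A/n` from the integrals (variant of `S_CORE1B`, see
J4H8/HP/Core1b; `b/n = ∑_j lam(T^j b) π^(j+1)` mod `π^5`, so `β·w = lam(g b)`, `g = ∑ β_j T^j`). -/
def S_CORE1C : Prop := ∀ (Fq κ : Type) [Field Fq] [Fintype Fq] [Field κ] [Fintype κ] [Algebra Fq κ]
  (n : Fq[X]) (ev : Fq[X] →ₐ[Fq] κ) (N : Type) [AddCommGroup N]
  (Φ : Matrix (Fin 2) (Fin 2) Fq[X] → ℤ → Kinf Fq → N) (Gf : κ → N),
  n.Monic → n.natDegree = 4 → Function.Surjective ev → (∀ b, ev b = 0 ↔ n ∣ b) → Fam n Φ →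
  (∀ b, Gf (ev b) = Φ 1 5 (emb Fq b / emb Fq n)) →
  (∀ β : Fin 4 → Fq, β ≠ 0 → ∀ c : Fq, c ≠ 0 →
    ∑ᶠ w ∈ {w : Fin 4 → Fq | ∑ i, β i * w i = c}, Φ 1 5 (uu w) = 0) →
  ∃ lam : κ →ₗ[Fq] Fq, lam ≠ 0 ∧ ∀ g : κ, g ≠ 0 → ∀ c : Fq, c ≠ 0 →
    ∑ᶠ b ∈ {b : κ | lam (g * b) = c}, Gf b = 0

/-- K12. The Hecke operators act on `M` (uses K2-K6, K11, K11b, K13 and S_PRESG for
`N = C → C`, `F g = sl t ι g f`). -/
def S_MMH : Prop := ∀ (Fq C : Type) [Field Fq] [Fintype Fq] [NontriviallyNormedField C]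
  [IsUltrametricDist C] [CompleteSpace C] [IsAlgClosed C] [Algebra Fq C] (t s ϖ : C)
  (ι : Kinf Fq →+* C), Sta t s ι → ϖ ≠ 0 → ∀ n m : Fq[X], n.Monic → Irreducible n →
  n.natDegree = 4 → m.Monic → ∀ f : C → C, IsMM t ϖ n f → IsMM t ϖ n (heckeM t n m f)

/-- K14. Linear algebra over a field: the right kernel is zero and commutativity. -/
def S_PERFC : Prop := ∀ (C M : Type) [Field C] [AddCommGroup M] [Module C M]
  [Module.Finite C M] (T : Subalgebra C (Module.End C M)) (b : M →ₗ[C] C),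
  (∀ x ∈ T, ∀ y ∈ T, x * y = y * x) → (∀ f : M, (∀ θ ∈ T, b (θ f) = 0) → f = 0) →
  ∀ B : T →ₗ[C] M →ₗ[C] C, (∀ θ f, B θ f = b (θ.1 f)) → B.IsPerfPair

end Pool.Agent.J4H98.HP
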