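import Pool.Agent.J4H98.HP.Defs

/-!
# Project HP (MP_574a97_nt): the jobs

Conventions: `A = Fq[X]`, `K_∞ = LaurentSeries Fq`, `π = single 1 1`, `T ↦ single (-1) 1`,
`edge δ k u = δ (π^k u; 0 1)`, the ball `u + π^k O` with `δ ∈ GL₂(A)` in front.
-/

open Polynomial Matrix

namespace Pool.Agent.J4H98.HP

/-- J1. Matrix identities. `γ (π^k u; 0 1) = (π^k' u'; 0 1) · z · κ`, `κ` in the Iwahori group,
`u' = (a u + b)/(c u + d)`, `k' = k - 2 v(c u + d)` if `v(c u + d) < v(c) + k`;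
and `γ (π^k u; 0 1) (0 1; π 0) = (π^k'' a/c; 0 1) · z · κ`, `k'' = 1 - k - 2 v(c)` if
`v(c u + d) ≥ v(c) + k`. `sum` is `harmonic` (use `g (0 1; 1 0)`, `reverse`, or directly). -/
def S_FAM0 : Prop := ∀ (Fq : Type) [Field Fq] [Fintype Fq] (n : Fq[X]) (N : Type) [AddCommGroup N]
  (F : G Fq → N), IsCochain F → (∀ γ ∈ Gam0 n, ∀ g, F (γ * g) = F g) →
  Fam0 n (fun δ k u => F (edge δ k u))

/-- J2. The cochain vanishes along the cusps. `F (edge 1 (-i) 0) = q^(i+1) F (edge 1 1 0)` for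
`i ≥ 0` (by `sum`, `moebA` for `(1 a; 0 1)` and `inv`), and for `i < j` there is no equation
`γ diag(π^-i, 1) = diag(π^-j, 1) κ z` with `γ ∈ GL₂(A)` (look at the lower right entry: a polynomial
of positive valuation); so finite support gives `0`. For the cusp `0`:
`Φ w (-i-1) 0 = q Φ w (-i) 0` for `i ≥ 3`, because `Φ w k (u + emb (n a)) = Φ w k u`
(`w (1 na; 0 1) = (1 0; na 1) w`) and `C c X^(i+1) ≡ (multiple of n) mod polynomials of degree ≤ i`.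
-/
def S_CUSP : Prop := ∀ (Fq : Type) [Field Fq] [Fintype Fq] (n : Fq[X]), n.Monic →
  n.natDegree = 4 → ∀ F : G Fq → ℤ, FinSupp n F → Fam0 n (fun δ k u => F (edge δ k u)) →
  F (edge 1 1 0) = 0 ∧ F (edge !![0, 1; 1, 0] (-3) 0) = 0

/-- J3. Iwasawa decomposition of `GL₂(K_∞)`: every `g` is `(π^k u; 0 1) κ z` or
`(π^k u; 0 1) (0 1; π 0) κ z`. -/
def S_IWA : Prop := ∀ (Fq : Type) [Field Fq] [Fintype Fq] (N : Type) [AddCommGroup N]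
  (F : G Fq → N), IsCochain F → (∀ k u, F (edge 1 k u) = 0) → F = 0

/-- J4. `T_m` preserves harmonic cochains (trivial: the action is on the other side). -/
def S_PRESC : Prop := ∀ (Fq : Type) [Field Fq] [Fintype Fq] (n m : Fq[X]) (N : Type)
  [AddCommGroup N] (F : G Fq → N), m ≠ 0 → IsCochain F → IsCochain (hecke n m F)

/-- J5. `T_m` preserves `Γ₀(n)`-invariance: for `M = (a b; 0 d)` in `heckeSet n m` and
`γ ∈ Γ₀(n)` there are unique `M'` in the set and `γ' ∈ Γ₀(n)` with `M γ = γ' M'`. -/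
def S_PRESG : Prop := ∀ (Fq : Type) [Field Fq] [Fintype Fq] (n m : Fq[X]) (N : Type)
  [AddCommGroup N] (F : G Fq → N), n.Monic → m.Monic → (∀ γ ∈ Gam0 n, ∀ g, F (γ * g) = F g) →
  ∀ γ ∈ Gam0 n, ∀ g, hecke n m F (γ * g) = hecke n m F g

/-- J6. `T_m` preserves finite support: `M⁻¹ γ = m⁻¹ (M^adj γ)` and the integral matrices of
determinant in `F_q^* m` are finitely many cosets `Γ₀(n) h` (two such matrices with the same
determinant and congruent modulo `m n` lie in the same coset). -/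
def S_PRESS : Prop := ∀ (Fq : Type) [Field Fq] [Fintype Fq] (n m : Fq[X]) (N : Type)
  [AddCommGroup N] (F : G Fq → N), n.Monic → m.Monic → FinSupp n F → FinSupp n (hecke n m F)

/-- J7. Commutativity. For `F` invariant under the centre and under `(1 x; 0 1)` and `n`
irreducible: `T_m T_m' = T_(m m')` for coprime `m, m'`;
`T_P T_(P^r) = T_(P^(r+1)) + q^(deg P) T_(P^(r-1))` for irreducible `P ≠ n`; `T_(n^r) = T_n^r`
(see the paper proof on the board). -/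
def S_COMM : Prop := ∀ (Fq : Type) [Field Fq] [Fintype Fq] (n m m' : Fq[X]) (N : Type)
  [AddCommGroup N] (F : G Fq → N), n.Monic → Irreducible n → m.Monic → m'.Monic →
  (∀ g, ∀ z : Kinf Fq, z ≠ 0 → F (g * gl !![z, 0; 0, z]) = F g) →
  (∀ γ ∈ Gam0 n, ∀ g, F (γ * g) = F g) →
  hecke n m (hecke n m' F) = hecke n m' (hecke n m F)

/-- J8. Formula for the Fourier coefficients: with `Φ δ k u = F (edge δ k u)`. The terms with
`a ≠ 1` vanish: `V k u = ∑_{deg b < deg d} F((1 b; 0 d) (π^k u; 0 1))` satisfies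
`V k u = ∑_c V (k+1) (u + c π^k)`, `V k (u + emb x) = V k u`, and
`V 1 0 = ∑_b F(edge 1 (1 + deg d) (b/d)) = F (edge 1 1 0) = 0`; so `V k (a_0 π) = 0` for `k ≤ 1`. -/
def S_C1 : Prop := ∀ (Fq : Type) [Field Fq] [Fintype Fq] (n g : Fq[X]) (N : Type) [AddCommGroup N]
  (F : G Fq → N), IsCochain F → Fam0 n (fun δ k u => F (edge δ k u)) →
  F (edge 1 1 0) = 0 → g.Monic →
  c1 (hecke n g F) = -∑ v : Fin g.natDegree → Fq,
    F (edge 1 (g.natDegree + 2) ((unif Fq + emb Fq (pol v)) / emb Fq g))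

/-- J9. From families to functions on `κ = A/n = F_(q^4)`: `Gf (b mod n) = Φ 1 5 (b/n)`. -/
def S_CORE1A : Prop := ∀ (Fq κ : Type) [Field Fq] [Fintype Fq] [Field κ] [Fintype κ] [Algebra Fq κ]
  (n : Fq[X]) (ev : Fq[X] →ₐ[Fq] κ) (N : Type) [AddCommGroup N]
  (Φ : Matrix (Fin 2) (Fin 2) Fq[X] → ℤ → Kinf Fq → N),
  n.Monic → n.natDegree = 4 → Function.Surjective ev → (∀ b, ev b = 0 ↔ n ∣ b) → Fam n Φ →
  ∃ Gf : κ → N, (∀ b, Gf (ev b) = Φ 1 5 (emb Fq b / emb Fq n)) ∧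
    (∀ c : Fq, c ≠ 0 → ∀ b, Gf (algebraMap Fq κ c * b) = Gf b) ∧ Gf 0 = 0 ∧
    (∑ x : Fq, Gf (algebraMap Fq κ x) = 0) ∧
    (∀ b, b ≠ 0 → Gf b = -∑ x : Fq, Gf (b⁻¹ + algebraMap Fq κ x)) ∧ ∑ b, Gf b = 0

/-- J10. The Hecke condition on `κ`; `lam b` is the coefficient of `π` in `b/n`, i.e. the
coefficient of `T³` in `b mod n`. -/
def S_CORE1B : Prop := ∀ (Fq κ : Type) [Field Fq] [Fintype Fq] [Field κ] [Fintype κ] [Algebra Fq κ]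
  (n : Fq[X]) (ev : Fq[X] →ₐ[Fq] κ) (N : Type) [AddCommGroup N]
  (Φ : Matrix (Fin 2) (Fin 2) Fq[X] → ℤ → Kinf Fq → N) (Gf : κ → N),
  n.Monic → n.natDegree = 4 → Function.Surjective ev → (∀ b, ev b = 0 ↔ n ∣ b) → Fam n Φ →
  (∀ b, Gf (ev b) = Φ 1 5 (emb Fq b / emb Fq n)) →
  (∀ c : Fq, c ≠ 0 → ∀ b, Gf (algebraMap Fq κ c * b) = Gf b) →
  (∀ g : Fq[X], g.Monic → g.natDegree ≤ 3 → ∑ v : Fin g.natDegree → Fq,
    Φ 1 (g.natDegree + 2) ((unif Fq + emb Fq (pol v)) / emb Fq g) = 0) →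
  ∃ lam : κ →ₗ[Fq] Fq, lam ≠ 0 ∧ ∀ g : κ, g ≠ 0 → ∀ c : Fq, c ≠ 0 →
    ∑ᶠ b ∈ {b : κ | lam (g * b) = c}, Gf b = 0

/-- J11. The core modulo `p` (helper98). -/
def S_CORE2P : Prop := ∀ (Fq κ : Type) [Field Fq] [Fintype Fq] [Field κ] [Fintype κ] [Algebra Fq κ]
  (p : ℕ) [Fact p.Prime] [CharP Fq p] (lam : κ →ₗ[Fq] Fq) (Gf : κ → ZMod p),
  Module.finrank Fq κ = 4 → lam ≠ 0 →
  (∀ c : Fq, c ≠ 0 → ∀ b, Gf (algebraMap Fq κ c * b) = Gf b) → Gf 0 = 0 →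
  (∑ x : Fq, Gf (algebraMap Fq κ x) = 0) →
  (∀ b, b ≠ 0 → Gf b = -∑ x : Fq, Gf (b⁻¹ + algebraMap Fq κ x)) → ∑ b, Gf b = 0 →
  (∀ g : κ, g ≠ 0 → ∀ c : Fq, c ≠ 0 → ∑ᶠ b ∈ {b : κ | lam (g * b) = c}, Gf b = 0) → Gf = 0

/-- J12. The core away from `p`: sum the hyperplane sums over all `g ≠ 0` with
`lam (g b₀) = 1`: `q³` such `g`; for `b ∉ F_q b₀` there are `q²` with `lam (g b) = 1`, none for
`b = c b₀`, `c ≠ 1`; so `q² Gf b₀ = 0`. -/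
def S_CORE2L : Prop := ∀ (Fq κ : Type) [Field Fq] [Fintype Fq] [Field κ] [Fintype κ] [Algebra Fq κ]
  (N : Type) [AddCommGroup N] (lam : κ →ₗ[Fq] Fq) (Gf : κ → N),
  (∀ x : N, (Fintype.card Fq) • x = 0 → x = 0) →
  Module.finrank Fq κ = 4 → lam ≠ 0 →
  (∀ c : Fq, c ≠ 0 → ∀ b, Gf (algebraMap Fq κ c * b) = Gf b) → Gf 0 = 0 → ∑ b, Gf b = 0 →
  (∀ g : κ, g ≠ 0 → ∀ c : Fq, c ≠ 0 → ∑ᶠ b ∈ {b : κ | lam (g * b) = c}, Gf b = 0) → Gf = 0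

/-- J13. `Gf = 0` implies `Φ = 0`. (i) `Φ 1 k u = 0` for `k ≤ 5`. (ii) For `δ ∈ GL₂(A)` with
bottom row `(c, d)` there are coprime `c', d'` with `deg c' ≤ 1`, `deg d' ≤ 2`, `n ∣ c' d - d' c`
(5 > 4 unknowns, divide by the gcd), so `Φ δ = Φ δ'` with `δ' = (a' b'; c' d')`, and `moebA`/`moebB`
give `Φ δ' 0 0 = ± Φ 1 k u` with `k ≤ 5`, so `Φ δ 0 0 = 0`. (iii) `Φ δ k u = 0` for `k ≤ 1` (`weyl`),
(iv) strong induction for `k ≥ 2`: translate `u` into `π O`, then use `w`. -/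
def S_CORE3 : Prop := ∀ (Fq : Type) [Field Fq] [Fintype Fq]
  (n : Fq[X]) (N : Type) [AddCommGroup N]
  (Φ : Matrix (Fin 2) (Fin 2) Fq[X] → ℤ → Kinf Fq → N),
  n.Monic → n.natDegree = 4 → Irreducible n → Fam n Φ →
  (∀ b : Fq[X], Φ 1 5 (emb Fq b / emb Fq n) = 0) → ∀ δ, IsUnit δ.det → ∀ k u, Φ δ k u = 0

/-- J14. Linear algebra over `ℤ`. (`Ψ : H → Hom(T, ℤ)` is injective with saturated image, `T → H*`
is injective by commutativity, so the ranks agree and `Ψ` is bijective.) -/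
def S_PERF : Prop := ∀ (H : Type) [AddCommGroup H] [Module.Finite ℤ H] [Module.Free ℤ H]
  (T : Subalgebra ℤ (Module.End ℤ H)) (c : H →ₗ[ℤ] ℤ),
  (∀ x ∈ T, ∀ y ∈ T, x * y = y * x) →
  (∀ ℓ : ℕ, ℓ.Prime → ∀ F : H, (∀ θ ∈ T, (ℓ : ℤ) ∣ c (θ F)) → ∃ F', F = ℓ • F') →
  ∀ B : T →ₗ[ℤ] H →ₗ[ℤ] ℤ, (∀ θ F, B θ F = c (θ.1 F)) → B.IsPerfPair

/-- J15. Base change of perfect pairings of free modules. -/
def S_BC : Prop := ∀ (X Y : Type) [AddCommGroup X] [AddCommGroup Y] [Module.Finite ℤ X]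
  [Module.Free ℤ X] [Module.Finite ℤ Y] [Module.Free ℤ Y] (R : Type) [CommRing R]
  (B : X →ₗ[ℤ] Y →ₗ[ℤ] ℤ), B.IsPerfPair →
  ∀ B' : TensorProduct ℤ R X →ₗ[R] TensorProduct ℤ R Y →ₗ[R] R,
  (∀ r x s y, B' (r ⊗ₜ x) (s ⊗ₜ y) = r * s * (B x y : R)) → B'.IsPerfPair

end Pool.Agent.J4H98.HP
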