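import Pool.Agent.J4H98.HP.Multi
import Pool.Agent.J4H98.HP.Jobs

/-!
# J11: the core modulo `p`
-/

open Finset

namespace Pool.Agent.J4H98.HP

theorem t_CORE2P : S_CORE2P := by
  intro Fq κ _ _ _ _ _ p hp _ lam Gf hfr hlam hG1 hG0 hGF hGi hGS hGH
  classical
  have hp1 : 1 ≤ p := hp.out.one_le
  have hp2 := hp.out.two_le
  have : NeZero p := ⟨by omega⟩
  have : CharP κ p := charP_of_injective_algebraMap (algebraMap Fq κ).injective p
  obtain ⟨r, -, hr⟩ := FiniteField.card Fq p
  obtain ⟨r, hr0⟩ := r
  simp only [PNat.mk_coe] at hr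
  have : NeZero r := ⟨by omega⟩
  have hκ : Fintype.card κ = p ^ (4 * r) := by
    rw [Module.card_eq_pow_finrank (K := Fq), hfr, hr, ← pow_mul, mul_comm]
  have hpq : p ≤ p ^ r := Nat.le_self_pow (NeZero.ne r) p
  have hpQ : p ^ r ≤ p ^ (4 * r) := Nat.pow_le_pow_right (by omega) (by omega)
  have hQ1 : 1 < p ^ (4 * r) := by omega
  -- the cast
  let φ : ZMod p →+* κ := ZMod.castHom (dvd_refl p) κ
  have hφ : Function.Injective φ := φ.injective
  -- the function `f`
  obtain ⟨f, hf⟩ : ∃ f : κ → ZMod p, ∀ y, f y = ∑ x : Fq, Gf (y + algebraMap Fq κ x) :=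
    ⟨_, fun _ => rfl⟩
  have hGf : ∀ b, b ≠ 0 → Gf b = -f b⁻¹ := by
    intro b hb; rw [hGi b hb, hf]
  have f0 : f 0 = 0 := by
    rw [hf]; simpa using hGF
  have ftr : ∀ y, f (y + 1) = f y := by
    intro y
    rw [hf, hf, ← Equiv.sum_comp (Equiv.addLeft (1 : Fq)) (fun x => Gf (y + algebraMap Fq κ x))]
    apply Finset.sum_congr rfl
    intro x _
    simp only [Equiv.coe_addLeft, map_add, map_one]
    congr 1; ring
  have fsc : ∀ c : Fq, c ≠ 0 → ∀ y, f (algebraMap Fq κ c * y) = f y := by
    intro c hc y
    rw [hf, hf, ← Equiv.sum_comp (Equiv.mulLeft₀ c hc) (fun x => Gf (algebraMap Fq κ c * y +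
      algebraMap Fq κ x))]
    apply Finset.sum_congr rfl
    intro x _
    change Gf (algebraMap Fq κ c * y + algebraMap Fq κ (c * x)) = _
    rw [map_mul, ← mul_add, hG1 c hc]
  have fsum : ∑ y, f y = 0 := by
    simp only [hf]
    rw [Finset.sum_comm]
    apply Finset.sum_eq_zero
    intro x _
    rw [← hGS, ← Equiv.sum_comp (Equiv.addRight (algebraMap Fq κ x)) Gf]
    rfl
  -- coefficients
  obtain ⟨a, ha⟩ := exis hκ (fun y => φ (f y))
  -- powers of elements of `F_q`
  have xpow : ∀ (x : Fq) (k : Fin r × Fin 4), (algebraMap Fq κ x) ^ p ^ pos k =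
      (algebraMap Fq κ x) ^ p ^ (k.1 : ℕ) := by
    intro x k
    rw [pos, add_comm, pow_add, pow_mul]
    rw [← map_pow]
    congr 1
    rw [pow_mul p]
    rw [← hr, FiniteField.pow_card_pow]
  have xw : ∀ (x : Fq) (d : DV p r), (algebraMap Fq κ x) ^ w d = (algebraMap Fq κ x) ^ sq d := by
    intro x d
    rw [w, sq, wt, wt, ← Finset.prod_pow_eq_pow_sum, ← Finset.prod_pow_eq_pow_sum]
    apply Finset.prod_congr rfl
    intro k _
    rw [pow_mul, pow_mul, xpow]
  have addw : ∀ (y : κ) (x : Fq) (d : DV p r), (y + algebraMap Fq κ x) ^ w d =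
      ∑ h, (bin d h : κ) * y ^ w h * (algebraMap Fq κ x) ^ (sq d - sq h) := by
    intro y x d
    have e1 : (y + algebraMap Fq κ x) ^ w d = ∏ k, (y ^ p ^ pos k +
        (algebraMap Fq κ x) ^ p ^ (k.1 : ℕ)) ^ (d k : ℕ) := by
      rw [w, wt, ← Finset.prod_pow_eq_pow_sum]
      apply Finset.prod_congr rfl
      intro k _
      rw [pow_mul, add_pow_char_pow, xpow]
    rw [e1, prod_add_pow]
    apply Finset.sum_congr rfl
    intro h _
    by_cases hb : bin d h = 0
    · simp [hb]
    · congr 1
      · congr 1
        rw [w, wt, ← Finset.prod_pow_eq_pow_sum]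
        apply Finset.prod_congr rfl
        intro k _
        rw [pow_mul]
      · rw [show sq d - sq h = _ from (wt_sub (P := fun k : Fin r × Fin 4 => p ^ (k.1 : ℕ))
          (bin_ne hb)).symm, ← Finset.prod_pow_eq_pow_sum]
        apply Finset.prod_congr rfl
        intro k _
        rw [pow_mul]
  have wpos : ∀ d : DV p r, d ≠ 0 → 0 < w d := by
    intro d hd
    by_contra h
    apply hd
    apply w_inj
    have : w (0 : DV p r) = 0 := by simp [w, wt]
    omega
  have w0 : w (0 : DV p r) = 0 := by simp [w, wt]
  -- `a 0 = 0`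
  have a0 : a 0 = 0 := by
    have := ha 0
    rw [f0, map_zero, Finset.sum_eq_single (0 : DV p r)] at this
    · rw [w0, pow_zero, mul_one] at this; exact this.symm
    · intro d _ hd
      rw [zero_pow (by have := wpos d hd; omega), mul_zero]
    · intro h; exact absurd (mem_univ _) h
  have wfull : w (cmp (0 : DV p r)) = p ^ (4 * r) - 1 := by
    have := w_cmp hp1 (0 : DV p r); omega
  have spow : ∀ m, 0 < m → ∑ y : κ, y ^ m = if (p ^ (4 * r) - 1) ∣ m then -1 else 0 := by
    intro m hm; rw [sum_pow_eq m hm, hκ]
  -- `a full = 0`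
  have aF : a (cmp 0) = 0 := by
    have h1 : ∑ y, φ (f y) = 0 := by rw [← map_sum, fsum, map_zero]
    rw [Finset.sum_congr rfl fun y _ => ha y, Finset.sum_comm] at h1
    simp only [← Finset.mul_sum] at h1
    rw [Finset.sum_eq_single (cmp (0 : DV p r))] at h1
    · rw [spow _ (by omega), if_pos (by rw [wfull]), mul_neg, mul_one, neg_eq_zero] at h1
      exact h1
    · intro d _ hd
      by_cases hd0 : d = 0
      · rw [hd0, a0, zero_mul]
      · rw [spow _ (wpos d hd0), if_neg, mul_zero]
        intro hdv
        have h2 := Nat.le_of_dvd (wpos d hd0) hdv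
        have h3 := w_lt d
        apply hd
        apply w_inj
        omega
    · intro h; exact absurd (mem_univ _) h
  -- the formula for `Gf`
  have hG : ∀ b, φ (Gf b) = -∑ d, a d * b ^ w (cmp d) := by
    intro b
    by_cases hb : b = 0
    · subst hb
      rw [hG0, map_zero, Finset.sum_eq_single (cmp (0 : DV p r)), aF, zero_mul, neg_zero]
      · intro d _ hd
        rw [zero_pow, mul_zero]
        intro h0
        apply hd
        have : cmp d = 0 := w_inj (by rw [h0, w0])
        rw [← this, cmp_cmp]
      · intro h; exact absurd (mem_univ _) h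
    · rw [hGf b hb, map_neg, ha]
      congr 1
      apply Finset.sum_congr rfl
      intro d _
      congr 1
      rw [inv_pow]
      symm
      apply eq_inv_of_mul_eq_one_right
      rw [← pow_add, w_cmp hp1, ← hκ, FiniteField.pow_card_sub_one_eq_one b hb]
  -- the relations
  have relT : ∀ h, ∑ d, a d * (bin d h : κ) = a h := by
    have h1 := uniq hκ (fun h => ∑ d, a d * (bin d h : κ) - a h) (by
      intro y
      simp only [sub_mul, Finset.sum_sub_distrib]
      rw [← ha y, sub_eq_zero, ← ftr y, ha (y + 1)]
      have := fun d => addw y 1 d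
      simp only [map_one, one_pow, mul_one] at this
      simp only [this, Finset.mul_sum, Finset.sum_mul]
      rw [Finset.sum_comm]
      apply Finset.sum_congr rfl
      intro h _
      apply Finset.sum_congr rfl
      intro d _
      ring)
    intro h
    have := congrFun h1 h
    simpa [sub_eq_zero] using this
  have relS : ∀ d, a d ≠ 0 → (p ^ r - 1) ∣ sq d := by
    intro d hd
    rw [← hr, ← FiniteField.forall_pow_eq_one_iff]
    intro c
    have h1 := uniq hκ (fun d => a d * (algebraMap Fq κ c) ^ w d - a d) (by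
      intro y
      simp only [sub_mul, Finset.sum_sub_distrib]
      rw [← ha y, sub_eq_zero, ← fsc c c.ne_zero y, ha]
      apply Finset.sum_congr rfl
      intro d _
      rw [mul_pow]; ring)
    have h2 := congrFun h1 d
    simp only [Pi.zero_apply, xw] at h2
    have h3 : a d * ((algebraMap Fq κ c) ^ sq d - 1) = 0 := by linear_combination h2
    rcases mul_eq_zero.1 h3 with h4 | h4
    · exact absurd h4 hd
    · rw [sub_eq_zero, ← map_pow, ← map_one (algebraMap Fq κ)] at h4
      have := (algebraMap Fq κ).injective h4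
      exact Units.ext (by simpa using this)
  have relR : ∀ h, a h ≠ 0 → ∃ d, a (cmp d) ≠ 0 ∧ sq h + (p ^ r - 1) ≤ sq d := by
    have h1 := uniq hκ (fun h => a h + ∑ d, a (cmp d) * (bin d h : κ) *
        ∑ x : Fq, (algebraMap Fq κ x) ^ (sq d - sq h)) (by
      intro y
      simp only [add_mul, Finset.sum_add_distrib]
      rw [← ha y, hf, map_sum]
      simp only [hG]
      rw [Finset.sum_neg_distrib, neg_add_eq_zero]
      have e1 : ∀ x : Fq, ∑ d, a d * (y + algebraMap Fq κ x) ^ w (cmp d) =
          ∑ d, a (cmp d) * (y + algebraMap Fq κ x) ^ w d := by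
        intro x
        rw [← Equiv.sum_comp (Equiv.ofBijective cmp (Function.Involutive.bijective cmp_cmp))
          (fun d => a d * (y + algebraMap Fq κ x) ^ w (cmp d))]
        apply Finset.sum_congr rfl
        intro d _
        simp only [Equiv.ofBijective_apply, cmp_cmp]
      rw [Finset.sum_congr rfl fun x _ => e1 x]
      simp only [addw, Finset.mul_sum, Finset.sum_mul]
      rw [Finset.sum_comm]
      rw [Finset.sum_congr rfl fun d _ => Finset.sum_comm]
      rw [Finset.sum_comm]
      apply Finset.sum_congr rfl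
      intro h _
      apply Finset.sum_congr rfl
      intro d _
      apply Finset.sum_congr rfl
      intro x _
      ring)
    intro h hh
    have h2 := congrFun h1 h
    simp only [Pi.zero_apply] at h2
    have h3 : ∑ d, a (cmp d) * (bin d h : κ) *
        ∑ x : Fq, (algebraMap Fq κ x) ^ (sq d - sq h) ≠ 0 := by
      intro h4
      rw [h4, add_zero] at h2
      exact hh h2
    obtain ⟨d, -, hd⟩ := Finset.exists_ne_zero_of_sum_ne_zero h3
    refine ⟨d, fun h4 => hd (by rw [h4]; simp), ?_⟩
    by_contra hcon
    apply hd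
    have hb : sq h ≤ sq d ∨ bin d h = 0 := by
      by_cases hb : bin d h = 0
      · exact Or.inr hb
      · exact Or.inl (wt_le (bin_ne hb))
    rcases hb with hb | hb
    · have h5 : sq d - sq h < Fintype.card Fq - 1 := by rw [hr]; omega
      have h6 := FiniteField.sum_pow_lt_card_sub_one Fq _ h5
      have h7 : ∑ x : Fq, (algebraMap Fq κ x) ^ (sq d - sq h) = 0 := by
        simp only [← map_pow]
        rw [← map_sum, h6, map_zero]
      rw [h7, mul_zero]
    · rw [hb]; simp
  have relF : ∀ d, a d ≠ 0 → a (rho d) ≠ 0 := by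
    have h1 := uniq hκ (fun d => a (rho d) ^ p - a d) (by
      intro y
      simp only [sub_mul, Finset.sum_sub_distrib]
      rw [← ha y, sub_eq_zero]
      have e1 : φ (f y) = (φ (f y)) ^ p := by
        rw [← map_pow, ZMod.pow_card]
      rw [e1, ha y, sum_pow_char p]
      rw [← Equiv.sum_comp (Equiv.ofBijective _ (rho_bij (p := p) (r := r)))
        (fun d => (a d * y ^ w d) ^ p)]
      apply Finset.sum_congr rfl
      intro d _
      simp only [Equiv.ofBijective_apply]
      rw [mul_pow, ← pow_mul, mul_comm (w (rho d)) p, w_rho hκ])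
    intro d hd h2
    have h3 := congrFun h1 d
    simp only [Pi.zero_apply, h2] at h3
    rw [zero_pow (by omega), zero_sub, neg_eq_zero] at h3
    exact hd h3
  -- the Hecke condition
  have relH : ∀ d, (∀ j, col d j = p - 1) → a d = 0 := by
    obtain ⟨θ, hθ⟩ : ∃ θ : κ, ∀ x, lam x = Algebra.trace Fq κ (θ * x) := by
      refine ⟨(LinearMap.BilinForm.toDual (Algebra.traceForm Fq κ)
        (traceForm_nondegenerate Fq κ)).symm lam, fun x => ?_⟩
      rw [← Algebra.traceForm_apply]
      exact (LinearMap.BilinForm.apply_toDual_symm_apply _ _).symm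
    have hθ0 : θ ≠ 0 := by
      intro h; apply hlam; ext x; rw [hθ, h, zero_mul, map_zero]; rfl
    have htr : ∀ x : κ, algebraMap Fq κ (Algebra.trace Fq κ x) =
        ∑ i : Fin 4, x ^ (p ^ r) ^ (i : ℕ) := by
      intro x
      rw [FiniteField.algebraMap_trace_eq_sum_pow, hfr, Nat.card_eq_fintype_card, hr,
        Finset.sum_range]
    have hs : ∀ g : κ, ∑ b, φ (Gf b) * (algebraMap Fq κ (lam (g * b))) ^ (p ^ r - 1) = 0 := by
      intro g
      by_cases hg : g = 0
      · subst hg
        apply Finset.sum_eq_zero
        intro b _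
        rw [zero_mul, map_zero, map_zero, zero_pow (by omega), mul_zero]
      · have e1 : ∀ b, φ (Gf b) * (algebraMap Fq κ (lam (g * b))) ^ (p ^ r - 1) =
            ∑ c ∈ univ.erase (0 : Fq), φ (Set.indicator {b | lam (g * b) = c} Gf b) := by
          intro b
          by_cases h : lam (g * b) = 0
          · rw [h, map_zero, zero_pow (by omega), mul_zero]
            symm
            apply Finset.sum_eq_zero
            intro c hc
            rw [Set.indicator_of_notMem, map_zero]
            intro h2
            exact Finset.ne_of_mem_erase hc (by rw [← h2, h])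
          · rw [Finset.sum_eq_single (lam (g * b))]
            · rw [Set.indicator_of_mem (show b ∈ {b' | lam (g * b') = lam (g * b)} from rfl),
                ← map_pow, ← hr, FiniteField.pow_card_sub_one_eq_one _ h, map_one, mul_one]
            · intro c _ hc
              rw [Set.indicator_of_notMem, map_zero]
              intro h2
              exact hc h2.symm
            · intro h2
              exact absurd (Finset.mem_erase.2 ⟨h, mem_univ _⟩) h2
        rw [Finset.sum_congr rfl fun b _ => e1 b, Finset.sum_comm]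
        apply Finset.sum_eq_zero
        intro c hc
        have h3 := hGH g hg c (Finset.ne_of_mem_erase hc)
        rw [finsum_mem_def, finsum_eq_sum_of_fintype] at h3
        rw [← map_sum, h3, map_zero]
    have hs2 : ∀ g : κ, ∑ ε : DV p r, ((tc ε : κ) * a ε) * g ^ w ε = 0 := by
      intro g
      have h1 := hs (g * θ)
      have e2 : ∀ b, algebraMap Fq κ (lam (g * θ⁻¹ * b)) =
          ∑ i : Fin 4, (g * b) ^ (p ^ r) ^ (i : ℕ) := by
        intro b
        rw [hθ, htr, show θ * (g * θ⁻¹ * b) = g * b by field_simp]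
      have h2 := hs (g * θ⁻¹)
      simp only [e2, trace_pow, hG] at h2
      have h3 : ∀ ε : DV p r, ∑ b : κ, (-∑ d, a d * b ^ w (cmp d)) * ((tc ε : κ) * (g * b) ^ w ε) =
          ((tc ε : κ) * a ε) * g ^ w ε := by
        intro ε
        by_cases hε : ε = 0
        · subst hε
          rw [tc_zero]; simp
        have e3 : ∀ b : κ, (-∑ d, a d * b ^ w (cmp d)) * ((tc ε : κ) * (g * b) ^ w ε) =
            ∑ d, (-((tc ε : κ) * g ^ w ε * a d)) * b ^ (w (cmp d) + w ε) := by
          intro b
          rw [neg_mul, Finset.sum_mul, ← Finset.sum_neg_distrib]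
          apply Finset.sum_congr rfl
          intro d _
          rw [mul_pow, pow_add]; ring
        rw [Finset.sum_congr rfl fun b _ => e3 b, Finset.sum_comm]
        simp only [← Finset.mul_sum]
        rw [Finset.sum_eq_single ε]
        · rw [add_comm, w_cmp hp1, spow _ (by omega), if_pos (dvd_refl _)]; ring
        · intro d _ hd
          by_cases hd0 : d = 0
          · rw [hd0, a0]; ring
          · have l1 := wpos ε hε
            have l2 := wpos d hd0
            have l3 := w_lt ε
            have l4 := w_cmp hp1 d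
            rw [spow _ (by omega), if_neg, mul_zero]
            rintro ⟨c, hc⟩
            have l5 : w ε ≠ w d := fun h => hd (w_inj h.symm)
            have hc1 : c ≠ 0 := by rintro rfl; omega
            have hc2 : c ≠ 1 := by rintro rfl; omega
            have hc3 : (p ^ (4 * r) - 1) * 2 ≤ (p ^ (4 * r) - 1) * c :=
              Nat.mul_le_mul_left _ (by omega)
            omega
        · intro h; exact absurd (mem_univ _) h
      rw [← Finset.sum_congr rfl fun ε _ => h3 ε, Finset.sum_comm, ← h2]
      apply Finset.sum_congr rfl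
      intro b _
      rw [Finset.mul_sum]
    intro d hd
    have h4 := congrFun (uniq hκ _ hs2) d
    simp only [Pi.zero_apply] at h4
    exact (mul_eq_zero.1 h4).resolve_left (tc_ne hd)
  have A : Rel a := ⟨relT, relS, relR, relF, relH, a0⟩
  have az := A.zero
  funext b
  apply hφ
  rw [hG b, az]
  simp

end Pool.Agent.J4H98.HP
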