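import Pool.Agent.J4H98.HP.Pair
import Pool.Agent.J4H98.HP.Core2P
import Pool.Agent.J4H97.HP.C1
import Pool.Agent.J4H97.HP.Cusp
import Pool.Agent.J4H97.HP.Iwa
import Pool.Agent.J4H97.HP.PresC
import Pool.Agent.J4H97.HP.PresG
import Pool.Agent.J4H97.HP.PresS
import Pool.Agent.J4H8.HP.Core1a
import Pool.Agent.J4H8.HP.Core1b
import Pool.Agent.J4H8.HP.Core3
import Pool.Agent.J4H8.HP.Comm
import Pool.Agent.J4H7.HP.Bc
import Pool.Agent.J4H7.HP.Core2L
import Pool.Agent.J4H7.HP.Perf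

/-!
# Assembly: perfectness of the pairing between the Hecke algebra and the cuspidal cochains
-/

open Polynomial Matrix TensorProduct

namespace Pool.Agent.J4H98.HP

variable {Fq : Type} [Field Fq] [Fintype Fq]

theorem Fam.map {n : Fq[X]} {N N' : Type} [AddCommGroup N] [AddCommGroup N']
    {Φ : Matrix (Fin 2) (Fin 2) Fq[X] → ℤ → Kinf Fq → N} (H : Fam n Φ) (φ : N →+ N') :
    Fam n (fun δ k u => φ (Φ δ k u)) where
  congr δ hδ k u u' h := by rw [H.congr δ hδ k u u' h]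
  sum δ hδ k u := by rw [H.sum δ hδ k u, map_sum]
  moebA δ γ hδ hγ k u h1 h2 := by rw [H.moebA δ γ hδ hγ k u h1 h2]
  moebB δ γ hδ hγ k u h1 h2 := by rw [H.moebB δ γ hδ hγ k u h1 h2, map_neg]
  inv δ hδ γ hγ h := by rw [H.inv δ hδ γ hγ h]
  cuspInf := by rw [H.cuspInf, map_zero]
  cuspZero := by rw [H.cuspZero, map_zero]

theorem IsCochain.map {N N' : Type} [AddCommGroup N] [AddCommGroup N'] {F : G Fq → N}
    (H : IsCochain F) (φ : N →+ N') : IsCochain (fun g => φ (F g)) where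
  iwahori g κ hκ := by simp only [H.iwahori g κ hκ]
  center g z hz := by simp only [H.center g z hz]
  reverse g := by simp only [H.reverse g, map_neg]
  harmonic g := by
    have := congrArg φ (H.harmonic g)
    rw [map_add, map_sum, map_zero] at this
    exact this

theorem IsHarm.fam {n : Fq[X]} (hn : n.Monic) (h4 : n.natDegree = 4) {F : G Fq → ℤ}
    (H : IsHarm n F) : Fam n (fun δ k u => F (edge δ k u)) := by
  have h0 := J4H97.HP.t_FAM0 Fq n ℤ F H.cochain H.inv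
  obtain ⟨h1, h2⟩ := J4H97.HP.t_CUSP Fq n hn h4 F H.cusp h0
  exact { h0 with cuspInf := h1, cuspZero := h2 }

/-- the functions on `A/n` vanish, hence so does the cochain -/
theorem zero_of_fam {n : Fq[X]} (hn : n.Monic) (h4 : n.natDegree = 4) (hirr : Irreducible n)
    {N : Type} [AddCommGroup N] {F : G Fq → N} (hF : IsCochain F)
    (H : Fam n (fun δ k u => F (edge δ k u)))
    (h : ∀ b : Fq[X], F (edge 1 5 (emb Fq b / emb Fq n)) = 0) : F = 0 := by
  have h1 := J4H8.HP.t_CORE3 Fq n N (fun δ k u => F (edge δ k u)) hn h4 hirr H h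
  exact J4H97.HP.t_IWA Fq N F hF fun k u => h1 1 (by simp) k u

theorem core_mod {n : Fq[X]} (hn : n.Monic) (h4 : n.natDegree = 4) (hirr : Irreducible n)
    {F : G Fq → ℤ} (HF : IsHarm n F) (ℓ : ℕ) (hℓ : ℓ.Prime)
    (hc : ∀ g : Fq[X], g.Monic → g.natDegree ≤ 3 → (ℓ : ℤ) ∣ c1 (hecke n g F)) :
    ∀ g, (ℓ : ℤ) ∣ F g := by
  have hℓ' : Fact ℓ.Prime := ⟨hℓ⟩
  have hirr' : Fact (Irreducible n) := ⟨hirr⟩
  let κ := AdjoinRoot n
  have hfin : Module.Finite Fq κ := hn.finite_adjoinRoot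
  have hfin' : Finite κ := Module.finite_of_finite Fq
  have : Fintype κ := Fintype.ofFinite κ
  let ev : Fq[X] →ₐ[Fq] κ := AdjoinRoot.mkₐ n
  have hev : Function.Surjective ev := AdjoinRoot.mk_surjective
  have hevk : ∀ b, ev b = 0 ↔ n ∣ b := fun b => AdjoinRoot.mk_eq_zero
  have hfr : Module.finrank Fq κ = 4 := by
    rw [← h4]; exact finrank_quotient_span_eq_natDegree' hn
  have Hf := HF.fam hn h4
  -- reduction modulo `ℓ`
  let φ : ℤ →+ ZMod ℓ := (Int.castRingHom (ZMod ℓ)).toAddMonoidHom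
  have Hφ := Hf.map φ
  obtain ⟨Gf, hG, hG1, hG0, hGF, hGi, hGS⟩ := J4H8.HP.t_CORE1A Fq κ n ev (ZMod ℓ) _ hn h4 hev hevk Hφ
  have hHecke : ∀ g : Fq[X], g.Monic → g.natDegree ≤ 3 → ∑ v : Fin g.natDegree → Fq,
      φ (F (edge 1 (g.natDegree + 2) ((unif Fq + emb Fq (pol v)) / emb Fq g))) = 0 := by
    intro g hg hg3
    have h1 := J4H97.HP.t_C1 Fq n g ℤ F HF.cochain Hf.toFam0 Hf.cuspInf hg
    have h2 := hc g hg hg3
    rw [h1, dvd_neg] at h2
    rw [← map_sum]
    exact (ZMod.intCast_zmod_eq_zero_iff_dvd _ ℓ).2 h2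
  obtain ⟨lam, hlam, hH⟩ := J4H8.HP.t_CORE1B Fq κ n ev (ZMod ℓ) _ Gf hn h4 hev hevk Hφ hG hG1 hHecke
  have hGz : Gf = 0 := by
    obtain ⟨p, hp⟩ := CharP.exists Fq
    have hpp : Fact p.Prime := ⟨CharP.char_is_prime Fq p⟩
    by_cases hpl : ℓ = p
    · subst hpl
      exact t_CORE2P Fq κ ℓ lam Gf hfr hlam hG1 hG0 hGF hGi hGS hH
    · apply J4H7.HP.t_CORE2L Fq κ (ZMod ℓ) lam Gf _ hfr hlam hG1 hG0 hGS hH
      intro x hx
      obtain ⟨r, -, hr⟩ := FiniteField.card Fq p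
      rw [nsmul_eq_mul] at hx
      rcases mul_eq_zero.1 hx with h5 | h5
      · exfalso
        rw [hr, ZMod.natCast_eq_zero_iff] at h5
        have := hℓ.dvd_of_dvd_pow h5
        exact hpl ((Nat.prime_dvd_prime_iff_eq hℓ hpp.out).1 this)
      · exact h5
  have hz := zero_of_fam hn h4 hirr (HF.cochain.map φ) Hφ (by
    intro b
    have := hG b
    rw [hGz] at this
    exact this.symm)
  intro g
  have := congrFun hz g
  exact (ZMod.intCast_zmod_eq_zero_iff_dvd _ ℓ).1 this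

theorem IsHarm.div {n : Fq[X]} {F F' : G Fq → ℤ} (H : IsHarm n F) (ℓ : ℕ) (hℓ : ℓ ≠ 0)
    (h : ∀ g, F g = ℓ * F' g) : IsHarm n F' := by
  have hl : (ℓ : ℤ) ≠ 0 := by exact_mod_cast hℓ
  refine ⟨⟨fun g κ hκ => ?_, fun g z hz => ?_, fun g => ?_, fun g => ?_⟩, fun γ hγ g => ?_, ?_⟩
  · apply mul_left_cancel₀ hl
    rw [← h, ← h, H.cochain.iwahori g κ hκ]
  · apply mul_left_cancel₀ hl
    rw [← h, ← h, H.cochain.center g z hz]
  · apply mul_left_cancel₀ hl
    rw [← h, H.cochain.reverse g, h]; ring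
  · apply mul_left_cancel₀ hl
    rw [mul_add, Finset.mul_sum, ← h, Finset.sum_congr rfl fun c _ => (h _).symm,
      H.cochain.harmonic g, mul_zero]
  · apply mul_left_cancel₀ hl
    rw [← h, ← h, H.inv γ hγ g]
  · obtain ⟨S, hS, HS⟩ := H.cusp
    refine ⟨S, hS, fun g hg => HS g ?_⟩
    rw [h]
    exact mul_ne_zero hl hg

theorem Harm.ext {n : Fq[X]} {F F' : Harm n} (h : F.fn = F'.fn) : F = F' := Subtype.ext h

/-- an element of `Harm₀(n, ℤ)` -/
def Harm.mk {n : Fq[X]} (F : G Fq → ℤ) (h : IsHarm n F) : Harm n := (⟨F, h⟩ : harm0 n)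

theorem Harm.isHarm {n : Fq[X]} (F : Harm n) : IsHarm n F.fn := Subtype.property (p := (· ∈ harm0 n)) F

theorem Harm.fn_add {n : Fq[X]} (F F' : Harm n) : (F + F').fn = F.fn + F'.fn := rfl

theorem Harm.fn_zero {n : Fq[X]} : (0 : Harm n).fn = 0 := rfl

theorem Harm.fn_nsmul {n : Fq[X]} (k : ℕ) (F : Harm n) (g : G Fq) : (k • F).fn g = k * F.fn g := by
  induction k with
  | zero => simp [Harm.fn_zero]
  | succ k ih =>
    rw [succ_nsmul, Harm.fn_add, Pi.add_apply, ih]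
    push_cast; ring

theorem hecke_add (n m : Fq[X]) (F F' : G Fq → ℤ) :
    hecke n m (F + F') = hecke n m F + hecke n m F' := by
  funext g
  simp only [Pi.add_apply]
  rw [J4H97.HP.hecke_eq, J4H97.HP.hecke_eq, J4H97.HP.hecke_eq,
    ← finsum_mem_add_distrib (J4H97.HP.pairs_finite n m)]
  simp only [Pi.add_apply, Finset.sum_add_distrib]

/-- the Hecke operator `T_m` as an endomorphism -/
noncomputable def heckeEnd {n : Fq[X]} (hn : n.Monic) {m : Fq[X]} (hm : m.Monic) :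
    EndHarm n :=
  (AddMonoidHom.mk' (fun F : Harm n => Harm.mk (hecke n m F.fn)
    ⟨J4H97.HP.t_PRESC Fq n m ℤ F.fn hm.ne_zero F.isHarm.cochain,
    J4H97.HP.t_PRESG Fq n m ℤ F.fn hn hm F.isHarm.inv,
    J4H97.HP.t_PRESS Fq n m ℤ F.fn hn hm F.isHarm.cusp⟩)
    (fun F F' => Harm.ext (hecke_add n m F.fn F'.fn))).toIntLinearMap

theorem heckeEnd_fn {n : Fq[X]} (hn : n.Monic) {m : Fq[X]} (hm : m.Monic) (F : Harm n) :
    (heckeEnd hn hm F).fn = hecke n m F.fn := rfl

theorem heckeEnd_mem {n : Fq[X]} (hn : n.Monic) {m : Fq[X]} (hm : m.Monic) :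
    heckeEnd hn hm ∈ heckeRing n :=
  Subring.subset_closure ⟨m, hm, fun _ => rfl⟩

/-- the Hecke operator `T_m` as an element of the Hecke algebra -/
noncomputable def heckeElt {n : Fq[X]} (hn : n.Monic) {m : Fq[X]} (hm : m.Monic) : HeckeT n :=
  (⟨heckeEnd hn hm, heckeEnd_mem hn hm⟩ : heckeRing n)

theorem heckeElt_op {n : Fq[X]} (hn : n.Monic) {m : Fq[X]} (hm : m.Monic) :
    (heckeElt hn hm).op = heckeEnd hn hm := rfl

theorem heckeRing_comm {n : Fq[X]} (hn : n.Monic) (hirr : Irreducible n) :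
    ∀ x ∈ heckeRing n, ∀ y ∈ heckeRing n, x * y = y * x := by
  have key : ∀ x ∈ {θ : EndHarm n | ∃ m : Fq[X], m.Monic ∧ ∀ F : Harm n,
      (θ F).fn = hecke n m F.fn}, ∀ y ∈ {θ : EndHarm n | ∃ m : Fq[X], m.Monic ∧
      ∀ F : Harm n, (θ F).fn = hecke n m F.fn}, x * y = y * x := by
    rintro x ⟨m, hm, hx⟩ y ⟨m', hm', hy⟩
    apply LinearMap.ext
    intro F
    apply Harm.ext
    rw [Module.End.mul_apply, Module.End.mul_apply, hx, hy, hy, hx]
    exact J4H8.HP.t_COMM Fq n m m' ℤ F.fn hn hirr hm hm' F.isHarm.cochain.center F.isHarm.inv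
  intro x hx y hy
  exact Subring.closure_induction₂ (p := fun x y _ _ => x * y = y * x)
    (fun x y hx hy => key x hx y hy) (fun x _ => by simp) (fun x _ => by simp)
    (fun x _ => by simp) (fun x _ => by simp)
    (fun x y _ _ h => by rw [neg_mul, h, mul_neg])
    (fun x y _ _ h => by rw [mul_neg, h, neg_mul])
    (fun x y z _ _ _ h h' => by rw [add_mul, h, h', mul_add])
    (fun x y z _ _ _ h h' => by rw [mul_add, h, h', add_mul])
    (fun x y z _ _ _ h h' => by rw [mul_assoc, h', ← mul_assoc, h, mul_assoc])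
    (fun x y z _ _ _ h h' => by rw [← mul_assoc, h, mul_assoc, h', mul_assoc]) hx hy

/-- evaluation at the edges `(5, b/n)`, `deg b < 4` -/
noncomputable def evH (n : Fq[X]) : Harm n →ₗ[ℤ] ((Fin 4 → Fq) → ℤ) :=
  (AddMonoidHom.mk' (fun F v => F.fn (edge 1 5 (emb Fq (pol v) / emb Fq n)))
    (fun _ _ => rfl)).toIntLinearMap

theorem evH_inj {n : Fq[X]} (hn : n.Monic) (h4 : n.natDegree = 4) (hirr : Irreducible n) :
    Function.Injective (evH n) := by
  rw [injective_iff_map_eq_zero]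
  intro F hF
  apply Harm.ext
  apply zero_of_fam hn h4 hirr F.isHarm.cochain (F.isHarm.fam hn h4)
  intro b
  have hirr' : Fact (Irreducible n) := ⟨hirr⟩
  let κ := AdjoinRoot n
  have hfin : Module.Finite Fq κ := hn.finite_adjoinRoot
  have hfin' : Finite κ := Module.finite_of_finite Fq
  have : Fintype κ := Fintype.ofFinite κ
  let ev : Fq[X] →ₐ[Fq] κ := AdjoinRoot.mkₐ n
  have hev : Function.Surjective ev := AdjoinRoot.mk_surjective
  have hevk : ∀ b, ev b = 0 ↔ n ∣ b := fun b => AdjoinRoot.mk_eq_zero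
  obtain ⟨Gf, hG, -⟩ := J4H8.HP.t_CORE1A Fq κ n ev ℤ _ hn h4 hev hevk (F.isHarm.fam hn h4)
  have h1 : ev b = ev (b %ₘ n) := by
    have h2 := Polynomial.modByMonic_add_div b n
    conv_lhs => rw [← h2]
    rw [map_add, (hevk (n * (b /ₘ n))).2 (Dvd.intro _ rfl), add_zero]
  have hdeg : (b %ₘ n).degree < ((4 : ℕ) : WithBot ℕ) := by
    have := Polynomial.degree_modByMonic_lt b hn
    rwa [Polynomial.degree_eq_natDegree hn.ne_zero, h4] at this
  obtain ⟨v, hv⟩ := J4H97.HP.exists_pol hdeg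
  have h3 := congrFun hF v
  have h4' : F.fn (edge 1 5 (emb Fq (b %ₘ n) / emb Fq n)) = 0 := by
    rw [← hv]; exact h3
  rw [← hG, h1, hG, h4']

theorem harm_finite {n : Fq[X]} (hn : n.Monic) (h4 : n.natDegree = 4) (hirr : Irreducible n) :
    Module.Finite ℤ (Harm n) :=
  Module.Finite.of_injective (evH n) (evH_inj hn h4 hirr)

theorem harm_free {n : Fq[X]} (hn : n.Monic) (h4 : n.natDegree = 4) (hirr : Irreducible n) :
    Module.Free ℤ (Harm n) := by
  have h1 : Module.Free ℤ (LinearMap.range (evH n)) := inferInstance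
  exact Module.Free.of_equiv (LinearEquiv.ofInjective (evH n) (evH_inj hn h4 hirr)).symm

theorem pairing_perfect {n : Fq[X]} (hn : n.Monic) (h4 : n.natDegree = 4)
    (hirr : Irreducible n) : (pairing n).IsPerfPair := by
  have h1 := harm_finite hn h4 hirr
  have h2 := harm_free hn h4 hirr
  let T := subalgebraOfSubring (heckeRing n)
  let B : T →ₗ[ℤ] Harm n →ₗ[ℤ] ℤ := LinearMap.compRight ℤ (c1L n) ∘ₗ T.val.toLinearMap
  have hB : B.IsPerfPair := by
    apply J4H7.HP.t_PERF (Harm n) T (c1L n) (heckeRing_comm hn hirr) _ B (fun θ F => rfl)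
    intro ℓ hℓ F hF
    have h1 := core_mod hn h4 hirr F.isHarm ℓ hℓ (fun g hg _ => hF _ (heckeEnd_mem hn hg))
    choose F' hF' using h1
    have hl0 : ℓ ≠ 0 := hℓ.ne_zero
    refine ⟨Harm.mk F' (F.isHarm.div ℓ hl0 hF'), ?_⟩
    apply Harm.ext
    funext g
    rw [hF' g, Harm.fn_nsmul]
    rfl
  have hb := hB.bijective_left
  exact LinearMap.IsPerfPair.of_bijective (pairing n) hb

theorem heckeT_ff {n : Fq[X]} (hn : n.Monic) (h4 : n.natDegree = 4)
    (hirr : Irreducible n) : Module.Finite ℤ (HeckeT n) ∧ Module.Free ℤ (HeckeT n) := by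
  have h1 := harm_finite hn h4 hirr
  have h2 := harm_free hn h4 hirr
  have h3 := pairing_perfect hn h4 hirr
  have e := (pairing n).toPerfPair
  exact ⟨Module.Finite.equiv e.symm, Module.Free.of_equiv e.symm⟩

theorem pairing_bc {n : Fq[X]} (hn : n.Monic) (h4 : n.natDegree = 4)
    (hirr : Irreducible n) (R : Type) [CommRing R] : (bcPair R (pairing n)).IsPerfPair := by
  have h1 := harm_finite hn h4 hirr
  have h2 := harm_free hn h4 hirr
  have h3 := heckeT_ff hn h4 hirr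
  exact @J4H7.HP.t_BC (HeckeT n) (Harm n) _ _ h3.1 h3.2 h1 h2 R _ (pairing n)
    (pairing_perfect hn h4 hirr) _ (fun r x s y => bcPair_tmul R (pairing n) r x s y)

end Pool.Agent.J4H98.HP
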