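import Pool.Agent.J4H98.HP.Jobs2
import Pool.Agent.J4H97.HP.PresC
import Pool.Agent.J4H97.HP.PresG

/-!
# The Hecke operators on modular forms through the functions `g ↦ f|g` on `GL₂(K_∞)`
-/

open Polynomial Matrix Filter Topology

namespace Pool.Agent.J4H98.HP

open Pool.Agent.TH828.DM (Omega OmegaN IsRigidAnalytic expA res HasRes)
open Pool.Agent.N814.DR (slash SmallAtInfinity)

section

variable {Fq : Type} [Field Fq]

theorem det_map_ne0 {δ : Matrix (Fin 2) (Fin 2) Fq[X]} (h : δ.det ≠ 0) :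
    (δ.map (emb Fq)).det ≠ 0 := by
  rw [← RingHom.mapMatrix_apply, ← RingHom.map_det]
  exact J4H97.HP.emb_ne h

theorem det_hecke {a b d : Fq[X]} (ha : a.Monic) (hd : d.Monic) :
    (!![a, b; 0, d] : Matrix (Fin 2) (Fin 2) Fq[X]).det ≠ 0 := by
  rw [Matrix.det_fin_two_of, mul_zero, sub_zero]
  exact mul_ne_zero ha.ne_zero hd.ne_zero

theorem det_heckeMset {n m : Fq[X]} {δ : Matrix (Fin 2) (Fin 2) Fq[X]} (h : δ ∈ heckeMset n m) :
    δ.det ≠ 0 := by
  obtain ⟨a, b, d, ha, hd, -, -, -, rfl⟩ := h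
  exact det_hecke ha hd

theorem map_upper (a b d : Fq[X]) : (!![a, b; 0, d] : Matrix (Fin 2) (Fin 2) Fq[X]).map (emb Fq) =
    !![emb Fq a, emb Fq b; 0, emb Fq d] := by
  ext i j
  fin_cases i <;> fin_cases j <;> simp

theorem heckeSet_image (n m : Fq[X]) :
    heckeSet n m = (fun δ : Matrix (Fin 2) (Fin 2) Fq[X] => gl (δ.map (emb Fq))) ''
      heckeMset n m := by
  ext g
  constructor
  · rintro ⟨a, b, d, ha, hd, had, hcop, hb, hg⟩
    refine ⟨!![a, b; 0, d], ⟨a, b, d, ha, hd, had, hcop, hb, rfl⟩, ?_⟩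
    apply Units.ext
    show (gl ((!![a, b; 0, d] : Matrix (Fin 2) (Fin 2) Fq[X]).map (emb Fq))).1 = g.1
    rw [J4H97.HP.gl_val (det_map_ne0 (det_hecke ha hd)), hg, map_upper]
  · rintro ⟨δ, hδ, rfl⟩
    have hdet := det_heckeMset hδ
    obtain ⟨a, b, d, ha, hd, had, hcop, hb, rfl⟩ := hδ
    exact ⟨a, b, d, ha, hd, had, hcop, hb, by
      show (gl ((!![a, b; 0, d] : Matrix (Fin 2) (Fin 2) Fq[X]).map (emb Fq))).1 = _
      rw [J4H97.HP.gl_val (det_map_ne0 hdet), map_upper]⟩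

theorem gl_map_injOn (n m : Fq[X]) :
    Set.InjOn (fun δ : Matrix (Fin 2) (Fin 2) Fq[X] => gl (δ.map (emb Fq))) (heckeMset n m) := by
  intro δ hδ δ' hδ' h
  have h1 : δ.map (emb Fq) = δ'.map (emb Fq) := by
    rw [← J4H97.HP.gl_val (det_map_ne0 (det_heckeMset hδ)),
      ← J4H97.HP.gl_val (det_map_ne0 (det_heckeMset hδ'))]
    exact congrArg (fun g : G Fq => g.1) h
  ext1 i j
  exact J4H97.HP.emb_injective (congrFun (congrFun h1 i) j)

variable [Fintype Fq]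

theorem heckeMset_finite (n m : Fq[X]) : (heckeMset n m).Finite := by
  have h := J4H97.HP.heckeSet_finite n m
  rw [heckeSet_image] at h
  exact Set.Finite.of_finite_image h (gl_map_injOn n m)

/-- elements of `Γ₀(n)` come from matrices over `A` -/
theorem gam0_eq {n : Fq[X]} {γ : G Fq} (h : γ ∈ Gam0 n) : ∃ δ : Matrix (Fin 2) (Fin 2) Fq[X],
    IsUnit δ.det ∧ n ∣ δ 1 0 ∧ γ = gl (δ.map (emb Fq)) := by
  obtain ⟨a, b, c, d, hu, hn, hγ⟩ := h
  have hdet : (!![a, b; c, d] : Matrix (Fin 2) (Fin 2) Fq[X]).det = a * d - b * c := by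
    rw [Matrix.det_fin_two_of]
  refine ⟨!![a, b; c, d], by rw [hdet]; exact hu, hn, ?_⟩
  apply Units.ext
  rw [J4H97.HP.gl_val (det_map_ne0 (by rw [hdet]; exact hu.ne_zero)), hγ]
  ext i j
  fin_cases i <;> fin_cases j <;> simp

theorem mem_gam0 {n : Fq[X]} {δ : Matrix (Fin 2) (Fin 2) Fq[X]} (hu : IsUnit δ.det)
    (hn : n ∣ δ 1 0) : gl (δ.map (emb Fq)) ∈ Gam0 n := by
  refine ⟨δ 0 0, δ 0 1, δ 1 0, δ 1 1, by rw [← Matrix.det_fin_two]; exact hu, hn, ?_⟩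
  rw [J4H97.HP.gl_val (det_map_ne0 hu.ne_zero)]
  ext i j
  fin_cases i <;> fin_cases j <;> simp

end

section

variable {Fq C : Type} [Field Fq] [Fintype Fq] [NontriviallyNormedField C]
  [IsUltrametricDist C] [CompleteSpace C] [IsAlgClosed C] [Algebra Fq C] {t s : C}
  {ι : Kinf Fq →+* C}

omit [Fintype Fq] [IsUltrametricDist C] [CompleteSpace C] [IsAlgClosed C] in
theorem sl_supp (g : G Fq) (f : C → C) {z : C} (hz : z ∉ Omega Fq t) : sl t ι g f z = 0 :=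
  Set.indicator_of_notMem hz _

/-- the function `g ↦ f|g` with values in the functions -/
noncomputable def Fsl (t : C) (ι : Kinf Fq →+* C) (f : C → C) : G Fq → (C → C) :=
  fun g => sl t ι g f

theorem sl_sum (K2 : S_SL) (H : Sta t s ι) (g : G Fq) {α : Type} (T : Finset α)
    (f : α → C → C) : sl t ι g (∑ x ∈ T, f x) = ∑ x ∈ T, sl t ι g (f x) := by
  classical
  obtain ⟨-, -, -, hadd, hsmul, -⟩ := K2 Fq C t s ι H
  have h0 : sl t ι g (0 : C → C) = 0 := by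
    have := hsmul g 0 0
    rwa [zero_smul, zero_smul] at this
  induction T using Finset.induction_on with
  | empty => rw [Finset.sum_empty, Finset.sum_empty, h0]
  | insert a T ha ih => rw [Finset.sum_insert ha, Finset.sum_insert ha, hadd, ih]

theorem heckeM_eq_sum (K2 : S_SL) (H : Sta t s ι) (n m : Fq[X]) (f : C → C) :
    heckeM t n m f = ∑ h ∈ (J4H97.HP.heckeSet_finite n m).toFinset, sl t ι h f := by
  obtain ⟨-, -, -, -, -, hsl, -⟩ := K2 Fq C t s ι H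
  rw [← finsum_mem_eq_finite_toFinset_sum (fun h => sl t ι h f) (J4H97.HP.heckeSet_finite n m),
    heckeSet_image, finsum_mem_image (gl_map_injOn n m)]
  unfold heckeM
  refine finsum_mem_congr rfl fun δ hδ => ?_
  exact (hsl δ f (det_heckeMset hδ)).symm

/-- `(T_m f)|g = T_m (g ↦ f|g)` -/
theorem Fsl_hecke (K2 : S_SL) (H : Sta t s ι) (n m : Fq[X]) (f : C → C) :
    Fsl t ι (heckeM t n m f) = hecke n m (Fsl t ι f) := by
  obtain ⟨hmul, -⟩ := K2 Fq C t s ι H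
  funext g
  rw [J4H97.HP.hecke_sum]
  unfold Fsl
  rw [heckeM_eq_sum K2 H, sl_sum K2 H]
  exact Finset.sum_congr rfl fun h _ => (hmul h g f).symm

theorem Fsl_inv (K2 : S_SL) (H : Sta t s ι) {n : Fq[X]} {f : C → C}
    (hinv : ∀ γ : Matrix (Fin 2) (Fin 2) Fq[X], IsUnit γ.det → n ∣ γ 1 0 →
      slash Fq t 2 1 γ f = f) :
    ∀ γ ∈ Gam0 n, ∀ g, Fsl t ι f (γ * g) = Fsl t ι f g := by
  intro γ hγ g
  obtain ⟨hmul, -, -, -, -, hsl, -⟩ := K2 Fq C t s ι H
  obtain ⟨δ, hu, hn, rfl⟩ := gam0_eq hγ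
  unfold Fsl
  rw [hmul, hsl δ f hu.ne_zero, hinv δ hu hn]

theorem Fsl_center (K2 : S_SL) (H : Sta t s ι) (f : C → C) :
    ∀ g, ∀ z : Kinf Fq, z ≠ 0 → Fsl t ι f (g * gl !![z, 0; 0, z]) = Fsl t ι f g := by
  intro g z hz
  obtain ⟨hmul, -, -, -, -, -, hc⟩ := K2 Fq C t s ι H
  unfold Fsl
  rw [hmul]
  exact hc z _ hz fun y hy => sl_supp g f hy

theorem Fsl_one (K2 : S_SL) (H : Sta t s ι) {f : C → C} (hf : ∀ z, z ∉ Omega Fq t → f z = 0) :
    Fsl t ι f 1 = f := (K2 Fq C t s ι H).2.1 f hf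

theorem heckeM_supp (K2 : S_SL) (H : Sta t s ι) (n m : Fq[X]) (f : C → C) {z : C}
    (hz : z ∉ Omega Fq t) : heckeM t n m f z = 0 := by
  rw [heckeM_eq_sum K2 H, Finset.sum_apply]
  exact Finset.sum_eq_zero fun h _ => sl_supp h f hz

theorem heckeM_rigid (K2 : S_SL) (H : Sta t s ι) (n m : Fq[X]) {f : C → C}
    (hf : IsRigidAnalytic Fq t f) : IsRigidAnalytic Fq t (heckeM t n m f) := by
  classical
  obtain ⟨-, -, hr, -⟩ := K2 Fq C t s ι H
  rw [heckeM_eq_sum K2 H]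
  generalize (J4H97.HP.heckeSet_finite n m).toFinset = T
  induction T using Finset.induction_on with
  | empty => rw [Finset.sum_empty]; exact Pool.Agent.N814.DR.IsRigidAnalytic.zero'
  | insert a T ha ih =>
    rw [Finset.sum_insert ha]
    exact Pool.Agent.N814.DR.IsRigidAnalytic.add' (hr a f hf) ih

/-- `T_m` commutes with `Γ₀(n)` -/
theorem heckeM_inv (K2 : S_SL) (H : Sta t s ι) {n m : Fq[X]} (hn : n.Monic) (hm : m.Monic)
    {f : C → C} (hinv : ∀ γ : Matrix (Fin 2) (Fin 2) Fq[X], IsUnit γ.det → n ∣ γ 1 0 →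
      slash Fq t 2 1 γ f = f) :
    ∀ γ : Matrix (Fin 2) (Fin 2) Fq[X], IsUnit γ.det → n ∣ γ 1 0 →
      slash Fq t 2 1 γ (heckeM t n m f) = heckeM t n m f := by
  intro γ hu hγ
  obtain ⟨-, -, -, -, -, hsl, -⟩ := K2 Fq C t s ι H
  have h1 := J4H97.HP.t_PRESG Fq n m (C → C) (Fsl t ι f) hn hm (Fsl_inv K2 H hinv)
    (gl (γ.map (emb Fq))) (mem_gam0 hu hγ) 1
  rw [← Fsl_hecke K2 H, mul_one,
    Fsl_one K2 H (fun z hz => heckeM_supp K2 H n m f hz)] at h1
  rw [← hsl γ _ hu.ne_zero]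
  exact h1

theorem heckeM_comm (K2 : S_SL) (KC : S_COMM) (H : Sta t s ι) {n m m' : Fq[X]} (hn : n.Monic)
    (hirr : Irreducible n) (hm : m.Monic) (hm' : m'.Monic)
    {f : C → C} (hinv : ∀ γ : Matrix (Fin 2) (Fin 2) Fq[X], IsUnit γ.det → n ∣ γ 1 0 →
      slash Fq t 2 1 γ f = f) :
    heckeM t n m (heckeM t n m' f) = heckeM t n m' (heckeM t n m f) := by
  have h1 := KC Fq n m m' (C → C) (Fsl t ι f) hn hirr hm hm' (Fsl_center K2 H f)
    (Fsl_inv K2 H hinv)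
  rw [← Fsl_hecke K2 H, ← Fsl_hecke K2 H, ← Fsl_hecke K2 H, ← Fsl_hecke K2 H] at h1
  have h2 := congrFun h1 1
  rwa [Fsl_one K2 H (fun z hz => heckeM_supp K2 H n m _ hz),
    Fsl_one K2 H (fun z hz => heckeM_supp K2 H n m' _ hz)] at h2

/-- residues on the standard circle exist -/
theorem hasRes_std (K2 : S_SL) (K3b : S_EDGE) (H : Sta t s ι) {f : C → C}
    (hf : IsRigidAnalytic Fq t f) (g : G Fq) :
    HasRes (Fintype.card Fq) (sl t ι g f) 0 s (rc t s ι f g) := by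
  obtain ⟨-, h1, hr, -, -, hsl, -⟩ := K2 Fq C t s ι H
  have h2 := K3b Fq C t s ι H (sl t ι g f) (hr g f hf) 1 (by simp) 0 0
  have h3 : slash Fq t 2 1 (1 : Matrix (Fin 2) (Fin 2) Fq[X]) (sl t ι g f) = sl t ι g f := by
    rw [← hsl 1 _ (by simp)]
    have : gl ((1 : Matrix (Fin 2) (Fin 2) Fq[X]).map (emb Fq)) = (1 : G Fq) := by
      apply Units.ext
      rw [J4H97.HP.gl_val (det_map_ne0 (by simp))]
      rw [Matrix.map_one _ (map_zero _) (map_one _)]
      rfl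
    rw [this]
    exact h1 _ fun z hz => sl_supp g f hz
  rw [h3, map_zero, neg_zero, zpow_zero, one_mul] at h2
  have h4 : rc t s ι f g = rc t s ι (sl t ι g f) (edge 1 0 0) := h2.res_eq
  rw [h4]
  exact h2

theorem rc_add (K2 : S_SL) (K3b : S_EDGE) (H : Sta t s ι) {f f' : C → C}
    (hf : IsRigidAnalytic Fq t f) (hf' : IsRigidAnalytic Fq t f') :
    rc t s ι (f + f') = rc t s ι f + rc t s ι f' := by
  obtain ⟨-, -, hr, hadd, -⟩ := K2 Fq C t s ι H
  funext g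
  have h1 := (hasRes_std K2 K3b H hf g).add (hasRes_std K2 K3b H hf' g)
  have h2 : (fun z => sl t ι g f z + sl t ι g f' z) = sl t ι g (f + f') := by
    rw [hadd]; rfl
  rw [h2] at h1
  exact h1.res_eq

theorem rc_smul (K2 : S_SL) (K3b : S_EDGE) (H : Sta t s ι) (c : C) {f : C → C}
    (hf : IsRigidAnalytic Fq t f) : rc t s ι (c • f) = c • rc t s ι f := by
  obtain ⟨-, -, hr, -, hsmul, -⟩ := K2 Fq C t s ι H
  funext g
  have h1 := (hasRes_std K2 K3b H hf g).const_mul c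
  have h2 : (fun z => c * sl t ι g f z) = sl t ι g (c • f) := by
    rw [hsmul]; rfl
  rw [h2] at h1
  exact h1.res_eq

theorem rc_sl (K2 : S_SL) (H : Sta t s ι) (f : C → C) (h g : G Fq) :
    rc t s ι (sl t ι h f) g = rc t s ι f (h * g) := by
  unfold rc
  rw [(K2 Fq C t s ι H).1]

theorem rc_hecke (K2 : S_SL) (K3b : S_EDGE) (H : Sta t s ι) (n m : Fq[X]) {f : C → C}
    (hf : IsRigidAnalytic Fq t f) : rc t s ι (heckeM t n m f) = hecke n m (rc t s ι f) := by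
  classical
  obtain ⟨-, -, hr, -⟩ := K2 Fq C t s ι H
  funext g
  rw [J4H97.HP.hecke_sum, heckeM_eq_sum K2 H]
  generalize (J4H97.HP.heckeSet_finite n m).toFinset = T
  have key : rc t s ι (∑ h ∈ T, sl t ι h f) = ∑ h ∈ T, rc t s ι (sl t ι h f) ∧
      IsRigidAnalytic Fq t (∑ h ∈ T, sl t ι h f) := by
    induction T using Finset.induction_on with
    | empty =>
      rw [Finset.sum_empty, Finset.sum_empty]
      refine ⟨?_, Pool.Agent.N814.DR.IsRigidAnalytic.zero'⟩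
      have h1 := rc_smul K2 K3b H 0 hf
      rwa [zero_smul, zero_smul] at h1
    | insert a T ha ih =>
      rw [Finset.sum_insert ha, Finset.sum_insert ha]
      refine ⟨?_, Pool.Agent.N814.DR.IsRigidAnalytic.add' (hr a f hf) ih.2⟩
      rw [rc_add K2 K3b H (hr a f hf) ih.2, ih.1]
  rw [key.1, Finset.sum_apply]
  exact Finset.sum_congr rfl fun h _ => rc_sl K2 H f h g

theorem rc_inv (K2 : S_SL) (H : Sta t s ι) {n : Fq[X]} {f : C → C}
    (hinv : ∀ γ : Matrix (Fin 2) (Fin 2) Fq[X], IsUnit γ.det → n ∣ γ 1 0 →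
      slash Fq t 2 1 γ f = f) :
    ∀ γ ∈ Gam0 n, ∀ g, rc t s ι f (γ * g) = rc t s ι f g := by
  intro γ hγ g
  have := Fsl_inv K2 H hinv γ hγ g
  unfold Fsl at this
  unfold rc
  rw [this]

end

end Pool.Agent.J4H98.HP
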