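import Pool.Agent.J4H98.HP.Jobs2

/-!
# K10: inversion
-/

open Polynomial Filter Topology

namespace Pool.Agent.J4H98.HP

section

variable {Fq C : Type} [Field Fq] [Fintype Fq] [NontriviallyNormedField C] [Algebra Fq C]

omit [NontriviallyNormedField C] [Algebra Fq C] in
/-- Lagrange interpolation on `F_q` -/
theorem interp_poly {C : Type} [Field C] [Algebra Fq C] (f : C[X])
    (hf : f.degree < Fintype.card Fq) (x : C) :
    f.eval x = ∑ a : Fq, f.eval (algebraMap Fq C a) *
      (1 - (x - algebraMap Fq C a) ^ (Fintype.card Fq - 1)) := by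
  classical
  have hq : 1 < Fintype.card Fq := Fintype.one_lt_card
  have hq1 : Fintype.card Fq - 1 ≠ 0 := by omega
  have hinj : Function.Injective (algebraMap Fq C) := (algebraMap Fq C).injective
  set g : C[X] := ∑ a : Fq, Polynomial.C (f.eval (algebraMap Fq C a)) *
    (1 - (X - Polynomial.C (algebraMap Fq C a)) ^ (Fintype.card Fq - 1)) with hg
  have hdeg : (f - g).degree < Fintype.card Fq := by
    refine lt_of_le_of_lt (degree_sub_le _ _) (max_lt hf ?_)
    refine lt_of_le_of_lt (degree_sum_le _ _) ?_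
    refine (Finset.sup_lt_iff ?_).2 ?_
    · exact WithBot.bot_lt_coe _
    · intro a _
      refine lt_of_le_of_lt (degree_mul_le _ _) ?_
      refine lt_of_le_of_lt (add_le_add_left degree_C_le _) ?_
      rw [zero_add]
      refine lt_of_le_of_lt (degree_sub_le _ _) (max_lt ?_ ?_)
      · refine lt_of_le_of_lt degree_one_le ?_
        exact_mod_cast Nat.zero_lt_of_lt hq
      · refine lt_of_le_of_lt (degree_pow_le _ _) ?_
        rw [degree_X_sub_C]
        simp only [nsmul_eq_mul, mul_one]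
        exact_mod_cast Nat.sub_lt (by omega) one_pos
  have hev : ∀ b ∈ (Finset.univ.image (algebraMap Fq C)), (f - g).eval b = 0 := by
    intro b hb
    obtain ⟨b, -, rfl⟩ := Finset.mem_image.1 hb
    rw [eval_sub, hg, eval_finsetSum, Finset.sum_eq_single b]
    · simp [hq1]
    · intro a _ hab
      simp only [eval_mul, eval_C, eval_sub, eval_one, eval_pow, eval_X]
      rw [← map_sub, ← map_pow, FiniteField.pow_card_sub_one_eq_one _
        (sub_ne_zero.2 (Ne.symm hab))]
      simp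
    · intro h; exact absurd (Finset.mem_univ _) h
  have h0 : f - g = 0 := by
    refine Polynomial.eq_zero_of_degree_lt_of_eval_finset_eq_zero
      (Finset.univ.image (algebraMap Fq C)) ?_ hev
    rw [Finset.card_image_of_injective _ hinj, Finset.card_univ]
    exact hdeg
  have : f = g := sub_eq_zero.1 h0
  conv_lhs => rw [this, hg]
  rw [eval_finsetSum]
  refine Finset.sum_congr rfl fun a _ => ?_
  simp

/-- interpolation for powers of linear forms -/
theorem interp_lin {C : Type} [Field C] [Algebra Fq C] (D : ℕ) (c : C) (x y : Fin D → C) :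
    (c + ∑ j, x j * y j) ^ (Fintype.card Fq - 1) = ∑ a : Fin D → Fq,
      (c + ∑ j, algebraMap Fq C (a j) * y j) ^ (Fintype.card Fq - 1) *
        ∏ j, (1 - (x j - algebraMap Fq C (a j)) ^ (Fintype.card Fq - 1)) := by
  classical
  induction D generalizing c with
  | zero => simp
  | succ D ih =>
    have hq : 1 < Fintype.card Fq := Fintype.one_lt_card
    rw [Fin.sum_univ_succ, ← add_assoc, ih]
    rw [← (Fin.consEquiv (fun _ : Fin (D + 1) => Fq)).sum_comp, Fintype.sum_prod_type]
    rw [Finset.sum_comm]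
    refine Finset.sum_congr rfl fun a _ => ?_
    have key := interp_poly (Fq := Fq) (C := C)
      ((Polynomial.C (c + ∑ j : Fin D, algebraMap Fq C (a j) * y j.succ) +
        X * Polynomial.C (y 0)) ^ (Fintype.card Fq - 1)) ?_ (x 0)
    · simp only [eval_pow, eval_add, eval_C, eval_mul, eval_X] at key
      have h1 : c + x 0 * y 0 + ∑ j : Fin D, algebraMap Fq C (a j) * y j.succ =
        c + ∑ j : Fin D, algebraMap Fq C (a j) * y j.succ + x 0 * y 0 := by ring
      rw [h1, key, Finset.sum_mul]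
      refine Finset.sum_congr rfl fun b _ => ?_
      rw [Fin.sum_univ_succ, Fin.prod_univ_succ]
      simp only [Fin.consEquiv_apply, Fin.cons_zero, Fin.cons_succ]
      have h2 : c + (algebraMap Fq C b * y 0 + ∑ j : Fin D, algebraMap Fq C (a j) * y j.succ) =
        c + ∑ j : Fin D, algebraMap Fq C (a j) * y j.succ + algebraMap Fq C b * y 0 := by ring
      rw [h2]
      ring
    · refine lt_of_le_of_lt (degree_pow_le _ _) ?_
      have h3 : (Polynomial.C (c + ∑ j : Fin D, algebraMap Fq C (a j) * y j.succ) +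
        X * Polynomial.C (y 0)).degree ≤ 1 := by
        refine (degree_add_le _ _).trans (max_le (degree_C_le.trans zero_le_one) ?_)
        refine (degree_mul_le _ _).trans ?_
        refine (add_le_add degree_X_le degree_C_le).trans ?_
        simp
      refine lt_of_le_of_lt (nsmul_le_nsmul_right h3 _) ?_
      simp only [nsmul_eq_mul, mul_one]
      exact_mod_cast Nat.sub_lt (by omega) one_pos

end

section

variable {Fq C : Type} [Field Fq] [Fintype Fq] [NontriviallyNormedField C] [IsUltrametricDist C]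
  [Algebra Fq C]

omit [Fintype Fq] [Algebra Fq C] [Field Fq] in
theorem norm_pow_sub_le (a b : C) (ha : ‖a‖ ≤ 1) (hb : ‖b‖ ≤ 1) (n : ℕ) :
    ‖a ^ n - b ^ n‖ ≤ ‖a - b‖ := by
  induction n with
  | zero => simp
  | succ n ih =>
    have h : a ^ (n + 1) - b ^ (n + 1) = a * (a ^ n - b ^ n) + (a - b) * b ^ n := by ring
    rw [h]
    refine (IsUltrametricDist.norm_add_le_max _ _).trans (max_le ?_ ?_)
    · rw [norm_mul]
      calc ‖a‖ * ‖a ^ n - b ^ n‖ ≤ 1 * ‖a - b‖ :=
            mul_le_mul ha ih (norm_nonneg _) zero_le_one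
        _ = ‖a - b‖ := one_mul _
    · rw [norm_mul, norm_pow]
      calc ‖a - b‖ * ‖b‖ ^ n ≤ ‖a - b‖ * 1 :=
            mul_le_mul_of_nonneg_left (pow_le_one₀ (norm_nonneg _) hb) (norm_nonneg _)
        _ = ‖a - b‖ := mul_one _

/-- the sums `∫ (β·w)^(q-1) dμ` at level `k` -/
noncomputable def SB (μ : (k : ℕ) → (Fin k → Fq) → C) (β : ℕ → Fq) (k : ℕ) : C :=
  ∑ w : Fin k → Fq, (∑ i : Fin k, algebraMap Fq C (β i) * algebraMap Fq C (w i)) ^
    (Fintype.card Fq - 1) * μ k w

omit [IsUltrametricDist C] in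
theorem SB_succ (μ : (k : ℕ) → (Fin k → Fq) → C)
    (hμ : ∀ (k : ℕ) (w : Fin k → Fq), μ k w = ∑ c : Fq, μ (k + 1) (Fin.snoc w c))
    (β : ℕ → Fq) (k : ℕ) (hk : β k = 0) : SB μ β (k + 1) = SB μ β k := by
  classical
  unfold SB
  rw [← (Fin.snocEquiv (fun _ : Fin (k + 1) => Fq)).sum_comp, Fintype.sum_prod_type,
    Finset.sum_comm]
  refine Finset.sum_congr rfl fun w _ => ?_
  rw [hμ k w, Finset.mul_sum]
  refine Finset.sum_congr rfl fun c _ => ?_
  congr 1
  rw [Fin.sum_univ_castSucc]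
  simp [Fin.snocEquiv, hk]

omit [IsUltrametricDist C] in
theorem SB_const (μ : (k : ℕ) → (Fin k → Fq) → C)
    (hμ : ∀ (k : ℕ) (w : Fin k → Fq), μ k w = ∑ c : Fq, μ (k + 1) (Fin.snoc w c))
    (β : ℕ → Fq) (k : ℕ) (hk : ∀ i, k ≤ i → β i = 0) (m : ℕ) : SB μ β (k + m) = SB μ β k := by
  induction m with
  | zero => rfl
  | succ m ih => rw [← add_assoc, SB_succ μ hμ β (k + m) (hk _ (Nat.le_add_right _ _)), ih]

/-- the numbers `X_j(w)` -/
noncomputable def Xj (lam : ℕ → C) {k : ℕ} (w : Fin k → Fq) (j : ℕ) : C :=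
  ∑ i : Fin k, if j ≤ i then algebraMap Fq C (w i) * lam (i - j) else 0

/-- `∫ (∑_{j<D} x_j X_j)^(q-1) dμ` -/
noncomputable def PD (lam : ℕ → C) (μ : (k : ℕ) → (Fin k → Fq) → C) (D : ℕ) (x : Fin D → C)
    (k : ℕ) : C :=
  ∑ w : Fin k → Fq, (∑ j : Fin D, x j * Xj lam w j) ^ (Fintype.card Fq - 1) * μ k w

omit [IsUltrametricDist C] in
theorem PD_interp (lam : ℕ → C) (μ : (k : ℕ) → (Fin k → Fq) → C) (D : ℕ) (x : Fin D → C)
    (k : ℕ) : PD lam μ D x k = ∑ a : Fin D → Fq, PD lam μ D (fun j => algebraMap Fq C (a j)) k *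
      ∏ j, (1 - (x j - algebraMap Fq C (a j)) ^ (Fintype.card Fq - 1)) := by
  classical
  unfold PD
  simp_rw [Finset.sum_mul]
  rw [Finset.sum_comm]
  refine Finset.sum_congr rfl fun w _ => ?_
  have h := interp_lin (Fq := Fq) D 0 x (fun j => Xj lam w j)
  simp only [zero_add] at h
  rw [h, Finset.sum_mul]
  refine Finset.sum_congr rfl fun a _ => ?_
  ring

omit [IsUltrametricDist C] in
theorem PD_poly (lam : ℕ → C) (μ : (k : ℕ) → (Fin k → Fq) → C) (D : ℕ) (a : Fin D → Fq)
    (k : ℕ) : PD lam μ D (fun j => algebraMap Fq C (a j)) k =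
      ∑ w : Fin k → Fq, (∑ i : Fin k, ∑ j ∈ Finset.range ((i : ℕ) + 1),
        algebraMap Fq C ((∑ l : Fin D, Polynomial.C (a l) * X ^ (l : ℕ)).coeff j) *
        algebraMap Fq C (w i) * lam (i - j)) ^ (Fintype.card Fq - 1) * μ k w := by
  classical
  unfold PD
  refine Finset.sum_congr rfl fun w _ => ?_
  congr 2
  unfold Xj
  simp_rw [Finset.mul_sum]
  rw [Finset.sum_comm]
  refine Finset.sum_congr rfl fun i _ => ?_
  have hc : ∀ j : ℕ, (∑ l : Fin D, Polynomial.C (a l) * X ^ (l : ℕ)).coeff j =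
      if h : j < D then a ⟨j, h⟩ else 0 := by
    intro j
    rw [finsetSum_coeff]
    simp only [coeff_C_mul, coeff_X_pow]
    split_ifs with h
    · rw [Finset.sum_eq_single ⟨j, h⟩]
      · simp
      · intro b _ hb
        rw [if_neg, mul_zero]
        intro hh; exact hb (Fin.ext hh.symm)
      · intro h; exact absurd (Finset.mem_univ _) h
    · refine Finset.sum_eq_zero fun b _ => ?_
      rw [if_neg, mul_zero]
      have := b.2; omega
  simp_rw [hc]
  rw [Finset.sum_fin_eq_sum_range]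
  have h1 : ∀ j : ℕ, (if h : j < D then algebraMap Fq C (a ⟨j, h⟩) * (if (((⟨j, h⟩ : Fin D) : ℕ)) ≤ (i : ℕ) then
      algebraMap Fq C (w i) * lam ((i : ℕ) - (((⟨j, h⟩ : Fin D) : ℕ))) else 0) else 0) =
      if j ≤ i then algebraMap Fq C (if h : j < D then a ⟨j, h⟩ else 0) *
        algebraMap Fq C (w i) * lam (i - j) else 0 := by
    intro j
    by_cases h : j < D
    · by_cases h' : j ≤ (i : ℕ)
      · simp [h, h', mul_assoc]
      · simp [h, h']
    · simp [h]
  rw [Finset.sum_congr rfl fun j _ => h1 j]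
  rw [← Finset.sum_filter]
  refine Finset.sum_subset ?_ ?_
  · intro j hj
    rw [Finset.mem_filter] at hj
    exact Finset.mem_range.2 (by omega)
  · intro j hj hj'
    rw [Finset.mem_range] at hj
    rw [Finset.mem_filter, Finset.mem_range] at hj'
    rw [dif_neg (by omega)]
    simp

theorem PD_tendsto (lam : ℕ → C) (μ : (k : ℕ) → (Fin k → Fq) → C)
    (h : ∀ g : Fq[X], Tendsto (fun k : ℕ => ∑ w : Fin k → Fq,
    (∑ i : Fin k, ∑ j ∈ Finset.range ((i : ℕ) + 1), algebraMap Fq C (g.coeff j) *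
      algebraMap Fq C (w i) * lam (i - j)) ^ (Fintype.card Fq - 1) * μ k w) atTop (𝓝 0))
    (D : ℕ) (x : Fin D → C) : Tendsto (PD lam μ D x) atTop (𝓝 0) := by
  classical
  have h1 : PD lam μ D x = fun k => ∑ a : Fin D → Fq,
      PD lam μ D (fun j => algebraMap Fq C (a j)) k *
      ∏ j, (1 - (x j - algebraMap Fq C (a j)) ^ (Fintype.card Fq - 1)) :=
    funext fun k => PD_interp lam μ D x k
  rw [h1]
  have h2 : (0 : C) = ∑ a : Fin D → Fq, 0 *
      ∏ j, (1 - (x j - algebraMap Fq C (a j)) ^ (Fintype.card Fq - 1)) := by simp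
  rw [h2]
  refine tendsto_finsetSum _ fun a _ => ?_
  refine Tendsto.mul_const _ ?_
  have h3 : PD lam μ D (fun j => algebraMap Fq C (a j)) = _ :=
    funext fun k => PD_poly lam μ D a k
  rw [h3]
  exact h _

end

section

variable {Fq C : Type} [Field Fq] [Fintype Fq] [NontriviallyNormedField C] [IsUltrametricDist C]
  [Algebra Fq C]

omit [Field Fq] [Fintype Fq] [Algebra Fq C] in
/-- power series division with decay -/
theorem exists_div (lam β : ℕ → C) (A r : ℝ) (hr : 0 ≤ r) (h0 : lam 0 ≠ 0)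
    (hl : ∀ j, ‖lam j‖ ≤ ‖lam 0‖ * r ^ j) (hβ : ∀ i, ‖β i‖ ≤ A * r ^ i) :
    ∃ α : ℕ → C, (∀ i, ∑ j ∈ Finset.range (i + 1), α j * lam (i - j) = β i) ∧
      ∀ i, ‖α i‖ * ‖lam 0‖ ≤ A * r ^ i := by
  set L : PowerSeries C := PowerSeries.mk lam with hL
  set Bs : PowerSeries C := PowerSeries.mk β with hB
  have hL0 : PowerSeries.constantCoeff L ≠ 0 := by
    rw [← PowerSeries.coeff_zero_eq_constantCoeff_apply, hL, PowerSeries.coeff_mk]
    exact h0
  have hmul : (Bs * L⁻¹) * L = Bs := by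
    rw [mul_assoc, PowerSeries.inv_mul_cancel L hL0, mul_one]
  have hrel : ∀ i, ∑ j ∈ Finset.range (i + 1), PowerSeries.coeff j (Bs * L⁻¹) * lam (i - j) =
      β i := by
    intro i
    have := congrArg (PowerSeries.coeff i) hmul
    rw [PowerSeries.coeff_mul, hB, PowerSeries.coeff_mk,
      Finset.Nat.sum_antidiagonal_eq_sum_range_succ_mk] at this
    rw [← this]
    refine Finset.sum_congr rfl fun j _ => ?_
    rw [hL, PowerSeries.coeff_mk]
  refine ⟨fun i => PowerSeries.coeff i (Bs * L⁻¹), hrel, ?_⟩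
  intro i
  induction i using Nat.strong_induction_on with
  | _ i ih =>
    have h1 := hrel i
    rw [Finset.sum_range_succ, Nat.sub_self] at h1
    have h2 : PowerSeries.coeff i (Bs * L⁻¹) * lam 0 = β i -
        ∑ j ∈ Finset.range i, PowerSeries.coeff j (Bs * L⁻¹) * lam (i - j) := by
      rw [← h1]; ring
    have hAr : 0 ≤ A * r ^ i := (norm_nonneg _).trans (hβ i)
    rw [← norm_mul, h2, sub_eq_add_neg]
    refine (IsUltrametricDist.norm_add_le_max _ _).trans (max_le (hβ i) ?_)
    rw [norm_neg]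
    refine IsUltrametricDist.norm_sum_le_of_forall_le_of_nonneg hAr fun j hj => ?_
    rw [Finset.mem_range] at hj
    rw [norm_mul]
    calc ‖PowerSeries.coeff j (Bs * L⁻¹)‖ * ‖lam (i - j)‖
        ≤ ‖PowerSeries.coeff j (Bs * L⁻¹)‖ * (‖lam 0‖ * r ^ (i - j)) :=
          mul_le_mul_of_nonneg_left (hl _) (norm_nonneg _)
      _ = (‖PowerSeries.coeff j (Bs * L⁻¹)‖ * ‖lam 0‖) * r ^ (i - j) := by ring
      _ ≤ (A * r ^ j) * r ^ (i - j) :=
          mul_le_mul_of_nonneg_right (ih j hj) (pow_nonneg hr _)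
      _ = A * r ^ i := by
          rw [mul_assoc, ← pow_add, Nat.add_sub_cancel' hj.le]

theorem norm_Xj_le (lam : ℕ → C) (M : ℝ) (hM : 0 ≤ M) (hl : ∀ j, ‖lam j‖ ≤ M)
    (hF : ∀ x : Fq, ‖algebraMap Fq C x‖ ≤ 1) {k : ℕ} (w : Fin k → Fq) (j : ℕ) :
    ‖Xj lam w j‖ ≤ M := by
  unfold Xj
  refine IsUltrametricDist.norm_sum_le_of_forall_le_of_nonneg hM fun i _ => ?_
  split_ifs
  · rw [norm_mul]
    calc ‖algebraMap Fq C (w i)‖ * ‖lam (i - j)‖ ≤ 1 * M :=
          mul_le_mul (hF _) (hl _) (norm_nonneg _) zero_le_one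
      _ = M := one_mul _
  · simpa using hM

omit [Fintype Fq] [IsUltrametricDist C] in
/-- `∑_j α_j X_j = ∑ β_i w_i` -/
theorem sum_Xj (lam α : ℕ → C) (β : ℕ → Fq) 
    (h : ∀ i, ∑ j ∈ Finset.range (i + 1), α j * lam (i - j) = algebraMap Fq C (β i)) {k : ℕ}
    (w : Fin k → Fq) (N : ℕ) (hN : k ≤ N) :
    ∑ j ∈ Finset.range N, α j * Xj lam w j =
      ∑ i : Fin k, algebraMap Fq C (β i) * algebraMap Fq C (w i) := by
  unfold Xj
  simp_rw [Finset.mul_sum]
  rw [Finset.sum_comm]
  refine Finset.sum_congr rfl fun i _ => ?_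
  rw [← h i, Finset.sum_mul]
  symm
  refine (Finset.sum_congr rfl fun j hj => ?_).trans (Finset.sum_subset (s₁ := Finset.range (i + 1))
    ?_ ?_)
  · rw [Finset.mem_range] at hj
    rw [if_pos (by omega)]
    ring
  · intro j hj
    rw [Finset.mem_range] at hj ⊢
    have := i.2
    omega
  · intro j _ hj
    rw [Finset.mem_range] at hj
    rw [if_neg (by omega), mul_zero]

end

theorem t_INV : S_INV := by
  intro Fq C _ _ _ _ _ _ lam r hr0 hr1 h0 hl hF μ hμ hB hlim k β
  classical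
  obtain ⟨B, hB⟩ := hB
  -- replace r by a positive number
  wlog hr : 0 < r generalizing r
  · refine this (1 / 2) (by norm_num) (by norm_num) (fun j => (hl j).trans ?_) (by norm_num)
    have : r = 0 := le_antisymm (not_lt.1 hr) hr0
    subst this
    exact mul_le_mul_of_nonneg_left (pow_le_pow_left₀ le_rfl (by norm_num) _) (norm_nonneg _)
  set b : ℕ → Fq := fun i => if h : i < k then β ⟨i, h⟩ else 0 with hb
  have hbk : ∀ i, k ≤ i → b i = 0 := fun i hi => by simp [hb, not_lt.2 hi]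
  have hgoal : ∑ w : Fin k → Fq, (algebraMap Fq C (∑ i, β i * w i)) ^ (Fintype.card Fq - 1) *
      μ k w = SB μ b k := by
    unfold SB
    refine Finset.sum_congr rfl fun w _ => ?_
    congr 2
    rw [map_sum]
    refine Finset.sum_congr rfl fun i _ => ?_
    simp [hb]
  rw [hgoal]
  set A : ℝ := (r ^ k)⁻¹ with hA
  have hApos : 0 < A := inv_pos.2 (pow_pos hr _)
  have hbA : ∀ i, ‖algebraMap Fq C (b i)‖ ≤ A * r ^ i := by
    intro i
    by_cases hi : i < k
    · refine (hF _).trans ?_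
      rw [hA, ← div_eq_inv_mul, one_le_div (pow_pos hr _)]
      exact pow_le_pow_of_le_one hr.le hr1.le hi.le
    · rw [hbk i (not_lt.1 hi), map_zero, norm_zero]
      positivity
  obtain ⟨α, hα, hαn⟩ := exists_div lam (fun i => algebraMap Fq C (b i)) A r hr.le h0 hl hbA
  have hB0 : 0 ≤ B := (norm_nonneg _).trans (hB 0 default)
  have hl0 : ∀ j, ‖lam j‖ ≤ ‖lam 0‖ := fun j => (hl j).trans
    (mul_le_of_le_one_right (norm_nonneg _) (pow_le_one₀ hr.le hr1.le))
  -- the main estimate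
  have key : ∀ D : ℕ, A * r ^ D ≤ 1 → ∀ m : ℕ,
      ‖SB μ b m - PD lam μ D (fun j => α j) m‖ ≤ A * r ^ D * B := by
    intro D hD m
    unfold SB PD
    rw [← Finset.sum_sub_distrib]
    refine IsUltrametricDist.norm_sum_le_of_forall_le_of_nonneg (by positivity) fun w _ => ?_
    rw [← sub_mul, norm_mul]
    refine mul_le_mul ?_ (hB m w) (norm_nonneg _) (by positivity)
    have e1 : ∑ j : Fin D, α j * Xj lam w j = ∑ j ∈ Finset.range D, α j * Xj lam w j :=
      (Finset.sum_range (fun j => α j * Xj lam w j)).symm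
    have e2 := sum_Xj lam α b hα w (D + m) (Nat.le_add_left _ _)
    have e3 : ∑ i : Fin m, algebraMap Fq C (b i) * algebraMap Fq C (w i) -
        ∑ j : Fin D, α j * Xj lam w j = ∑ j ∈ Finset.range m, α (D + j) * Xj lam w (D + j) := by
      rw [e1, ← e2, Finset.sum_range_add_sub_sum_range]
    have n1 : ‖∑ i : Fin m, algebraMap Fq C (b i) * algebraMap Fq C (w i)‖ ≤ 1 := by
      refine IsUltrametricDist.norm_sum_le_of_forall_le_of_nonneg zero_le_one fun i _ => ?_
      rw [norm_mul]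
      exact mul_le_one₀ (hF _) (norm_nonneg _) (hF _)
    have n2 : ‖∑ i : Fin m, algebraMap Fq C (b i) * algebraMap Fq C (w i) -
        ∑ j : Fin D, α j * Xj lam w j‖ ≤ A * r ^ D := by
      rw [e3]
      refine IsUltrametricDist.norm_sum_le_of_forall_le_of_nonneg (by positivity) fun j _ => ?_
      rw [norm_mul]
      refine (mul_le_mul_of_nonneg_left (norm_Xj_le lam _ (norm_nonneg _) hl0 hF w _)
        (norm_nonneg _)).trans ((hαn _).trans ?_)
      refine mul_le_mul_of_nonneg_left ?_ hApos.le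
      exact pow_le_pow_of_le_one hr.le hr1.le (Nat.le_add_right _ _)
    have n3 : ‖∑ j : Fin D, α j * Xj lam w j‖ ≤ 1 := by
      have : ∑ j : Fin D, α j * Xj lam w j = ∑ i : Fin m, algebraMap Fq C (b i) *
        algebraMap Fq C (w i) + -(∑ i : Fin m, algebraMap Fq C (b i) * algebraMap Fq C (w i) -
        ∑ j : Fin D, α j * Xj lam w j) := by ring
      rw [this]
      refine (IsUltrametricDist.norm_add_le_max _ _).trans (max_le n1 ?_)
      rw [norm_neg]
      exact n2.trans hD
    exact (norm_pow_sub_le _ _ n1 n3 _).trans n2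
  have hsmall : ∀ ε : ℝ, 0 < ε → ‖SB μ b k‖ ≤ ε := by
    intro ε hε
    have ht : Tendsto (fun D : ℕ => A * r ^ D * (B + 1)) atTop (𝓝 (A * 0 * (B + 1))) :=
      ((tendsto_pow_atTop_nhds_zero_of_lt_one hr.le hr1).const_mul A).mul_const _
    rw [mul_zero, zero_mul] at ht
    have hev := ht.eventually (gt_mem_nhds (lt_min hε one_pos))
    obtain ⟨D, hD⟩ := hev.exists
    have hD1 : A * r ^ D * (B + 1) < ε := lt_of_lt_of_le hD (min_le_left _ _)
    have hD2 : A * r ^ D * (B + 1) < 1 := lt_of_lt_of_le hD (min_le_right _ _)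
    have hAD : 0 ≤ A * r ^ D := by positivity
    have hD3 : A * r ^ D ≤ 1 := by nlinarith
    have hD4 : A * r ^ D * B ≤ ε := by nlinarith
    have hP := PD_tendsto lam μ hlim D (fun j => α j)
    have hP2 := (hP.norm).eventually (gt_mem_nhds (show ‖(0 : C)‖ < ε by simpa using hε))
    obtain ⟨m, hm, hkm⟩ := (hP2.and (eventually_ge_atTop k)).exists
    obtain ⟨m', rfl⟩ := Nat.exists_eq_add_of_le hkm
    have := key D hD3 (k + m')
    rw [SB_const μ hμ b k hbk m'] at this
    have hfin : SB μ b k = (SB μ b k - PD lam μ D (fun j => α j) (k + m')) +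
        PD lam μ D (fun j => α j) (k + m') := by ring
    rw [hfin]
    exact (IsUltrametricDist.norm_add_le_max _ _).trans (max_le (this.trans hD4) hm.le)
  have : ‖SB μ b k‖ ≤ 0 := le_of_forall_pos_le_add fun ε hε => by simpa using hsmall ε hε
  exact norm_le_zero_iff.1 this

end Pool.Agent.J4H98.HP
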