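import Pool.Agent.J4H98.HP.DDefs

/-!
# Definitions: the space of doubly cuspidal Drinfeld modular forms, its Hecke algebra
-/

open Polynomial Matrix

namespace Pool.Agent.J4H98.HP

open Pool.Agent.TH828.DM (Omega OmegaN IsRigidAnalytic expA)
open Pool.Agent.N814.DR (slash SmallAtInfinity)

variable {Fq : Type} [Field Fq] {C : Type} [NontriviallyNormedField C] [Algebra Fq C]

theorem HasExp.add {t ϖ : C} {f g : C → C} {a b : ℕ → C} (hf : HasExp Fq t ϖ f a)
    (hg : HasExp Fq t ϖ g b) : HasExp Fq t ϖ (f + g) (a + b) := by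
  obtain ⟨R, hR⟩ := hf
  obtain ⟨S, hS⟩ := hg
  refine ⟨max R S, fun z hz hfar => ?_⟩
  have h1 := (hR z hz fun x hx => (le_max_left R S).trans (hfar x hx)).add
    (hS z hz fun x hx => (le_max_right R S).trans (hfar x hx))
  simpa only [Pi.add_apply, add_mul] using h1

theorem HasExp.smul {t ϖ : C} (c : C) {f : C → C} {a : ℕ → C} (hf : HasExp Fq t ϖ f a) :
    HasExp Fq t ϖ (c • f) (c • a) := by
  obtain ⟨R, hR⟩ := hf
  refine ⟨R, fun z hz hfar => ?_⟩
  simpa only [Pi.smul_apply, smul_eq_mul, mul_assoc] using (hR z hz hfar).mul_left c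

theorem HasExp.zero (t ϖ : C) : HasExp Fq t ϖ 0 0 :=
  ⟨0, fun z _ _ => by simp⟩

theorem DC.add {t ϖ : C} {f g : C → C} (hf : DC Fq t ϖ f) (hg : DC Fq t ϖ g) :
    DC Fq t ϖ (f + g) := by
  obtain ⟨a, ha, h0, h1⟩ := hf
  obtain ⟨b, hb, h0', h1'⟩ := hg
  exact ⟨a + b, ha.add hb, by simp [h0, h0'], by simp [h1, h1']⟩

theorem DC.smul {t ϖ : C} (c : C) {f : C → C} (hf : DC Fq t ϖ f) : DC Fq t ϖ (c • f) := by
  obtain ⟨a, ha, h0, h1⟩ := hf
  exact ⟨c • a, ha.smul c, by simp [h0], by simp [h1]⟩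

theorem DC.zero (t ϖ : C) : DC Fq t ϖ (0 : C → C) :=
  ⟨0, HasExp.zero t ϖ, rfl, rfl⟩

theorem IsMM.add' {t ϖ : C} {n : Fq[X]} {f g : C → C} (hf : IsMM t ϖ n f)
    (hg : IsMM t ϖ n g) : IsMM t ϖ n (f + g) where
  supp z hz := by rw [Pi.add_apply, hf.supp z hz, hg.supp z hz, add_zero]
  rigid := Pool.Agent.N814.DR.IsRigidAnalytic.add' hf.rigid hg.rigid
  inv γ h h' := by rw [map_add, hf.inv γ h h', hg.inv γ h h']
  inf := hf.inf.add hg.inf
  zero := by rw [map_add]; exact hf.zero.add hg.zero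

theorem IsMM.smul' {t ϖ : C} {n : Fq[X]} (c : C) {f : C → C} (hf : IsMM t ϖ n f) :
    IsMM t ϖ n (c • f) where
  supp z hz := by rw [Pi.smul_apply, hf.supp z hz, smul_zero]
  rigid := Pool.Agent.N814.DR.IsRigidAnalytic.smul' c hf.rigid
  inv γ h h' := by rw [map_smul, hf.inv γ h h']
  inf := hf.inf.smul c
  zero := by rw [map_smul]; exact hf.zero.smul c

theorem IsMM.zero' (t ϖ : C) (n : Fq[X]) : IsMM t ϖ n (0 : C → C) where
  supp z hz := rfl
  rigid := Pool.Agent.N814.DR.IsRigidAnalytic.zero'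
  inv γ h h' := map_zero _
  inf := DC.zero t ϖ
  zero := by rw [map_zero]; exact DC.zero t ϖ

/-- the doubly cuspidal forms of weight `2` and type `1` for `Γ₀(n)`, as a space of functions -/
def mm0 (t ϖ : C) (n : Fq[X]) : Submodule C (C → C) where
  carrier := {f | IsMM t ϖ n f}
  add_mem' := IsMM.add'
  zero_mem' := IsMM.zero' t ϖ n
  smul_mem' := fun c _ => IsMM.smul' c

/-- the space `M` of doubly cuspidal forms of weight `2` and type `1` for `Γ₀(n)`, `n` prime -/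
def MM (t ϖ : C) (n : Fq[X]) : Type := mm0 t ϖ n

noncomputable instance (t ϖ : C) (n : Fq[X]) : AddCommGroup (MM t ϖ n) :=
  Submodule.addCommGroup (mm0 t ϖ n)

noncomputable instance (t ϖ : C) (n : Fq[X]) : Module C (MM t ϖ n) :=
  Submodule.module (mm0 t ϖ n)

/-- the underlying function -/
def MM.fn {t ϖ : C} {n : Fq[X]} (f : MM t ϖ n) : C → C := Subtype.val (p := (· ∈ mm0 t ϖ n)) f

/-- the algebra of `C`-linear endomorphisms of `M` -/
abbrev EndMM (t ϖ : C) (n : Fq[X]) : Type := Module.End C (MM t ϖ n)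

/-- the Hecke algebra `𝕋(n, C) ⊂ End(M)`, generated by all `T_m` -/
noncomputable def heckeAlg (t ϖ : C) (n : Fq[X]) : Subalgebra C (EndMM t ϖ n) :=
  Algebra.adjoin C {θ | ∃ m : Fq[X], m.Monic ∧ ∀ f : MM t ϖ n, (θ f).fn = heckeM t n m f.fn}

/-- the Hecke algebra as a type -/
noncomputable def HeckeC (t ϖ : C) (n : Fq[X]) : Type := heckeAlg t ϖ n

noncomputable instance (t ϖ : C) (n : Fq[X]) : AddCommGroup (HeckeC t ϖ n) :=
  (Subalgebra.toRing (heckeAlg t ϖ n)).toAddCommGroup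

noncomputable instance (t ϖ : C) (n : Fq[X]) : Module C (HeckeC t ϖ n) :=
  Subalgebra.instModuleSubtypeMem (heckeAlg t ϖ n)

/-- the endomorphism of `M` -/
noncomputable def HeckeC.op {t ϖ : C} {n : Fq[X]} (θ : HeckeC t ϖ n) : EndMM t ϖ n :=
  Subtype.val (p := (· ∈ heckeAlg t ϖ n)) θ

/-- the inclusion of the Hecke algebra into the endomorphisms -/
noncomputable def opC (t ϖ : C) (n : Fq[X]) : HeckeC t ϖ n →ₗ[C] EndMM t ϖ n where
  toFun := HeckeC.op
  map_add' _ _ := rfl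
  map_smul' _ _ := rfl

/-- the pairing `(θ, f) ↦ b (θ f)` for a linear form `b` on `M` -/
noncomputable def pairC {t ϖ : C} {n : Fq[X]} (b : MM t ϖ n →ₗ[C] C) :
    HeckeC t ϖ n →ₗ[C] MM t ϖ n →ₗ[C] C := LinearMap.compRight C b ∘ₗ opC t ϖ n

theorem pairC_apply {t ϖ : C} {n : Fq[X]} (b : MM t ϖ n →ₗ[C] C) (θ : HeckeC t ϖ n)
    (f : MM t ϖ n) : pairC b θ f = b (θ.op f) := rfl

/-- `b f` is the `q`-th coefficient of the expansion of `f` at infinity, that is the first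
coefficient `b_1` of a doubly cuspidal form -/
def IsB1 [Fintype Fq] {t ϖ : C} {n : Fq[X]} (b : MM t ϖ n →ₗ[C] C) : Prop :=
  ∀ f a, HasExp Fq t ϖ f.fn a → b f = a (Fintype.card Fq)

/-- `M` is finite-dimensional, all `T_m` are defined, they commute, and the pairing
`φ_DMF(θ, f) = b_1(θ f)` is perfect -/
def DMFPerfect (Fq : Type) [Field Fq] [Fintype Fq] {C : Type} [NontriviallyNormedField C]
    [Algebra Fq C] (t ϖ : C) (n : Fq[X]) : Prop :=
  Module.Finite C (MM t ϖ n) ∧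
  (∀ m : Fq[X], m.Monic → ∃ θ : HeckeC t ϖ n, ∀ f : MM t ϖ n, (θ.op f).fn = heckeM t n m f.fn) ∧
  (∀ x y : HeckeC t ϖ n, x.op * y.op = y.op * x.op) ∧
  ∃ b : MM t ϖ n →ₗ[C] C, IsB1 b ∧ (pairC b).IsPerfPair

end Pool.Agent.J4H98.HP
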