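import Pool.Agent.J4H98.HP.Asm
import Pool.Agent.J4H98.HP.HM
import Pool.Agent.J4H98.HP.MM
import Pool.Agent.J4H98.HP.Inv
import Pool.Agent.J4H97.HP.Mmh
import Pool.Agent.J4H69.HP.K7
import Pool.Agent.J4H69.HP.K9
import Pool.Agent.J4H69.HP.K11
import Pool.Agent.J4H69.HP.K14
import Pool.Agent.J4H4.HP.Ue
import Pool.Agent.J4H4.HP.Van
import Pool.Agent.J4H8.HP.Core1c
import Pool.Agent.J4H84.HP.Uniq

/-!
# Assembly, part 2: a form whose Hecke translates have vanishing first coefficient is zero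
-/

open Polynomial Matrix Filter Topology

namespace Pool.Agent.J4H98.HP

open Pool.Agent.TH828.DM (Omega OmegaN IsRigidAnalytic expA res HasRes)
open Pool.Agent.N814.DR (slash SmallAtInfinity)

section

variable {Fq C : Type} [Field Fq] [Fintype Fq] [NontriviallyNormedField C]
  [IsUltrametricDist C] [CompleteSpace C] [IsAlgClosed C] [Algebra Fq C] {t s ϖ : C}
  {ι : Kinf Fq →+* C} {n : Fq[X]}

theorem q_sub (Fq : Type) [Field Fq] [Fintype Fq] :
    Fintype.card Fq - 1 + 1 = Fintype.card Fq ∧ Fintype.card Fq - 1 ≠ 0 := by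
  have : 1 < Fintype.card Fq := Fintype.one_lt_card
  omega

omit [CompleteSpace C] [IsAlgClosed C] in
theorem per_W (hS : Sta t s ι) (hn : n.Monic) (f : C → C)
    (hf : ∀ γ : Matrix (Fin 2) (Fin 2) Fq[X], IsUnit γ.det → n ∣ γ 1 0 →
      slash Fq t 2 1 γ f = f) : Per Fq t (slash Fq t 2 1 !![0, 1; n, 0] f) := by
  intro a z hz
  have hWd : (!![0, 1; n, 0] : Matrix (Fin 2) (Fin 2) Fq[X]).det ≠ 0 := by
    rw [J4H97.HP.det_W]; simpa using hn.ne_zero
  have hd0 : (!![1, a; 0, 1] : Matrix (Fin 2) (Fin 2) Fq[X]).det = 1 := by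
    rw [Matrix.det_fin_two_of]; ring
  have hd1 : (!![1, a; 0, 1] : Matrix (Fin 2) (Fin 2) Fq[X]).det ≠ 0 := by
    rw [hd0]; exact one_ne_zero
  have hd2 : (!![1, 0; n * a, 1] : Matrix (Fin 2) (Fin 2) Fq[X]).det = 1 := by
    rw [Matrix.det_fin_two_of]; ring
  have e1 : (!![0, 1; n, 0] : Matrix (Fin 2) (Fin 2) Fq[X]) * !![1, a; 0, 1] =
      !![1, 0; n * a, 1] * !![0, 1; n, 0] := by
    rw [Matrix.mul_fin_two, Matrix.mul_fin_two]
    simp
  have e2 : slash Fq t 2 1 !![1, a; 0, 1] (slash Fq t 2 1 !![0, 1; n, 0] f) =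
      slash Fq t 2 1 !![0, 1; n, 0] f := by
    rw [Pool.Agent.N814.DR.slash_mul hS.ht _ hd1, e1, ← Pool.Agent.N814.DR.slash_mul hS.ht _ hWd,
      hf _ (by rw [hd2]; exact isUnit_one) ⟨a, rfl⟩]
  have h := congrFun e2 z
  rw [Pool.Agent.N814.DR.slash_of_mem _ _ hz, hd0] at h
  simpa [Pool.Agent.N814.DR.jf, Pool.Agent.N814.DR.mob] using h

theorem mm_facts (h5 : S_EXPA) (hS : Sta t s ι) (hϖ : ϖ ≠ 0) (hn : n.Monic)
    (h4 : n.natDegree = 4) {f : C → C} (hf : IsMM t ϖ n f) :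
    Per Fq t f ∧ SmallAtInfinity Fq t f ∧
    SmallAtInfinity Fq t (slash Fq t 2 1 !![0, 1; n, 0] f) ∧
    HasRes (Fintype.card Fq) f 0 s⁻¹ 0 ∧ Fam n (fun δ k u => rc t s ι f (edge δ k u)) := by
  have hUE := J4H4.HP.t_UE h5
  have hUN := J4H84.HP.t_UNIQ h5
  have hWd : (!![0, 1; n, 0] : Matrix (Fin 2) (Fin 2) Fq[X]).det ≠ 0 := by
    rw [J4H97.HP.det_W]; simpa using hn.ne_zero
  have per := J4H97.HP.per_of_inv hf.inv
  obtain ⟨sm, r0⟩ := J4H97.HP.res_of_DC hUE hUN hS hϖ hf.rigid per hf.inf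
  have rigW : IsRigidAnalytic Fq t (slash Fq t 2 1 !![0, 1; n, 0] f) :=
    Pool.Agent.N814.DR.rigid_slash hS.ht hWd hf.rigid
  obtain ⟨smW, r0W⟩ := J4H97.HP.res_of_DC hUE hUN hS hϖ rigW (per_W hS hn f hf.inv) hf.zero
  have fam0 := J4H97.HP.rc_fam0 hS hf.rigid hf.inv
  have c1 : rc t s ι f (edge 1 1 0) = 0 :=
    HasRes.unique (J4H97.HP.hasRes_inf hS hf.supp hf.rigid) r0
  have c2 : rc t s ι f (edge !![0, 1; 1, 0] (-3) 0) = 0 := by
    rw [← J4H97.HP.rc_W hS hn h4 hf.rigid]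
    exact HasRes.unique (J4H97.HP.hasRes_slash hS hf.rigid hWd) r0W
  exact ⟨per, sm, smW, r0, { fam0 with cuspInf := c1, cuspZero := c2 }⟩

/-- from the vanishing of the first coefficient of `T_g f` to a residue of `f` -/
theorem res_g (h5 : S_EXPA) (hS : Sta t s ι) (hϖ : ϖ ≠ 0) (hn : n.Monic)
    (hirr : Irreducible n) (h4 : n.natDegree = 4) {f : C → C} (hf : IsMM t ϖ n f)
    {g : Fq[X]} (hg : g.Monic)
    (hb : ∀ a, HasExp Fq t ϖ (heckeM t n g f) a → a (Fintype.card Fq) = 0) :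
    HasRes (Fintype.card Fq) (fun z => f z *
      expA Fq t (aeval t g * z) ^ (Fintype.card Fq - 1)) 0 s⁻¹ 0 := by
  have hUE := J4H4.HP.t_UE h5
  have hUN := J4H84.HP.t_UNIQ h5
  obtain ⟨per, sm, smW, r0, fam⟩ := mm_facts h5 hS hϖ hn h4 hf
  have hT := J4H97.HP.t_MMH hUE J4H69.HP.t_CUSPC hUN Fq C t s ϖ ι hS hϖ n g hn hirr h4 hg f hf
  obtain ⟨per', sm', -, -, -⟩ := mm_facts h5 hS hϖ hn h4 hT
  obtain ⟨c, hc0, hc1, hc2, -⟩ := hUE Fq C t s ι hS _ hT.rigid per' sm'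
  have hE : HasExp Fq t ϖ (heckeM t n g f) (fun i => c i * ϖ ^ i) := by
    refine ⟨1, fun z hz hfar => ?_⟩
    convert hc2 z hz hfar using 2 with i
    rw [mul_inv, mul_pow, inv_pow]
    have := pow_ne_zero i hϖ
    field_simp
  have hq := q_sub Fq
  have hcq : c (Fintype.card Fq) = 0 := by
    have := hb _ hE
    exact (mul_eq_zero.1 this).resolve_right (pow_ne_zero _ hϖ)
  have h1 := hc1 (Fintype.card Fq - 1)
  rw [hq.1, hcq] at h1
  obtain ⟨v, hv1, hv2⟩ := J4H69.HP.t_HB h5 Fq C t s ι hS n g hn hg f hf.rigid per r0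
  have : v = 0 := HasRes.unique hv1 h1
  rwa [this] at hv2

theorem res_all (h5 : S_EXPA) (hS : Sta t s ι) {f : C → C}
    (h : ∀ g : Fq[X], g.Monic → HasRes (Fintype.card Fq) (fun z => f z *
      expA Fq t (aeval t g * z) ^ (Fintype.card Fq - 1)) 0 s⁻¹ 0) (g : Fq[X]) :
    HasRes (Fintype.card Fq) (fun z => f z *
      expA Fq t (aeval t g * z) ^ (Fintype.card Fq - 1)) 0 s⁻¹ 0 := by
  obtain ⟨-, hsm, h0, -⟩ := h5 Fq C t hS.ht
  have hq := q_sub Fq
  by_cases hg : g = 0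
  · subst hg
    have h1 := (h 1 monic_one).const_mul 0
    rw [mul_zero] at h1
    have e : (fun z => f z * expA Fq t (aeval t (0 : Fq[X]) * z) ^ (Fintype.card Fq - 1)) =
        fun z => 0 * (f z * expA Fq t (aeval t (1 : Fq[X]) * z) ^ (Fintype.card Fq - 1)) := by
      funext z
      have h2 := h0 0
      rw [map_zero] at h2
      rw [map_zero, zero_mul, h2, zero_pow hq.2, mul_zero, zero_mul]
    rw [e]
    exact h1
  · have hl : g.leadingCoeff ≠ 0 := leadingCoeff_ne_zero.2 hg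
    set g' : Fq[X] := Polynomial.C (g.leadingCoeff)⁻¹ * g with hg'
    have hm : g'.Monic := by
      rw [hg', Monic, leadingCoeff_mul, leadingCoeff_C, inv_mul_cancel₀ hl]
    have hgg : g = Polynomial.C g.leadingCoeff * g' := by
      rw [hg', ← mul_assoc, ← Polynomial.C_mul, mul_inv_cancel₀ hl, Polynomial.C_1, one_mul]
    have e : (fun z => f z * expA Fq t (aeval t g * z) ^ (Fintype.card Fq - 1)) =
        (fun z => f z * expA Fq t (aeval t g' * z) ^ (Fintype.card Fq - 1)) := by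
      funext z
      conv_lhs => rw [hgg]
      rw [map_mul, aeval_C, mul_assoc, hsm, mul_pow, ← map_pow,
        FiniteField.pow_card_sub_one_eq_one _ hl, map_one, one_mul]
    rw [e]
    exact h g' hm

/-- the numbers `e_A(t^(-j-1))` -/
noncomputable def lamE (Fq : Type) [Field Fq] {C : Type} [NontriviallyNormedField C]
    [Algebra Fq C] (t : C) (j : ℕ) : C := expA Fq t ((t ^ (j + 1))⁻¹)

theorem iota_C (hS : Sta t s ι) (c : Fq) : ι (HahnSeries.C c) = algebraMap Fq C c := by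
  have h := hS.emb (Polynomial.C c)
  rw [aeval_C] at h
  rw [← h]
  congr 1
  simp [emb]

theorem iota_uu (hS : Sta t s ι) {k : ℕ} (w : Fin k → Fq) :
    ι (uu w) = ∑ i : Fin k, algebraMap Fq C (w i) * (t ^ ((i : ℕ) + 1))⁻¹ := by
  unfold uu
  rw [map_sum]
  refine Finset.sum_congr rfl fun i _ => ?_
  have h1 : (HahnSeries.single (((i : ℕ) : ℤ) + 1) (w i) : Kinf Fq) =
      HahnSeries.C (w i) * HahnSeries.single (((i : ℕ) : ℤ) + 1) (1 : Fq) := by
    rw [HahnSeries.C_apply, HahnSeries.single_mul_single, zero_add, mul_one]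
  rw [h1, map_mul, iota_C hS, J4H97.HP.iota_single hS]
  congr 1
  rw [_root_.zpow_neg]
  norm_cast

theorem expA_uu (h5 : S_EXPA) (hS : Sta t s ι) (g : Fq[X]) {k : ℕ} (w : Fin k → Fq) :
    expA Fq t (aeval t g * ι (uu w)) = ∑ i : Fin k, ∑ j ∈ Finset.range ((i : ℕ) + 1),
      algebraMap Fq C (g.coeff j) * algebraMap Fq C (w i) * lamE Fq t (i - j) := by
  obtain ⟨hadd, hsm, h0, -⟩ := h5 Fq C t hS.ht
  have ht0 : t ≠ 0 := norm_pos_iff.1 (by linarith [hS.ht])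
  set E : C →+ C := AddMonoidHom.mk' (fun z => expA Fq t z) hadd with hE
  have hEa : ∀ z, E z = expA Fq t z := fun z => rfl
  have hN : g.natDegree < g.natDegree + 1 + k := by omega
  rw [iota_uu hS, aeval_eq_sum_range' hN, Finset.mul_sum, ← hEa, map_sum]
  refine Finset.sum_congr rfl fun i _ => ?_
  rw [Finset.sum_mul, map_sum]
  have hterm : ∀ j ∈ Finset.range (g.natDegree + 1 + k), E (g.coeff j • t ^ j *
      (algebraMap Fq C (w i) * (t ^ ((i : ℕ) + 1))⁻¹)) = if j < (i : ℕ) + 1 then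
      algebraMap Fq C (g.coeff j) * algebraMap Fq C (w i) * lamE Fq t (i - j) else 0 := by
    intro j _
    have e1 : g.coeff j • t ^ j * (algebraMap Fq C (w i) * (t ^ ((i : ℕ) + 1))⁻¹) =
        algebraMap Fq C (g.coeff j) * (algebraMap Fq C (w i) *
          (t ^ j * (t ^ ((i : ℕ) + 1))⁻¹)) := by
      rw [Algebra.smul_def]; ring
    rw [e1, hEa, hsm, hsm]
    split_ifs with hj
    · have e2 : t ^ j * (t ^ ((i : ℕ) + 1))⁻¹ = (t ^ ((i : ℕ) - j + 1))⁻¹ := by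
        have : (i : ℕ) + 1 = ((i : ℕ) - j + 1) + j := by omega
        rw [this, pow_add, mul_inv, ← mul_assoc, mul_comm (t ^ j), mul_assoc,
          mul_comm (t ^ j), inv_mul_cancel₀ (pow_ne_zero _ ht0), mul_one]
      rw [e2]
      unfold lamE
      ring
    · have e2 : t ^ j * (t ^ ((i : ℕ) + 1))⁻¹ = aeval t (X ^ (j - ((i : ℕ) + 1)) : Fq[X]) := by
        rw [map_pow, aeval_X]
        have : j = (j - ((i : ℕ) + 1)) + ((i : ℕ) + 1) := by omega
        conv_lhs => rw [this, pow_add, mul_assoc, mul_inv_cancel₀ (pow_ne_zero _ ht0), mul_one]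
      rw [e2, h0, mul_zero, mul_zero]
  rw [Finset.sum_congr rfl hterm, ← Finset.sum_filter]
  refine Finset.sum_congr ?_ fun _ _ => rfl
  ext j
  rw [Finset.mem_filter, Finset.mem_range, Finset.mem_range]
  have := i.2
  constructor
  · exact fun h => h.2
  · exact fun h => ⟨by omega, h⟩

end

section

variable {Fq C : Type} [Field Fq] [Fintype Fq] [NontriviallyNormedField C]
  [IsUltrametricDist C] [CompleteSpace C] [IsAlgClosed C] [Algebra Fq C] {t s ϖ : C}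
  {ι : Kinf Fq →+* C} {n : Fq[X]}

omit [CompleteSpace C] [IsAlgClosed C] [Algebra Fq C] in
theorem norm_pow_sub_le' {M : ℝ} (hM : 0 < M) (a b : C) (ha : ‖a‖ ≤ M) (hb : ‖b‖ ≤ M) (m : ℕ) :
    ‖a ^ m - b ^ m‖ * M ≤ ‖a - b‖ * M ^ m := by
  induction m with
  | zero => simp
  | succ m ih =>
    have h : a ^ (m + 1) - b ^ (m + 1) = a * (a ^ m - b ^ m) + (a - b) * b ^ m := by ring
    rw [h]
    have h1 : ‖a * (a ^ m - b ^ m) + (a - b) * b ^ m‖ ≤
        max (‖a * (a ^ m - b ^ m)‖) (‖(a - b) * b ^ m‖) := IsUltrametricDist.norm_add_le_max _ _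
    refine (mul_le_mul_of_nonneg_right h1 hM.le).trans ?_
    rw [max_mul_of_nonneg _ _ hM.le]
    refine max_le ?_ ?_
    · rw [norm_mul, pow_succ]
      calc ‖a‖ * ‖a ^ m - b ^ m‖ * M ≤ M * ‖a ^ m - b ^ m‖ * M := by gcongr
        _ = M * (‖a ^ m - b ^ m‖ * M) := by ring
        _ ≤ M * (‖a - b‖ * M ^ m) := by gcongr
        _ = ‖a - b‖ * (M ^ m * M) := by ring
    · rw [norm_mul, norm_pow, pow_succ]
      calc ‖a - b‖ * ‖b‖ ^ m * M ≤ ‖a - b‖ * M ^ m * M := by gcongr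
        _ = ‖a - b‖ * (M ^ m * M) := by ring

/-- the weight `e_A(g z)^(q-1)` -/
theorem weight_ok (h5 : S_EXPA) (ht : 1 < ‖t‖) (g : Fq[X]) (R : ℝ) (m : ℕ) :
    (∃ L : ℝ, ∀ z z' : C, ‖z‖ ≤ R → ‖z'‖ ≤ R →
      ‖expA Fq t (aeval t g * z) ^ m - expA Fq t (aeval t g * z') ^ m‖ ≤ L * ‖z - z'‖) ∧
    (∀ ε : ℝ, 0 < ε → ∃ P : C[X], ∀ z : C, ‖z‖ ≤ R →
      ‖expA Fq t (aeval t g * z) ^ m - P.eval z‖ ≤ ε) := by
  obtain ⟨-, -, h0, -, -, -, hP, hL, -⟩ := h5 Fq C t ht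
  set G : C := aeval t g with hG
  have hR' : ∀ z : C, ‖z‖ ≤ R → ‖G * z‖ ≤ ‖G‖ * |R| := fun z hz => by
    rw [norm_mul]
    exact mul_le_mul_of_nonneg_left (hz.trans (le_abs_self R)) (norm_nonneg _)
  obtain ⟨L, hL⟩ := hL (‖G‖ * |R|)
  have hE0 : expA Fq t (0 : C) = 0 := by
    have := h0 0
    rwa [map_zero] at this
  set M : ℝ := |L| * (‖G‖ * |R|) + 1 with hM
  have hM1 : 1 ≤ M := by rw [hM]; have := abs_nonneg L; have := abs_nonneg R; nlinarith [norm_nonneg G, mul_nonneg (abs_nonneg L) (mul_nonneg (norm_nonneg G) (abs_nonneg R))]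
  have hM0 : 0 < M := by linarith
  have hEM : ∀ z : C, ‖z‖ ≤ R → ‖expA Fq t (G * z)‖ ≤ M := by
    intro z hz
    have h1 := hL (G * z) 0 (hR' z hz) (by rw [norm_zero]; positivity)
    rw [hE0, sub_zero, sub_zero] at h1
    have h2 : L * ‖G * z‖ ≤ |L| * (‖G‖ * |R|) :=
      mul_le_mul (le_abs_self L) (hR' z hz) (norm_nonneg _) (abs_nonneg L)
    linarith
  refine ⟨⟨|L| * ‖G‖ * M ^ m, fun z z' hz hz' => ?_⟩, fun ε hε => ?_⟩
  · have h1 := norm_pow_sub_le' hM0 _ _ (hEM z hz) (hEM z' hz') m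
    have h2 := hL (G * z) (G * z') (hR' z hz) (hR' z' hz')
    have h3 : ‖G * z - G * z'‖ = ‖G‖ * ‖z - z'‖ := by rw [← mul_sub, norm_mul]
    rw [h3] at h2
    have h4 : ‖expA Fq t (G * z) ^ m - expA Fq t (G * z') ^ m‖ ≤
        ‖expA Fq t (G * z) - expA Fq t (G * z')‖ * M ^ m := by
      refine le_trans ?_ h1
      exact le_mul_of_one_le_right (norm_nonneg _) hM1
    refine h4.trans ?_
    have h5 : L * (‖G‖ * ‖z - z'‖) ≤ |L| * (‖G‖ * ‖z - z'‖) :=
      mul_le_mul_of_nonneg_right (le_abs_self L) (by positivity)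
    calc ‖expA Fq t (G * z) - expA Fq t (G * z')‖ * M ^ m
        ≤ (|L| * (‖G‖ * ‖z - z'‖)) * M ^ m := by gcongr; exact h2.trans h5
      _ = |L| * ‖G‖ * M ^ m * ‖z - z'‖ := by ring
  · set δ : ℝ := min 1 (ε / M ^ m) with hδ
    have hMm : 0 < M ^ m := pow_pos hM0 m
    have hδ0 : 0 < δ := lt_min one_pos (div_pos hε hMm)
    obtain ⟨P, hP⟩ := hP (‖G‖ * |R|) δ hδ0
    refine ⟨(P.comp (Polynomial.C G * X)) ^ m, fun z hz => ?_⟩
    rw [eval_pow, eval_comp, eval_mul, eval_C, eval_X]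
    have h1 := hP (G * z) (hR' z hz)
    have h2 : ‖P.eval (G * z)‖ ≤ M := by
      have e : P.eval (G * z) = expA Fq t (G * z) + -(expA Fq t (G * z) - P.eval (G * z)) := by
        ring
      rw [e]
      refine (IsUltrametricDist.norm_add_le_max _ _).trans (max_le (hEM z hz) ?_)
      rw [norm_neg]
      exact (h1.trans (min_le_left _ _)).trans hM1
    have h3 := norm_pow_sub_le' hM0 _ _ (hEM z hz) h2 m
    have h4 : ‖expA Fq t (G * z) ^ m - P.eval (G * z) ^ m‖ ≤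
        ‖expA Fq t (G * z) - P.eval (G * z)‖ * M ^ m := by
      refine le_trans ?_ h3
      exact le_mul_of_one_le_right (norm_nonneg _) hM1
    refine h4.trans ?_
    calc ‖expA Fq t (G * z) - P.eval (G * z)‖ * M ^ m ≤ (ε / M ^ m) * M ^ m := by
          gcongr; exact h1.trans (min_le_right _ _)
      _ = ε := div_mul_cancel₀ _ hMm.ne'

/-- the measure of `f` -/
noncomputable def muf (t s : C) (ι : Kinf Fq →+* C) (f : C → C) (k : ℕ) (w : Fin k → Fq) : C :=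
  rc t s ι f (edge 1 ((k : ℤ) + 1) (uu w))

theorem uu_snoc {k : ℕ} (w : Fin k → Fq) (c : Fq) :
    (uu (Fin.snoc w c : Fin (k + 1) → Fq) : Kinf Fq) =
      uu w + HahnSeries.single ((k : ℤ) + 1) c := by
  unfold uu
  rw [Fin.sum_univ_castSucc]
  simp

theorem muf_add {f : C → C} (hF : Fam0 n (fun δ k u => rc t s ι f (edge δ k u))) (k : ℕ)
    (w : Fin k → Fq) : muf t s ι f k w = ∑ c : Fq, muf t s ι f (k + 1) (Fin.snoc w c) := by
  unfold muf
  have h := hF.sum 1 (by simp) ((k : ℤ) + 1) (uu w)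
  rw [h]
  refine Finset.sum_congr rfl fun c _ => ?_
  rw [uu_snoc]
  congr 2

theorem muf_bound (hS : Sta t s ι) {f : C → C} (hr : IsRigidAnalytic Fq t f)
    (hG : GB Fq t f) : ∃ B : ℝ, ∀ (k : ℕ) (w : Fin k → Fq), ‖muf t s ι f k w‖ ≤ B := by
  obtain ⟨B, hB⟩ := hG
  have hs1 : 1 < ‖s‖ := Pool.Agent.TH828.DM.norm_s hS.hs hS.ht
  have hs0 : 0 < ‖s‖ := by linarith
  refine ⟨|B|, fun k w => ?_⟩
  have h1 := J4H97.HP.t_EDGE Fq C t s ι hS f hr 1 (by simp) ((k : ℤ) + 1) (uu w)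
  have hrad : ‖t ^ (-((k : ℤ) + 1)) * s‖ = ‖s‖ ^ (2 * (-((k : ℤ) + 1)) + 1) := by
    rw [norm_mul, norm_zpow, Pool.Agent.TH828.DM.norm_t_eq hS.hs, zpow_add₀ hs0.ne', _root_.zpow_mul]
    norm_num
  have hpos : 0 < ‖t ^ (-((k : ℤ) + 1)) * s‖ := by rw [hrad]; positivity
  have h2 := HasRes.norm_le (Pool.Agent.TH828.DM.card_cast Fq C)
    Pool.Agent.TH828.DM.two_le_card (B := |B| / ‖t ^ (-((k : ℤ) + 1)) * s‖) (by positivity)
    (fun z hz => ?_) h1
  · rwa [mul_div_cancel₀ _ hpos.ne'] at h2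
  · have hfar : Far Fq t ‖t ^ (-((k : ℤ) + 1)) * s‖ z := by
      rw [hrad]
      exact J4H4.HP.far_circ hS _ (J4H97.HP.iota_mem hS _) (by rw [← hrad]; exact hz)
    have hz' : z ∈ Omega Fq t := J4H84.HP.omega_of_far hpos hfar
    rw [J4H69.HP.slash_one_mem hz', le_div_iff₀ hpos]
    exact (hB z hz' _ hpos.le hfar).trans (le_abs_self B)

end

section

variable {Fq C : Type} [Field Fq] [Fintype Fq] [NontriviallyNormedField C]
  [IsUltrametricDist C] [CompleteSpace C] [IsAlgClosed C] [Algebra Fq C] {t s ϖ : C}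
  {ι : Kinf Fq →+* C} {n : Fq[X]}

/-- the integrals of `(β·w)^(q-1)` vanish -/
theorem int_zero (h5 : S_EXPA) (h6 : S_GB) (hS : Sta t s ι) (hϖ : ϖ ≠ 0) (hn : n.Monic)
    (hirr : Irreducible n) (h4 : n.natDegree = 4) {f : C → C} (hf : IsMM t ϖ n f)
    (hb : ∀ g : Fq[X], g.Monic → ∀ a, HasExp Fq t ϖ (heckeM t n g f) a →
      a (Fintype.card Fq) = 0) (k : ℕ) (β : Fin k → Fq) :
    ∑ w : Fin k → Fq, (algebraMap Fq C (∑ i, β i * w i)) ^ (Fintype.card Fq - 1) *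
      muf t s ι f k w = 0 := by
  obtain ⟨per, sm, smW, r0, fam⟩ := mm_facts h5 hS hϖ hn h4 hf
  have gb : GB Fq t f := h6 Fq C t s ι hS n hn hirr f hf.supp hf.rigid hf.inv sm smW
  have hres := res_all (f := f) h5 hS (fun g hg => res_g h5 hS hϖ hn hirr h4 hf hg (hb g hg))
  have hs1 : 1 < ‖s‖ := Pool.Agent.TH828.DM.norm_s hS.hs hS.ht
  have ht0 : 0 < ‖t‖ := by linarith [hS.ht]
  have hlim : ∀ g : Fq[X], Tendsto (fun k : ℕ => ∑ w : Fin k → Fq,
      (∑ i : Fin k, ∑ j ∈ Finset.range ((i : ℕ) + 1), algebraMap Fq C (g.coeff j) *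
      algebraMap Fq C (w i) * lamE Fq t (i - j)) ^ (Fintype.card Fq - 1) * muf t s ι f k w)
      atTop (𝓝 0) := by
    intro g
    obtain ⟨hL, hP⟩ := weight_ok (t := t) h5 hS.ht g ‖s⁻¹‖ (Fintype.card Fq - 1)
    obtain ⟨v, hv, hv2⟩ := J4H69.HP.t_RIEM J4H97.HP.t_EDGE Fq C t s ι hS f hf.rigid gb
      (fun z => expA Fq t (aeval t g * z) ^ (Fintype.card Fq - 1)) hL hP
    have hv0 : v = 0 := HasRes.unique hv (hres g)
    rw [hv0] at hv2
    refine hv2.congr fun k => ?_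
    refine Finset.sum_congr rfl fun w _ => ?_
    rw [expA_uu h5 hS g w]
    rfl
  obtain ⟨-, -, -, hnorm, -⟩ := h5 Fq C t hS.ht
  have hpt : ∀ j : ℕ, ‖(t ^ (j + 1))⁻¹‖ < 1 := by
    intro j
    rw [norm_inv, norm_pow]
    exact inv_lt_one_of_one_lt₀ (one_lt_pow₀ hS.ht (Nat.succ_ne_zero j))
  have hlam : ∀ j, ‖lamE Fq t j‖ = ‖t‖⁻¹ * (‖t‖⁻¹) ^ j := by
    intro j
    unfold lamE
    rw [hnorm _ (hpt j), norm_inv, norm_pow, pow_succ, mul_inv, inv_pow, mul_comm]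
  refine t_INV Fq C (lamE Fq t) (‖t‖⁻¹) (by positivity) (inv_lt_one_of_one_lt₀ hS.ht) ?_ ?_
    Pool.Agent.TH828.DM.norm_algebraMap_le (muf t s ι f) ?_ ?_ hlim k β
  · intro h0
    have := hlam 0
    rw [h0, norm_zero, pow_zero, mul_one] at this
    exact absurd this.symm (inv_ne_zero ht0.ne')
  · intro j
    rw [hlam j, hlam 0, pow_zero, mul_one]
  · exact fun k w => muf_add fam.toFam0 k w
  · exact muf_bound hS hf.rigid gb

theorem muf_smul (hn : n.Monic) {f : C → C}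
    (hF : Fam n (fun δ k u => rc t s ι f (edge δ k u))) (a : Fq) (ha : a ≠ 0) (k : ℕ)
    (w : Fin k → Fq) : muf t s ι f k (a • w) = muf t s ι f k w := by
  have hdet : IsUnit (!![Polynomial.C a, 0; 0, 1] : Matrix (Fin 2) (Fin 2) Fq[X]).det := by
    rw [Matrix.det_fin_two_of, mul_one, mul_zero, sub_zero]
    exact Polynomial.isUnit_C.2 (isUnit_iff_ne_zero.2 ha)
  have hden : den !![Polynomial.C a, 0; 0, 1] (uu w : Kinf Fq) = 1 := by
    simp [den]
  have h1 := hF.moebA 1 !![Polynomial.C a, 0; 0, 1] (by simp) hdet ((k : ℤ) + 1) (uu w)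
    (by rw [hden]; exact one_ne_zero) (by
      intro i _
      simp)
  have h2 := hF.inv 1 (by simp) !![Polynomial.C a, 0; 0, 1] hdet (dvd_zero n)
  have h3 : (!![Polynomial.C a, 0; 0, 1] : Matrix (Fin 2) (Fin 2) Fq[X]) * 1 =
      1 * !![Polynomial.C a, 0; 0, 1] := by rw [mul_one, one_mul]
  rw [h3] at h2
  have h4 := congrFun (congrFun h2 ((k : ℤ) + 1)) (uu w)
  rw [h1, hden, HahnSeries.order_one, mul_zero, sub_zero, div_one] at h4
  have h5 : num !![Polynomial.C a, 0; 0, 1] (uu w : Kinf Fq) = uu (a • w) := by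
    have e1 : num !![Polynomial.C a, 0; 0, 1] (uu w : Kinf Fq) = HahnSeries.C a * uu w := by
      simp [num, emb]
    rw [e1]
    unfold uu
    rw [Finset.mul_sum]
    refine Finset.sum_congr rfl fun i _ => ?_
    rw [HahnSeries.C_apply, HahnSeries.single_mul_single, zero_add]
    rfl
  rw [h5] at h4
  exact h4

/-- the hyperplane sums vanish -/
theorem hyper_zero (hn : n.Monic) {f : C → C}
    (hF : Fam n (fun δ k u => rc t s ι f (edge δ k u)))
    (hint : ∀ (k : ℕ) (β : Fin k → Fq), ∑ w : Fin k → Fq,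
      (algebraMap Fq C (∑ i, β i * w i)) ^ (Fintype.card Fq - 1) * muf t s ι f k w = 0)
    (k : ℕ) (β : Fin k → Fq) (c : Fq) (hc : c ≠ 0) :
    ∑ᶠ w ∈ {w : Fin k → Fq | ∑ i, β i * w i = c}, muf t s ι f k w = 0 := by
  classical
  have hq := q_sub Fq
  set S : Fq → C := fun c => ∑ w : Fin k → Fq, if ∑ i, β i * w i = c then muf t s ι f k w else 0
    with hSd
  have hfin : ∑ᶠ w ∈ {w : Fin k → Fq | ∑ i, β i * w i = c}, muf t s ι f k w = S c := by
    rw [finsum_mem_def, finsum_eq_sum_of_fintype]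
    refine Finset.sum_congr rfl fun w _ => ?_
    rw [Set.indicator_apply]
    rfl
  rw [hfin]
  -- scaling
  have hsc : ∀ a : Fq, a ≠ 0 → ∀ c, S (a * c) = S c := by
    intro a ha c
    simp only [hSd]
    let e : (Fin k → Fq) ≃ (Fin k → Fq) :=
      { toFun := fun w => a • w
        invFun := fun w => a⁻¹ • w
        left_inv := fun w => by simp [smul_smul, ha]
        right_inv := fun w => by simp [smul_smul, ha] }
    rw [← e.sum_comp]
    refine Finset.sum_congr rfl fun w _ => ?_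
    have e1 : ∑ i, β i * (e w) i = a * ∑ i, β i * w i := by
      rw [Finset.mul_sum]
      refine Finset.sum_congr rfl fun i _ => ?_
      show β i * (a * w i) = _
      ring
    have e2 : muf t s ι f k (e w) = muf t s ι f k w := muf_smul hn hF a ha k w
    rw [e1, e2]
    simp only [mul_right_inj' ha]
  have h1 := hint k β
  have h2 : ∑ w : Fin k → Fq, (algebraMap Fq C (∑ i, β i * w i)) ^ (Fintype.card Fq - 1) *
      muf t s ι f k w = ∑ c : Fq, (algebraMap Fq C c) ^ (Fintype.card Fq - 1) * S c := by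
    simp only [hSd, Finset.mul_sum]
    rw [Finset.sum_comm]
    refine Finset.sum_congr rfl fun w _ => ?_
    rw [Finset.sum_eq_single (∑ i, β i * w i)]
    · rw [if_pos rfl]
    · intro b _ hb
      rw [if_neg (Ne.symm hb), mul_zero]
    · intro h; exact absurd (Finset.mem_univ _) h
  rw [h2] at h1
  have h3 : ∀ x : Fq, (algebraMap Fq C x) ^ (Fintype.card Fq - 1) * S x =
      (if x = 0 then 0 else 1) * S c := by
    intro x
    by_cases hx : x = 0
    · rw [hx, map_zero, zero_pow hq.2, if_pos rfl, zero_mul, zero_mul]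
    · rw [if_neg hx, ← map_pow, FiniteField.pow_card_sub_one_eq_one _ hx, map_one]
      congr 1
      have := hsc (c * x⁻¹) (mul_ne_zero hc (inv_ne_zero hx)) x
      rw [mul_assoc, inv_mul_cancel₀ hx, mul_one] at this
      exact this.symm
  rw [Finset.sum_congr rfl fun x _ => h3 x, ← Finset.sum_mul] at h1
  have h4 : (∑ x : Fq, if x = 0 then (0 : C) else 1) = -1 := by
    have e1 : (∑ x : Fq, if x = 0 then (0 : C) else 1) = ∑ x : Fq, (1 - if x = 0 then 1 else 0) := by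
      refine Finset.sum_congr rfl fun x _ => ?_
      split_ifs <;> simp
    rw [e1, Finset.sum_sub_distrib, Finset.sum_ite_eq', if_pos (Finset.mem_univ _),
      Finset.sum_const, Finset.card_univ, nsmul_eq_mul, Pool.Agent.TH828.DM.card_cast Fq C]
    ring
  rw [h4] at h1
  simpa using h1

/-- the functions on `A/n` with values in `C` vanish -/
theorem gf_zero (hn : n.Monic) (hirr : Irreducible n) (h4 : n.natDegree = 4)
    {N : Type} [AddCommGroup N] (p : ℕ) [Fact p.Prime] [CharP Fq p] [Module (ZMod p) N]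
    {Φ : Matrix (Fin 2) (Fin 2) Fq[X] → ℤ → Kinf Fq → N} (hF : Fam n Φ)
    (hint : ∀ β : Fin 4 → Fq, β ≠ 0 → ∀ c : Fq, c ≠ 0 →
      ∑ᶠ w ∈ {w : Fin 4 → Fq | ∑ i, β i * w i = c}, Φ 1 5 (uu w) = 0) (b : Fq[X]) :
    Φ 1 5 (emb Fq b / emb Fq n) = 0 := by
  have hirr' : Fact (Irreducible n) := ⟨hirr⟩
  let κ := AdjoinRoot n
  have hfin : Module.Finite Fq κ := hn.finite_adjoinRoot
  have hfin' : Finite κ := Module.finite_of_finite Fq
  have : Fintype κ := Fintype.ofFinite κ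
  let ev : Fq[X] →ₐ[Fq] κ := AdjoinRoot.mkₐ n
  have hev : Function.Surjective ev := AdjoinRoot.mk_surjective
  have hevk : ∀ b, ev b = 0 ↔ n ∣ b := fun b => AdjoinRoot.mk_eq_zero
  have hfr : Module.finrank Fq κ = 4 := by
    rw [← h4]; exact finrank_quotient_span_eq_natDegree' hn
  obtain ⟨Gf, hG, hG1, hG0, hGF, hGi, hGS⟩ := J4H8.HP.t_CORE1A Fq κ n ev N Φ hn h4 hev hevk hF
  obtain ⟨lam, hlam, hH⟩ := J4H8.HP.t_CORE1C Fq κ n ev N Φ Gf hn h4 hev hevk hF hG hint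
  rw [← hG b]
  refine (Module.forall_dual_apply_eq_zero_iff (ZMod p) (Gf (ev b))).1 fun φ => ?_
  have hz : (fun b => φ (Gf b)) = 0 := by
    refine t_CORE2P Fq κ p lam (fun b => φ (Gf b)) hfr hlam (fun c hc b => ?_) ?_ ?_ ?_ ?_ ?_
    · simp only [hG1 c hc b]
    · simp only [hG0, map_zero]
    · rw [← map_sum, hGF, map_zero]
    · intro b hb
      rw [hGi b hb, map_neg, map_sum]
    · rw [← map_sum, hGS, map_zero]
    · intro g hg c hc
      have h1 := congrArg φ (hH g hg c hc)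
      rw [map_zero] at h1
      rw [← h1]
      exact (φ.toAddMonoidHom.map_finsum_mem _ (Set.toFinite _)).symm
  exact congrFun hz (ev b)

/-- **the right kernel of the pairing is zero** -/
theorem mm_zero (h5 : S_EXPA) (h6 : S_GB) (hS : Sta t s ι) (hϖ : ϖ ≠ 0) (hn : n.Monic)
    (hirr : Irreducible n) (h4 : n.natDegree = 4) {f : C → C} (hf : IsMM t ϖ n f)
    (hb : ∀ g : Fq[X], g.Monic → ∀ a, HasExp Fq t ϖ (heckeM t n g f) a →
      a (Fintype.card Fq) = 0) : f = 0 := by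
  obtain ⟨p, hp⟩ := CharP.exists Fq
  have hpp : Fact p.Prime := ⟨CharP.char_is_prime Fq p⟩
  obtain ⟨per, sm, smW, r0, fam⟩ := mm_facts h5 hS hϖ hn h4 hf
  have gb : GB Fq t f := h6 Fq C t s ι hS n hn hirr f hf.supp hf.rigid hf.inv sm smW
  have hint := int_zero h5 h6 hS hϖ hn hirr h4 hf hb
  have hhyp := hyper_zero hn fam hint 4
  have hCp : CharP C p := charP_of_injective_algebraMap (algebraMap Fq C).injective p
  let _ : Algebra (ZMod p) C := ZMod.algebra C p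
  have hG := gf_zero hn hirr h4 p fam (fun β _ c hc => hhyp β c hc)
  have hz := zero_of_fam hn h4 hirr (J4H97.HP.t_COCH Fq C t s ι hS f hf.rigid) fam hG
  refine J4H4.HP.t_VAN Fq C t s ι hS f hf.supp hf.rigid sm gb fun k u => ?_
  have h1 := J4H97.HP.t_EDGE Fq C t s ι hS f hf.rigid 1 (by simp) k u
  rwa [Pool.Agent.N814.DR.slash_one hf.supp, hz] at h1

end

end Pool.Agent.J4H98.HP
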