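import Pool.Agent.J4H98.HP.Asm2

/-!
# Assembly, part 3: perfectness of the pairing with Drinfeld modular forms
-/

open Polynomial Matrix Filter Topology

namespace Pool.Agent.J4H98.HP

open Pool.Agent.TH828.DM (Omega OmegaN IsRigidAnalytic expA res HasRes)
open Pool.Agent.N814.DR (slash SmallAtInfinity)

section

variable {Fq C : Type} [Field Fq] [Fintype Fq] [NontriviallyNormedField C]
  [Algebra Fq C] {t s ϖ : C} {ι : Kinf Fq →+* C} {n : Fq[X]}

omit [Fintype Fq] in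
theorem MM.ext {f g : MM t ϖ n} (h : f.fn = g.fn) : f = g := Subtype.ext h

/-- an element of `M` -/
def MM.mk (f : C → C) (h : IsMM t ϖ n f) : MM t ϖ n := (⟨f, h⟩ : mm0 t ϖ n)

omit [Fintype Fq] in
theorem MM.isMM (f : MM t ϖ n) : IsMM t ϖ n f.fn := Subtype.property (p := (· ∈ mm0 t ϖ n)) f

omit [Fintype Fq] in
theorem MM.fn_add (f g : MM t ϖ n) : (f + g).fn = f.fn + g.fn := rfl

omit [Fintype Fq] in
theorem MM.fn_smul (c : C) (f : MM t ϖ n) : (c • f).fn = c • f.fn := rfl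

theorem heckeM_fsum (n m : Fq[X]) (f : C → C) : heckeM t n m f =
    ∑ h ∈ (heckeMset_finite n m).toFinset, slash Fq t 2 1 h f :=
  finsum_mem_eq_finite_toFinset_sum _ _

theorem heckeM_add (n m : Fq[X]) (f g : C → C) :
    heckeM t n m (f + g) = heckeM t n m f + heckeM t n m g := by
  rw [heckeM_fsum, heckeM_fsum, heckeM_fsum, ← Finset.sum_add_distrib]
  exact Finset.sum_congr rfl fun h _ => map_add _ _ _

theorem heckeM_smul (n m : Fq[X]) (c : C) (f : C → C) :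
    heckeM t n m (c • f) = c • heckeM t n m f := by
  rw [heckeM_fsum, heckeM_fsum, Finset.smul_sum]
  exact Finset.sum_congr rfl fun h _ => map_smul _ _ _

/-- `b_1` through a choice of the expansion -/
noncomputable def b1 (f : MM t ϖ n) : C := (Classical.choose f.isMM.inf) (Fintype.card Fq)

end

section

variable {Fq C : Type} [Field Fq] [Fintype Fq] [NontriviallyNormedField C]
  [IsUltrametricDist C] [CompleteSpace C] [IsAlgClosed C] [Algebra Fq C] {t s ϖ : C}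
  {ι : Kinf Fq →+* C} {n : Fq[X]}

theorem b1_eq (hU : S_UNIQ) (ht : 1 < ‖t‖) (hϖ : ϖ ≠ 0) (f : MM t ϖ n) {a : ℕ → C}
    (ha : HasExp Fq t ϖ f.fn a) : b1 f = a (Fintype.card Fq) := by
  have h := Classical.choose_spec f.isMM.inf
  have h1 := (hU Fq C t ϖ ht hϖ f.fn _ a h.1).1 ha
  unfold b1
  rw [h1]

/-- `b_1` as a linear form -/
noncomputable def b1L (hU : S_UNIQ) (ht : 1 < ‖t‖) (hϖ : ϖ ≠ 0) (n : Fq[X]) :
    MM t ϖ n →ₗ[C] C where
  toFun := b1
  map_add' f g := by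
    obtain ⟨a, ha, -⟩ := f.isMM.inf
    obtain ⟨b, hb, -⟩ := g.isMM.inf
    rw [b1_eq hU ht hϖ f ha, b1_eq hU ht hϖ g hb,
      b1_eq hU ht hϖ (f + g) (a := a + b) (by rw [MM.fn_add]; exact ha.add hb)]
    rfl
  map_smul' c f := by
    obtain ⟨a, ha, -⟩ := f.isMM.inf
    rw [b1_eq hU ht hϖ f ha,
      b1_eq hU ht hϖ (c • f) (a := c • a) (by rw [MM.fn_smul]; exact ha.smul c)]
    rfl

/-- `T_m` as an endomorphism of `M` -/
noncomputable def heckeEndC (hM : ∀ m : Fq[X], m.Monic → ∀ f, IsMM t ϖ n f →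
    IsMM t ϖ n (heckeM t n m f)) (m : Fq[X]) (hm : m.Monic) : EndMM t ϖ n where
  toFun f := MM.mk (heckeM t n m f.fn) (hM m hm f.fn f.isMM)
  map_add' f g := MM.ext (heckeM_add n m f.fn g.fn)
  map_smul' c f := MM.ext (heckeM_smul n m c f.fn)

theorem heckeEndC_mem (hM : ∀ m : Fq[X], m.Monic → ∀ f, IsMM t ϖ n f →
    IsMM t ϖ n (heckeM t n m f)) (m : Fq[X]) (hm : m.Monic) :
    heckeEndC hM m hm ∈ heckeAlg t ϖ n :=
  Algebra.subset_adjoin ⟨m, hm, fun _ => rfl⟩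

theorem heckeAlg_comm (hS : Sta t s ι) (hn : n.Monic) (hirr : Irreducible n) :
    ∀ x ∈ heckeAlg t ϖ n, ∀ y ∈ heckeAlg t ϖ n, x * y = y * x := by
  have key : ∀ x ∈ {θ : EndMM t ϖ n | ∃ m : Fq[X], m.Monic ∧ ∀ f : MM t ϖ n,
      (θ f).fn = heckeM t n m f.fn}, ∀ y ∈ {θ : EndMM t ϖ n | ∃ m : Fq[X], m.Monic ∧
      ∀ f : MM t ϖ n, (θ f).fn = heckeM t n m f.fn}, x * y = y * x := by
    rintro x ⟨m, hm, hx⟩ y ⟨m', hm', hy⟩
    apply LinearMap.ext
    intro f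
    apply MM.ext
    rw [Module.End.mul_apply, Module.End.mul_apply, hx, hy, hy, hx]
    exact heckeM_comm J4H97.HP.t_SL J4H8.HP.t_COMM hS hn hirr hm hm' f.isMM.inv
  intro x hx y hy
  have h := (Algebra.adjoinCommRingOfComm C key).mul_comm ⟨x, hx⟩ ⟨y, hy⟩
  exact congrArg Subtype.val h

/-- the values of the residues at the edges `(5, b/n)` -/
noncomputable def evM (hS : Sta t s ι) (ϖ : C) (n : Fq[X]) :
    MM t ϖ n →ₗ[C] ((Fin 4 → Fq) → C) where
  toFun f v := rc t s ι f.fn (edge 1 5 (emb Fq (pol v) / emb Fq n))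
  map_add' f g := by
    funext v
    rw [MM.fn_add, rc_add J4H97.HP.t_SL J4H97.HP.t_EDGE hS f.isMM.rigid g.isMM.rigid]
    rfl
  map_smul' c f := by
    funext v
    rw [MM.fn_smul, rc_smul J4H97.HP.t_SL J4H97.HP.t_EDGE hS c f.isMM.rigid]
    rfl

theorem evM_inj (h5 : S_EXPA) (h6 : S_GB) (hS : Sta t s ι) (hϖ : ϖ ≠ 0) (hn : n.Monic)
    (h4 : n.natDegree = 4) (hirr : Irreducible n) : Function.Injective (evM hS ϖ n) := by
  rw [injective_iff_map_eq_zero]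
  intro f hf
  apply MM.ext
  obtain ⟨per, sm, smW, r0, fam⟩ := mm_facts h5 hS hϖ hn h4 f.isMM
  have gb : GB Fq t f.fn :=
    h6 Fq C t s ι hS n hn hirr f.fn f.isMM.supp f.isMM.rigid f.isMM.inv sm smW
  have hirr' : Fact (Irreducible n) := ⟨hirr⟩
  let κ := AdjoinRoot n
  have hfin : Module.Finite Fq κ := hn.finite_adjoinRoot
  have hfin' : Finite κ := Module.finite_of_finite Fq
  have : Fintype κ := Fintype.ofFinite κ
  let ev : Fq[X] →ₐ[Fq] κ := AdjoinRoot.mkₐ n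
  have hev : Function.Surjective ev := AdjoinRoot.mk_surjective
  have hevk : ∀ b, ev b = 0 ↔ n ∣ b := fun b => AdjoinRoot.mk_eq_zero
  obtain ⟨Gf, hG, -⟩ := J4H8.HP.t_CORE1A Fq κ n ev C _ hn h4 hev hevk fam
  have hb : ∀ b : Fq[X], rc t s ι f.fn (edge 1 5 (emb Fq b / emb Fq n)) = 0 := by
    intro b
    have h1 : ev b = ev (b %ₘ n) := by
      have h2 := Polynomial.modByMonic_add_div b n
      conv_lhs => rw [← h2]
      rw [map_add, (hevk (n * (b /ₘ n))).2 (Dvd.intro _ rfl), add_zero]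
    have hdeg : (b %ₘ n).degree < ((4 : ℕ) : WithBot ℕ) := by
      have := Polynomial.degree_modByMonic_lt b hn
      rwa [Polynomial.degree_eq_natDegree hn.ne_zero, h4] at this
    obtain ⟨v, hv⟩ := J4H97.HP.exists_pol hdeg
    have h3 := congrFun hf v
    have h4' : rc t s ι f.fn (edge 1 5 (emb Fq (b %ₘ n) / emb Fq n)) = 0 := by
      rw [← hv]; exact h3
    rw [← hG, h1, hG, h4']
  have hz := zero_of_fam hn h4 hirr (J4H97.HP.t_COCH Fq C t s ι hS f.fn f.isMM.rigid) fam hb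
  refine J4H4.HP.t_VAN Fq C t s ι hS f.fn f.isMM.supp f.isMM.rigid sm gb fun k u => ?_
  have h1 := J4H97.HP.t_EDGE Fq C t s ι hS f.fn f.isMM.rigid 1 (by simp) k u
  rwa [Pool.Agent.N814.DR.slash_one f.isMM.supp, hz] at h1

/-- **perfectness of the pairing with Drinfeld modular forms** -/
theorem dmf_perfect (h5 : S_EXPA) (h6 : S_GB) (ht : 1 < ‖t‖) (hϖ : ϖ ≠ 0) (hn : n.Monic)
    (h4 : n.natDegree = 4) (hirr : Irreducible n) : DMFPerfect Fq t ϖ n := by
  obtain ⟨s, ι, hS⟩ := J4H84.HP.t_EMB Fq C t ht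
  have hUE := J4H4.HP.t_UE h5
  have hU := J4H84.HP.t_UNIQ h5
  have hM : ∀ m : Fq[X], m.Monic → ∀ f, IsMM t ϖ n f → IsMM t ϖ n (heckeM t n m f) :=
    fun m hm f hf => J4H97.HP.t_MMH hUE J4H69.HP.t_CUSPC hU Fq C t s ϖ ι hS hϖ n m hn hirr h4
      hm f hf
  have hfin : Module.Finite C (MM t ϖ n) :=
    Module.Finite.of_injective (evM hS ϖ n) (evM_inj h5 h6 hS hϖ hn h4 hirr)
  have hcomm := heckeAlg_comm (ϖ := ϖ) hS hn hirr
  refine ⟨hfin, fun m hm => ⟨(⟨heckeEndC hM m hm, heckeEndC_mem hM m hm⟩ : heckeAlg t ϖ n),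
    fun _ => rfl⟩, fun x y => hcomm x.1 x.2 y.1 y.2, b1L hU ht hϖ n,
    fun f a ha => b1_eq hU ht hϖ f ha, ?_⟩
  let T := heckeAlg t ϖ n
  let B : T →ₗ[C] MM t ϖ n →ₗ[C] C := LinearMap.compRight C (b1L hU ht hϖ n) ∘ₗ T.val.toLinearMap
  have hB : B.IsPerfPair := by
    apply J4H69.HP.t_PERFC C (MM t ϖ n) T (b1L hU ht hϖ n) hcomm _ B (fun θ f => rfl)
    intro f hf
    apply MM.ext
    refine mm_zero h5 h6 hS hϖ hn hirr h4 f.isMM fun g hg a ha => ?_
    have h1 := hf _ (heckeEndC_mem hM g hg)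
    have h2 : b1 ((heckeEndC hM g hg) f) = a (Fintype.card Fq) := b1_eq hU ht hϖ _ ha
    rw [← h2]
    exact h1
  have hb := hB.bijective_left
  exact LinearMap.IsPerfPair.of_bijective (pairC (b1L hU ht hϖ n)) hb

end

end Pool.Agent.J4H98.HP
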