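import Pool.Agent.J4H98.HP.LemA

/-!
# The combinatorial core modulo `p`
-/

open Finset

namespace Pool.Agent.J4H98.HP

/-- digit vectors for `F_(q^4)`, `q = p^r` -/
abbrev DV (p r : ℕ) : Type := Fin r × Fin 4 → Fin p

variable {p r : ℕ}

/-- `s_q` -/
def sq (d : DV p r) : ℕ := wt (fun k => p ^ (k.1 : ℕ)) d

/-- the sum of all digits -/
def sp (d : DV p r) : ℕ := ∑ k, (d k : ℕ)

/-- column sums -/
def col (d : DV p r) (j : Fin r) : ℕ := ∑ i, (d (j, i) : ℕ)

/-- complement -/
def cmp (d : DV p r) : DV p r := fun k => (d k).rev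

/-- the shift of positions -/
def tau [NeZero r] (k : Fin r × Fin 4) : Fin r × Fin 4 :=
  (k.1 + 1, if k.1 + 1 = 0 then k.2 + 1 else k.2)

/-- rotation of digits -/
def rho [NeZero r] (d : DV p r) : DV p r := fun k => d (tau k)

theorem sq_col (d : DV p r) : sq d = ∑ j : Fin r, p ^ (j : ℕ) * col d j := by
  rw [sq, wt, Fintype.sum_prod_type]
  apply Finset.sum_congr rfl
  intro j _
  rw [col, Finset.mul_sum]

theorem sp_col (d : DV p r) : sp d = ∑ j : Fin r, col d j := by
  rw [sp, Fintype.sum_prod_type]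
  rfl

theorem geom (hp : 1 ≤ p) : ∑ j : Fin r, p ^ (j : ℕ) * (p - 1) = p ^ r - 1 := by
  induction r with
  | zero => simp
  | succ n ih =>
    rw [Fin.sum_univ_castSucc]
    simp only [Fin.val_castSucc, Fin.val_last]
    rw [ih, pow_succ]
    have h1 : 1 ≤ p ^ n := Nat.one_le_pow _ _ hp
    have h2 : p ^ n * (p - 1) = p ^ n * p - p ^ n := by rw [Nat.mul_sub, mul_one]
    have h3 : p ^ n ≤ p ^ n * p := Nat.le_mul_of_pos_right _ (by omega)
    rw [h2]
    omega

theorem col_cmp (d : DV p r) (j : Fin r) : col d j + col (cmp d) j = 4 * (p - 1) := by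
  rw [col, col, ← Finset.sum_add_distrib]
  rw [Finset.sum_congr rfl (g := fun _ => p - 1)]
  · simp
  · intro i _
    have := (d (j, i)).2
    simp only [cmp, Fin.val_rev]
    omega

theorem sq_cmp (hp : 1 ≤ p) (d : DV p r) : sq d + sq (cmp d) = 4 * (p ^ r - 1) := by
  rw [sq_col, sq_col, ← Finset.sum_add_distrib, ← geom hp, Finset.mul_sum]
  apply Finset.sum_congr rfl
  intro j _
  rw [← mul_add, col_cmp]
  ring

theorem cmp_cmp (d : DV p r) : cmp (cmp d) = d := by
  funext k; simp [cmp]

theorem sq_eq_zero [NeZero p] {d : DV p r} (h : sq d = 0) : d = 0 := by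
  funext k
  rw [sq, wt, Finset.sum_eq_zero_iff] at h
  have := h k (mem_univ k)
  rw [Nat.mul_eq_zero] at this
  rcases this with h1 | h1
  · exact absurd h1 (pow_ne_zero _ (NeZero.ne p))
  · exact Fin.ext (by simpa using h1)

theorem tau_bij [NeZero r] : Function.Bijective (tau (r := r)) := by
  rw [Fintype.bijective_iff_injective_and_card]
  refine ⟨?_, rfl⟩
  rintro ⟨j, i⟩ ⟨j', i'⟩ h
  simp only [tau, Prod.mk.injEq] at h
  obtain ⟨h1, h2⟩ := h
  have hj : j = j' := add_right_cancel h1
  subst hj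
  by_cases h0 : j + 1 = 0
  · simp only [h0, if_true] at h2
    rw [add_right_cancel h2]
  · simp only [h0, if_false] at h2
    rw [h2]

theorem col_rho [NeZero r] (d : DV p r) (j : Fin r) : col (rho d) j = col d (j + 1) := by
  rw [col, col]
  simp only [rho, tau]
  split_ifs with h
  · exact Equiv.sum_comp (Equiv.addRight (1 : Fin 4)) (fun i => (d (j + 1, i) : ℕ))
  · rfl

theorem val_add_one [NeZero r] (j : Fin r) : ((j + 1 : Fin r) : ℕ) = ((j : ℕ) + 1) % r := by
  rw [Fin.val_add, Fin.val_one', Nat.add_mod_mod]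

theorem col_iter [NeZero r] (d : DV p r) (n : ℕ) (j : Fin r) :
    col (rho^[n] d) j = col d (j + Fin.ofNat r n) := by
  induction n generalizing d with
  | zero =>
    congr 1
    apply Fin.ext
    rw [Fin.val_add, Fin.val_ofNat, Nat.zero_mod, add_zero, Nat.mod_eq_of_lt j.2]
  | succ n ih =>
    rw [Function.iterate_succ_apply, ih, col_rho]
    congr 1
    apply Fin.ext
    rw [val_add_one, Fin.val_add, Fin.val_add, Fin.val_ofNat, Fin.val_ofNat]
    have e1 : (((j : ℕ) + n % r) % r + 1) % r = ((j : ℕ) + n + 1) % r := by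
      rw [Nat.mod_add_mod, add_assoc, add_comm (n % r) 1, ← add_assoc, Nat.add_mod_mod]
      congr 1; ring
    have e2 : ((j : ℕ) + (n + 1) % r) % r = ((j : ℕ) + n + 1) % r := by
      rw [Nat.add_mod_mod, add_assoc]
    rw [e1, e2]

theorem sp_rho [NeZero r] (d : DV p r) : sp (rho d) = sp d := by
  rw [sp_col, sp_col]
  simp only [col_rho]
  exact Equiv.sum_comp (Equiv.addRight (1 : Fin r)) (fun j => col d j)

theorem sp_iter [NeZero r] (d : DV p r) (n : ℕ) : sp (rho^[n] d) = sp d := by
  induction n generalizing d with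
  | zero => rfl
  | succ n ih => rw [Function.iterate_succ_apply, ih, sp_rho]

theorem sq_rho [NeZero r] (hp : 1 ≤ p) (d : DV p r) :
    p * sq (rho d) = sq d + (p ^ r - 1) * col d 0 := by
  rw [sq_col, sq_col, Finset.mul_sum]
  simp only [col_rho]
  obtain ⟨f, hf⟩ : ∃ f : Fin r → ℕ, ∀ j, f j = (if j = 0 then p ^ r else p ^ (j : ℕ)) * col d j :=
    ⟨_, fun _ => rfl⟩
  have h1 : ∀ j : Fin r, p * (p ^ (j : ℕ) * col d (j + 1)) = f (Equiv.addRight (1 : Fin r) j) := by
    intro j
    rw [hf, ← mul_assoc, ← pow_succ']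
    change p ^ ((j : ℕ) + 1) * _ = (if j + 1 = 0 then p ^ r else p ^ ((j + 1 : Fin r) : ℕ)) * _
    congr 1
    split_ifs with h
    · congr 1
      have hj := j.2
      have h0 : ((j + 1 : Fin r) : ℕ) = 0 := by rw [h]; simp
      rw [val_add_one] at h0
      rcases Nat.lt_or_ge ((j : ℕ) + 1) r with h2 | h2
      · rw [Nat.mod_eq_of_lt h2] at h0; omega
      · omega
    · congr 1
      have hj := j.2
      have h3 : ((j + 1 : Fin r) : ℕ) ≠ 0 := by
        intro h4
        exact h (Fin.ext (by simpa using h4))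
      rw [val_add_one] at h3 ⊢
      rcases Nat.lt_or_ge ((j : ℕ) + 1) r with h2 | h2
      · rw [Nat.mod_eq_of_lt h2]
      · have : (j : ℕ) + 1 = r := by omega
        rw [this, Nat.mod_self] at h3
        exact absurd rfl h3
  rw [Finset.sum_congr rfl fun j _ => h1 j, Equiv.sum_comp (Equiv.addRight (1 : Fin r)) f]
  have h2 : ∀ j : Fin r, f j =
      p ^ (j : ℕ) * col d j + (if j = 0 then (p ^ r - 1) * col d 0 else 0) := by
    intro j
    rw [hf]
    split_ifs with h
    · subst h
      have h1 : 1 ≤ p ^ r := Nat.one_le_pow _ _ hp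
      have h0 : ((0 : Fin r) : ℕ) = 0 := by simp
      rw [h0, pow_zero, one_mul, Nat.sub_mul, one_mul]
      have : col d 0 ≤ p ^ r * col d 0 := Nat.le_mul_of_pos_left _ h1
      omega
    · rw [add_zero]
  rw [Finset.sum_congr rfl fun j _ => h2 j, Finset.sum_add_distrib, Finset.sum_ite_eq',
    if_pos (mem_univ _)]

/-- replace the digits in column `0` -/
def upd [NeZero r] (d : DV p r) (e : Fin 4 → Fin p) : DV p r := fun k => if k.1 = 0 then e k.2 else d k

theorem upd_self [NeZero r] (d : DV p r) (h : DV p r) (H : ∀ k, k.1 ≠ 0 → d k = h k) :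
    upd h (fun i => d (0, i)) = d := by
  funext k
  obtain ⟨j, i⟩ := k
  simp only [upd]
  split_ifs with h0
  · rw [show j = 0 from h0]
  · exact (H (j, i) h0).symm

theorem upd_inj [NeZero r] (d : DV p r) : Function.Injective (upd d) := by
  intro e e' h
  funext i
  have := congrFun h (0, i)
  simpa [upd] using this

theorem col_upd [NeZero r] (d : DV p r) (e : Fin 4 → Fin p) (j : Fin r) :
    col (upd d e) j = if j = 0 then sm e else col d j := by
  simp only [col, upd, sm]
  split_ifs with h <;> rfl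

theorem bin_upd [NeZero r] (d : DV p r) (e e' : Fin 4 → Fin p) :
    bin (upd d e) (upd d e') = bin e e' := by
  rw [bin, bin, Fintype.prod_prod_type]
  rw [Finset.prod_eq_single (0 : Fin r)]
  · simp [upd]
  · intro j _ hj
    apply Finset.prod_eq_one
    intro i _
    simp [upd, hj]
  · intro h; exact absurd (mem_univ _) h

theorem sq_upd [NeZero r] (d : DV p r) (e : Fin 4 → Fin p) :
    sq (upd d e) + col d 0 = sq d + sm e := by
  rw [sq_col, sq_col]
  simp only [col_upd]
  rw [← Finset.add_sum_erase _ _ (mem_univ (0 : Fin r)),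
    ← Finset.add_sum_erase (f := fun j : Fin r => p ^ (j : ℕ) * col d j) _ (mem_univ (0 : Fin r))]
  have : ∑ x ∈ univ.erase (0 : Fin r), p ^ (x : ℕ) * (if x = 0 then sm e else col d x) =
      ∑ x ∈ univ.erase (0 : Fin r), p ^ (x : ℕ) * col d x := by
    apply Finset.sum_congr rfl
    intro x hx
    rw [if_neg (Finset.ne_of_mem_erase hx)]
  rw [this, if_pos rfl]
  have h0 : ((0 : Fin r) : ℕ) = 0 := by simp
  rw [h0, pow_zero, one_mul, one_mul]
  ring

theorem sp_upd [NeZero r] (d : DV p r) (e : Fin 4 → Fin p) :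
    sp (upd d e) + col d 0 = sp d + sm e := by
  rw [sp_col, sp_col]
  simp only [col_upd]
  rw [← Finset.add_sum_erase _ _ (mem_univ (0 : Fin r)),
    ← Finset.add_sum_erase (f := fun j : Fin r => col d j) _ (mem_univ (0 : Fin r))]
  have : ∑ x ∈ univ.erase (0 : Fin r), (if x = 0 then sm e else col d x) =
      ∑ x ∈ univ.erase (0 : Fin r), col d x := by
    apply Finset.sum_congr rfl
    intro x hx
    rw [if_neg (Finset.ne_of_mem_erase hx)]
  rw [this, if_pos rfl]
  ring

end Pool.Agent.J4H98.HP
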