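import Pool.Agent.J4H98.HP.Comb

/-!
# The combinatorial core modulo `p`: conclusion
-/

open Finset

namespace Pool.Agent.J4H98.HP

variable {p r : ℕ}

/-- the relations between the coefficients of the function `f` -/
structure Rel {κ : Type} [Field κ] [NeZero r] [NeZero p] (a : DV p r → κ) : Prop where
  T : ∀ h, ∑ d, a d * (bin d h : κ) = a h
  S : ∀ d, a d ≠ 0 → (p ^ r - 1) ∣ sq d
  R : ∀ h, a h ≠ 0 → ∃ d, a (cmp d) ≠ 0 ∧ sq h + (p ^ r - 1) ≤ sq d
  F : ∀ d, a d ≠ 0 → a (rho d) ≠ 0
  H : ∀ d, (∀ j, col d j = p - 1) → a d = 0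
  Z : a 0 = 0

variable {κ : Type} [Field κ] [NeZero r] [hp : Fact p.Prime]

theorem Rel.supp {a : DV p r → κ} (A : Rel a) {h : DV p r} (hh : a h ≠ 0) :
    sq h = p ^ r - 1 ∨ sq h = 2 * (p ^ r - 1) := by
  have hp1 : 1 ≤ p := hp.out.one_le
  have key : ∀ h : DV p r, a h ≠ 0 → p ^ r - 1 ≤ sq h := by
    intro h hh
    apply Nat.le_of_dvd
    · rw [Nat.pos_iff_ne_zero]
      intro h0
      exact hh (by rw [sq_eq_zero h0]; exact A.Z)
    · exact A.S h hh
  obtain ⟨d, hd, hle⟩ := A.R h hh
  have h1 := sq_cmp hp1 d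
  have h2 := key _ hd
  have h3 := key _ hh
  obtain ⟨c, hc⟩ := A.S h hh
  have hq : 0 < p ^ r - 1 := by
    have : p ≤ p ^ r := Nat.le_self_pow (NeZero.ne r) p
    have := hp.out.two_le
    omega
  rw [hc] at h3 hle ⊢
  have hc1 : 1 ≤ c := by
    by_contra hcon
    have : c = 0 := by omega
    subst this
    omega
  have hc2 : c ≤ 2 := by
    by_contra hcon
    have : (p ^ r - 1) * 3 ≤ (p ^ r - 1) * c := Nat.mul_le_mul_left _ (by omega)
    omega
  interval_cases c
  · left; ring
  · right; ring

theorem Rel.zero_of {a : DV p r → κ} (A : Rel a) (H : ∀ h, a h ≠ 0 → sq h = 2 * (p ^ r - 1)) :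
    a = 0 := by
  have hp1 : 1 ≤ p := hp.out.one_le
  have hq : 0 < p ^ r - 1 := by
    have : p ≤ p ^ r := Nat.le_self_pow (NeZero.ne r) p
    have := hp.out.two_le
    omega
  funext h
  by_contra hh
  obtain ⟨d, hd, hle⟩ := A.R h hh
  have h1 := sq_cmp hp1 d
  have h2 := H _ hd
  have h3 := H _ hh
  omega

/-- the part of degree `q - 1` after differentiation -/
def AA (a : DV p r → κ) (h : DV p r) : κ :=
  ∑ d, if sq d = p ^ r - 1 then a d * (bin d h : κ) else 0

theorem Rel.D1 [CharP κ p] {a : DV p r → κ} (A : Rel a) (h : DV p r) (m : ℕ)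
    (hm : 2 ≤ m) (hm2 : m ≤ p) (hs : sq h + m = p ^ r - 1) : AA a h = 0 := by
  have hp2 := hp.out.two_le
  have hpq : p ≤ p ^ r := Nat.le_self_pow (NeZero.ne r) p
  -- splitting
  have split : ∀ c : ℕ → κ, ∑ d, a d * (bin d h : κ) * c (sq d) =
      AA a h * c (p ^ r - 1) + (∑ d, if sq d = 2 * (p ^ r - 1) then a d * (bin d h : κ) else 0) *
        c (2 * (p ^ r - 1)) := by
    intro c
    rw [AA, Finset.sum_mul, Finset.sum_mul, ← Finset.sum_add_distrib]
    apply Finset.sum_congr rfl
    intro d _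
    by_cases had : a d = 0
    · simp [had]
    · rcases A.supp had with h1 | h1
      · rw [if_pos h1, if_neg (by omega), h1]; ring
      · rw [if_neg (by omega), if_pos h1, h1]; ring
  have t0 : ∀ k : DV p r, sq k < p ^ r - 1 → ∑ d, a d * (bin d k : κ) = 0 := by
    intro k hk
    rw [A.T]
    by_contra h1
    rcases A.supp h1 with h2 | h2 <;> omega
  have e1 := split (fun _ => 1)
  simp only [mul_one] at e1
  rw [t0 h (by omega)] at e1
  -- composition
  have e2 : ∑ k : DV p r with sq k = p ^ r - 2, (∑ d, a d * (bin d k : κ)) * (bin k h : κ) = 0 := by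
    apply Finset.sum_eq_zero
    intro k hk
    rw [Finset.mem_filter] at hk
    rw [t0 k (by omega), zero_mul]
  have e3 : ∑ k : DV p r with sq k = p ^ r - 2, (∑ d, a d * (bin d k : κ)) * (bin k h : κ) =
      ∑ d, a d * (bin d h : κ) * (((sq d - sq h).choose (m - 1) : ℕ) : κ) := by
    simp only [Finset.sum_mul]
    rw [Finset.sum_comm]
    apply Finset.sum_congr rfl
    intro d _
    have := bin_comp_coeff (R := κ) (fun k : Fin r × Fin 4 => (k.1 : ℕ)) d h (p ^ r - 2)
      (by change sq h ≤ _; omega)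
    change ∑ k : DV p r with sq k = p ^ r - 2, ((bin d k : κ) * (bin k h : κ)) =
      (bin d h : κ) * ((sq d - sq h).choose (p ^ r - 2 - sq h) : κ) at this
    simp only [mul_assoc]
    rw [← Finset.mul_sum, this, show p ^ r - 2 - sq h = m - 1 by omega]
  rw [e3] at e2
  have e5 := split (fun x => (((x - sq h).choose (m - 1) : ℕ) : κ))
  rw [e5] at e2
  rw [show p ^ r - 1 - sq h = (m - 1) + 1 by omega,
    show 2 * (p ^ r - 1) - sq h = p ^ r + (m - 1) by omega, choose_q r (m - 1) (by omega),
    Nat.choose_succ_self_right] at e2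
  have e4 : ((m - 1 : ℕ) : κ) * AA a h = 0 := by
    push_cast at e2 ⊢
    linear_combination e2 + e1
  rcases mul_eq_zero.1 e4 with h5 | h5
  · exfalso
    rw [CharP.cast_eq_zero_iff κ p] at h5
    have := Nat.le_of_dvd (by omega) h5
    omega
  · exact h5

/-- Claim 1 -/
theorem Rel.claim1 [CharP κ p] {a : DV p r → κ} (A : Rel a) (s : ℕ)
    (hs : ∀ d, a d ≠ 0 → s ≤ sp d) (d : DV p r) (hd : a d ≠ 0) (hds : sp d = s)
    (hdq : sq d = p ^ r - 1) : sq (rho d) = p ^ r - 1 := by
  have hp2 := hp.out.two_le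
  have hpq : p ≤ p ^ r := Nat.le_self_pow (NeZero.ne r) p
  rcases A.supp (A.F d hd) with h | h
  · exact h
  exfalso
  have h1 := sq_rho (by omega) d
  rw [h, hdq] at h1
  have h2 : col d 0 = 2 * p - 1 := by
    have h3 : (p ^ r - 1) * (col d 0 + 1) = (p ^ r - 1) * (2 * p) := by linarith
    have := Nat.eq_of_mul_eq_mul_left (by omega) h3
    omega
  have h3 : 2 * p - 1 ≤ p ^ r - 1 := by
    rw [← hdq, sq_col, ← h2]
    calc col d 0 = p ^ ((0 : Fin r) : ℕ) * col d 0 := by simp
      _ ≤ _ := Finset.single_le_sum (f := fun j : Fin r => p ^ (j : ℕ) * col d j)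
        (fun _ _ => Nat.zero_le _) (mem_univ (0 : Fin r))
  -- the function on the digits of column `0`
  obtain ⟨a', ha'⟩ : ∃ a' : (Fin 4 → Fin p) → κ, ∀ e, a' e = if sm e = 2 * p - 1 then a (upd d e)
    else 0 := ⟨_, fun _ => rfl⟩
  have key : ∀ e, p - 1 ≤ sm e → sm e + 2 ≤ 2 * p - 1 → ∑ e', a' e' * (bin e' e : κ) = 0 := by
    intro e he1 he2
    have hsq := sq_upd d e
    have hsp := sp_upd d e
    have hA := A.D1 (upd d e) (2 * p - 1 - sm e) (by omega) (by omega) (by omega)
    rw [← hA, AA]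
    rw [← Finset.sum_subset (Finset.subset_univ (univ.image (upd d)))]
    · rw [Finset.sum_image (fun x _ y _ hxy => upd_inj d hxy)]
      apply Finset.sum_congr rfl
      intro e' _
      rw [ha', bin_upd]
      have := sq_upd d e'
      by_cases hc : sm e' = 2 * p - 1
      · rw [if_pos hc, if_pos (by omega)]
      · rw [if_neg hc, if_neg (by omega), zero_mul]
    · intro d' _ hd'
      split_ifs with hq
      · by_contra hne
        have had' : a d' ≠ 0 := fun h => hne (by rw [h, zero_mul])
        have hb' : bin d' (upd d e) ≠ 0 := fun h => hne (by rw [h, Nat.cast_zero, mul_zero])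
        have hle := bin_ne hb'
        apply hd'
        rw [Finset.mem_image]
        refine ⟨fun i => d' (0, i), mem_univ _, ?_⟩
        have e0 : ∀ k : Fin r × Fin 4, k.1 ≠ 0 → d' k = d k := by
          intro k hk
          have s1 : ∑ k : Fin r × Fin 4, p ^ (k.1 : ℕ) * ((d' k : ℕ) - upd d e k) =
            sq d' - sq (upd d e) := wt_sub hle
          have s2 : ∑ k : Fin r × Fin 4, ((d' k : ℕ) - upd d e k) + sp (upd d e) = sp d' := by
            rw [sp, sp, ← Finset.sum_add_distrib]
            exact Finset.sum_congr rfl fun k _ => Nat.sub_add_cancel (hle k)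
          have s3 := hs d' had'
          have s4 : ∑ k : Fin r × Fin 4, p ^ (k.1 : ℕ) * ((d' k : ℕ) - upd d e k) ≤
            ∑ k : Fin r × Fin 4, ((d' k : ℕ) - upd d e k) := by omega
          have s5 : ∀ k : Fin r × Fin 4, ((d' k : ℕ) - upd d e k) ≤
              p ^ (k.1 : ℕ) * ((d' k : ℕ) - upd d e k) := fun k =>
            Nat.le_mul_of_pos_left _ (Nat.pow_pos (by omega))
          have s6 := (Finset.sum_eq_sum_iff_of_le (fun k _ => s5 k)).1
            (le_antisymm (Finset.sum_le_sum fun k _ => s5 k) s4) k (mem_univ _)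
          have s7 : 2 ≤ p ^ (k.1 : ℕ) := by
            have : (k.1 : ℕ) ≠ 0 := fun h => hk (Fin.ext (by simpa using h))
            exact hp2.trans (Nat.le_self_pow this p)
          have s8 : (d' k : ℕ) - upd d e k = 0 := by
            by_contra hx
            have : 2 * ((d' k : ℕ) - upd d e k) ≤ p ^ (k.1 : ℕ) * ((d' k : ℕ) - upd d e k) :=
              Nat.mul_le_mul_right _ s7
            omega
          have s9 := hle k
          have s10 : upd d e k = d k := by simp [upd, hk]
          rw [s10] at s8 s9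
          exact Fin.ext (by omega)
        exact upd_self d' d e0
      · rfl
  have key2 : ∀ e, sm e + 2 ≤ 2 * p - 1 → ∑ e', a' e' * (bin e' e : κ) = 0 := by
    intro e he
    rcases Nat.lt_or_ge (sm e) (p - 1) with hlt | hge
    · have c1 : ∑ θ : Fin 4 → Fin p with sm θ = p - 1,
          (∑ e', a' e' * (bin e' θ : κ)) * (bin θ e : κ) = 0 := by
        apply Finset.sum_eq_zero
        intro θ hθ
        rw [Finset.mem_filter] at hθ
        rw [key θ (by omega) (by omega), zero_mul]
      simp only [Finset.sum_mul] at c1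
      rw [Finset.sum_comm] at c1
      rw [← c1]
      apply Finset.sum_congr rfl
      intro e' _
      simp only [mul_assoc]
      rw [← Finset.mul_sum]
      have c2 := bin_comp_coeff (R := κ) (fun _ : Fin 4 => 0) e' e (p - 1)
        (by rw [sm_wt]; omega)
      simp only [sm_wt] at c2
      rw [c2]
      by_cases hc : sm e' = 2 * p - 1
      · have c3 : sm e' - sm e = p ^ 1 + (p - 1 - sm e) := by rw [pow_one]; omega
        rw [c3, choose_q 1 _ (by rw [pow_one]; omega), mul_one]
      · rw [ha', if_neg hc, zero_mul, zero_mul]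
    · exact key e hge he
  have h4 := lemA a' (by
    intro e he
    rw [ha'] at he
    by_contra hc
    rw [if_neg hc] at he
    exact he rfl) key2
  have h5 := congrFun h4 (fun i => d (0, i))
  rw [ha', if_pos (by rw [← h2]; rfl), upd_self d d (fun _ _ => rfl)] at h5
  exact hd h5

theorem Rel.zero [CharP κ p] {a : DV p r → κ} (A : Rel a) : a = 0 := by
  classical
  have hp2 := hp.out.two_le
  have hpq : p ≤ p ^ r := Nat.le_self_pow (NeZero.ne r) p
  by_contra hne
  have hex : (univ.filter fun d => a d ≠ 0).Nonempty := by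
    by_contra h
    rw [Finset.not_nonempty_iff_eq_empty, Finset.filter_eq_empty_iff] at h
    apply hne
    funext d
    by_contra hd
    exact h (mem_univ d) hd
  obtain ⟨d0, hd0, hmin⟩ := Finset.exists_min_image _ sp hex
  rw [Finset.mem_filter] at hd0
  have hmin' : ∀ d, a d ≠ 0 → sp d0 ≤ sp d := fun d hd =>
    hmin d (Finset.mem_filter.2 ⟨mem_univ _, hd⟩)
  have colj : ∀ (d : DV p r) (j : Fin r), col (rho^[(j : ℕ)] d) 0 = col d j := by
    intro d j
    rw [col_iter]
    congr 1
    apply Fin.ext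
    rw [Fin.val_add, Fin.val_ofNat]
    simp [Nat.mod_eq_of_lt j.2]
  have Fit : ∀ (n : ℕ) (d : DV p r), a d ≠ 0 → a (rho^[n] d) ≠ 0 := by
    intro n
    induction n with
    | zero => intro d hd; exact hd
    | succ n ih =>
      intro d hd
      rw [Function.iterate_succ_apply]
      exact ih _ (A.F d hd)
  -- Claim 2
  have c2 : ∀ d, a d ≠ 0 → sp d = sp d0 → sq d ≠ p ^ r - 1 := by
    intro d hd hsp hsq
    have all : ∀ n, sq (rho^[n] d) = p ^ r - 1 := by
      intro n
      induction n with
      | zero => exact hsq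
      | succ n ih =>
        rw [Function.iterate_succ_apply']
        exact A.claim1 (sp d0) hmin' _ (Fit n d hd) (by rw [sp_iter, hsp]) ih
    apply hd
    apply A.H
    intro j
    rw [← colj]
    have h1 := sq_rho (by omega) (rho^[(j : ℕ)] d)
    rw [← Function.iterate_succ_apply' rho, all, all] at h1
    have h3 : (p ^ r - 1) * (col (rho^[(j : ℕ)] d) 0 + 1) = (p ^ r - 1) * p := by linarith
    have := Nat.eq_of_mul_eq_mul_left (by omega) h3
    omega
  -- Claim 3
  have c3 : sp d0 = r * (2 * p - 2) := by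
    have all : ∀ n, sq (rho^[n] d0) = 2 * (p ^ r - 1) := by
      intro n
      rcases A.supp (Fit n d0 hd0.2) with h | h
      · exact absurd h (c2 _ (Fit n d0 hd0.2) (sp_iter d0 n))
      · exact h
    rw [sp_col]
    have : ∀ j : Fin r, col d0 j = 2 * p - 2 := by
      intro j
      rw [← colj]
      have h1 := sq_rho (by omega) (rho^[(j : ℕ)] d0)
      rw [← Function.iterate_succ_apply' rho, all, all] at h1
      have h3 : (p ^ r - 1) * (col (rho^[(j : ℕ)] d0) 0 + 2) = (p ^ r - 1) * (2 * p) := by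
        linarith
      have := Nat.eq_of_mul_eq_mul_left (by omega) h3
      omega
    rw [Finset.sum_congr rfl fun j _ => this j]
    simp
  -- Claim 4
  have c4 : ∀ d, a d ≠ 0 → sq d = 2 * (p ^ r - 1) := by
    intro d hd
    rcases A.supp hd with h | h
    swap
    · exact h
    exfalso
    have h1 := hmin' d hd
    rw [c3] at h1
    -- `y n`
    have y1 : ∀ n, sq (rho^[n] d) ≤ 2 * (p ^ r - 1) := by
      intro n
      rcases A.supp (Fit n d hd) with h | h <;> omega
    have y2 : ∀ j : Fin r, p * sq (rho^[(j : ℕ) + 1] d) = sq (rho^[(j : ℕ)] d) +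
        (p ^ r - 1) * col d j := by
      intro j
      rw [Function.iterate_succ_apply', sq_rho (by omega), colj]
    have y3 : sq (rho^[r] d) = sq d := by
      rw [sq_col, sq_col]
      apply Finset.sum_congr rfl
      intro j _
      rw [col_iter]
      congr 2
      apply Fin.ext
      rw [Fin.val_add, Fin.val_ofNat, Nat.mod_self, add_zero, Nat.mod_eq_of_lt j.2]
    have y4 : ∑ j : Fin r, sq (rho^[(j : ℕ) + 1] d) = ∑ j : Fin r, sq (rho^[(j : ℕ)] d) := by
      rw [Fin.sum_univ_eq_sum_range (fun n => sq (rho^[n + 1] d)) r,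
        Fin.sum_univ_eq_sum_range (fun n => sq (rho^[n] d)) r]
      have := Finset.sum_range_succ (fun n => sq (rho^[n] d)) r
      have h2 := Finset.sum_range_succ' (fun n => sq (rho^[n] d)) r
      simp only [Function.iterate_zero, id] at h2
      omega
    have y5 : ∑ j : Fin r, p * sq (rho^[(j : ℕ) + 1] d) = ∑ j : Fin r, (sq (rho^[(j : ℕ)] d) +
        (p ^ r - 1) * col d j) := Finset.sum_congr rfl fun j _ => y2 j
    rw [← Finset.mul_sum, y4, Finset.sum_add_distrib, ← Finset.mul_sum, ← sp_col] at y5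
    have y6 : ∑ j : Fin r, sq (rho^[(j : ℕ)] d) + (p ^ r - 1) ≤ r * (2 * (p ^ r - 1)) := by
      have e1 : ∑ j : Fin r, (sq (rho^[(j : ℕ)] d) + if j = 0 then (p ^ r - 1) else 0) ≤
          ∑ j : Fin r, 2 * (p ^ r - 1) := by
        apply Finset.sum_le_sum
        intro j _
        split_ifs with hj
        · subst hj
          have : ((0 : Fin r) : ℕ) = 0 := by simp
          rw [this]
          simp only [Function.iterate_zero, id]
          omega
        · have := y1 j; omega
      rw [Finset.sum_add_distrib, Finset.sum_ite_eq', if_pos (mem_univ _)] at e1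
      simpa using e1
    -- conclusion
    have hp1 : ∃ P, p = P + 2 := ⟨p - 2, by omega⟩
    obtain ⟨P, hP⟩ := hp1
    have hQ : ∃ Q, p ^ r - 1 = Q + 1 := ⟨p ^ r - 2, by omega⟩
    obtain ⟨Q, hQ⟩ := hQ
    rw [hQ] at y5 y6
    generalize ∑ j : Fin r, sq (rho^[(j : ℕ)] d) = Y at y5 y6
    generalize sp d = X at y5 h1
    have z1 : (P + 1) * Y = (Q + 1) * X := by
      have : p * Y = Y + (P + 1) * Y := by rw [hP]; ring
      omega
    have z2 : r * (2 * (P + 1)) ≤ X := by
      have : 2 * p - 2 = 2 * (P + 1) := by omega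
      rwa [this] at h1
    have z3 : (P + 1) * Y < (P + 1) * (r * (2 * (Q + 1))) :=
      Nat.mul_lt_mul_of_pos_left (by omega) (by omega)
    have z4 : (Q + 1) * (r * (2 * (P + 1))) ≤ (Q + 1) * X := Nat.mul_le_mul_left _ z2
    have z5 : (P + 1) * (r * (2 * (Q + 1))) = (Q + 1) * (r * (2 * (P + 1))) := by ring
    omega
  exact hne (A.zero_of c4)

end Pool.Agent.J4H98.HP
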