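import Pool.Agent.J4H98.HP.Defs
import Pool.Agent.TH828.DM.Main1
import Pool.Agent.N814.DR.Space

/-!
# Project HP, stage 2: Drinfeld modular forms, definitions

`C` is a complete algebraically closed nonarchimedean field containing `A = Fq[X]` through `X ↦ t`,
`1 < ‖t‖`; `Omega Fq t = C ∖ K_∞`.
-/

open Polynomial Matrix Filter Topology

namespace Pool.Agent.J4H98.HP

open Pool.Agent.TH828.DM (Omega OmegaN IsRigidAnalytic expA res HasRes)
open Pool.Agent.N814.DR (slash SmallAtInfinity)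

variable {Fq : Type} [Field Fq] {C : Type} [NontriviallyNormedField C] [Algebra Fq C]

/-- `|z|_i = inf_{x ∈ K_∞} |z - x| ≥ ρ` -/
def Far (Fq : Type) [Field Fq] {C : Type} [NontriviallyNormedField C] [Algebra Fq C] (t : C)
    (ρ : ℝ) (z : C) : Prop :=
  ∀ x ∈ Pool.Agent.TH828.DM.Kinf Fq t, ρ ≤ ‖z - x‖

/-- `f z = ∑ a_i T(z)^i` for `|z|_i` large, where `T = 1 / (ϖ e_A)` (the usual parameter at infinity,
if `ϖ` is the Carlitz period) -/
def HasExp (Fq : Type) [Field Fq] {C : Type} [NontriviallyNormedField C] [Algebra Fq C] (t ϖ : C)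
    (f : C → C) (a : ℕ → C) : Prop :=
  ∃ R : ℝ, ∀ z ∈ Omega Fq t, Far Fq t R z →
    HasSum (fun i => a i * (ϖ * expA Fq t z)⁻¹ ^ i) (f z)

/-- `f` has an expansion at infinity with `a_0 = a_1 = 0` -/
def DC (Fq : Type) [Field Fq] {C : Type} [NontriviallyNormedField C] [Algebra Fq C] (t ϖ : C)
    (f : C → C) : Prop := ∃ a, HasExp Fq t ϖ f a ∧ a 0 = 0 ∧ a 1 = 0

/-- the doubly cuspidal forms of weight `2` and type `1` for `Γ₀(n)`, `n` prime -/
structure IsMM (t ϖ : C) (n : Fq[X]) (f : C → C) : Prop where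
  supp : ∀ z, z ∉ Omega Fq t → f z = 0
  rigid : IsRigidAnalytic Fq t f
  inv : ∀ γ : Matrix (Fin 2) (Fin 2) Fq[X], IsUnit γ.det → n ∣ γ 1 0 → slash Fq t 2 1 γ f = f
  inf : DC Fq t ϖ f
  zero : DC Fq t ϖ (slash Fq t 2 1 !![0, 1; n, 0] f)

/-- the matrices `(a b; 0 d)` over `A` -/
def heckeMset (n m : Fq[X]) : Set (Matrix (Fin 2) (Fin 2) Fq[X]) :=
  {h | ∃ a b d : Fq[X], a.Monic ∧ d.Monic ∧ a * d = m ∧ IsCoprime a n ∧ b.degree < d.degree ∧
    h = !![a, b; 0, d]}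

/-- the Hecke operator `T_m` on modular forms -/
noncomputable def heckeM (t : C) (n m : Fq[X]) (f : C → C) : C → C :=
  ∑ᶠ h ∈ heckeMset n m, slash Fq t 2 1 h f

/-! ### working definitions -/

/-- standing assumptions: `s² = t`, `ι : F_q((π)) → C` is the embedding with image `K_∞` -/
structure Sta (t s : C) (ι : Kinf Fq →+* C) : Prop where
  ht : 1 < ‖t‖
  hs : s ^ 2 = t
  emb : ∀ a : Fq[X], ι (emb Fq a) = aeval t a
  norm : ∀ x : Kinf Fq, x ≠ 0 → ‖ι x‖ = ‖t‖ ^ (-x.order)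
  range : ∀ y, y ∈ Pool.Agent.TH828.DM.Kinf Fq t ↔ ∃ x, ι x = y

/-- the action of weight `2` and type `1` of `GL₂(K_∞)` -/
noncomputable def sl (t : C) (ι : Kinf Fq →+* C) (g : G Fq) (f : C → C) : C → C :=
  (Omega Fq t).indicator fun z => ι g.1.det * ((ι (g.1 1 0) * z + ι (g.1 1 1)) ^ 2)⁻¹ *
    f ((ι (g.1 0 0) * z + ι (g.1 0 1)) / (ι (g.1 1 0) * z + ι (g.1 1 1)))

/-- invariance under translations by `A` -/
def Per (Fq : Type) [Field Fq] {C : Type} [NontriviallyNormedField C] [Algebra Fq C] (t : C)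
    (f : C → C) : Prop := ∀ a : Fq[X], ∀ z ∈ Omega Fq t, f (z + aeval t a) = f z

/-- `|f z| |z|_i` is bounded -/
def GB (Fq : Type) [Field Fq] {C : Type} [NontriviallyNormedField C] [Algebra Fq C] (t : C)
    (f : C → C) : Prop :=
  ∃ B : ℝ, ∀ z ∈ Omega Fq t, ∀ ρ : ℝ, 0 ≤ ρ → Far Fq t ρ z → ‖f z‖ * ρ ≤ B

/-- the cochain of residues `g ↦ res_{|z| = |s|} (f|g)` -/
noncomputable def rc [Fintype Fq] (t s : C) (ι : Kinf Fq →+* C) (f : C → C) (g : G Fq) : C :=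
  res (Fintype.card Fq) (sl t ι g f) 0 s

/-- the point `∑ w_i π^(i+1)` -/
noncomputable def uu {k : ℕ} (w : Fin k → Fq) : Kinf Fq :=
  ∑ i : Fin k, HahnSeries.single (((i : ℕ) : ℤ) + 1) (w i)

end Pool.Agent.J4H98.HP
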