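import Mathlib

/-!
# Project HP (MP_574a97_nt): definitions

`A = F_q[T] = Fq[X]`, `K_∞ = F_q((π))`, `π = 1/T`.
-/

open Polynomial Matrix

namespace Pool.Agent.J4H98.HP

section
variable (Fq : Type) [Field Fq]

/-- `K_∞ = F_q((π))`, `π = 1/T`. -/
abbrev Kinf : Type := LaurentSeries Fq

/-- the uniformizer `π` -/
noncomputable def unif : Kinf Fq := HahnSeries.single (1 : ℤ) (1 : Fq)

/-- the embedding `A = F_q[T] → K_∞`, `T ↦ π⁻¹` -/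
noncomputable def emb : Fq[X] →+* Kinf Fq :=
  Polynomial.eval₂RingHom (HahnSeries.C : Fq →+* HahnSeries ℤ Fq) (HahnSeries.single (-1 : ℤ) (1 : Fq))

/-- `x ∈ π^k O_∞` -/
def Val {Fq : Type} [Field Fq] (k : ℤ) (x : Kinf Fq) : Prop := ∀ i < k, x.coeff i = 0

/-- `GL₂(K_∞)` -/
abbrev G : Type := GL (Fin 2) (Kinf Fq)

/-- a matrix of nonzero determinant as an element of `GL₂(K_∞)` -/
noncomputable def gl {Fq : Type} [Field Fq] (M : Matrix (Fin 2) (Fin 2) (Kinf Fq)) : G Fq :=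
  open Classical in if h : M.det ≠ 0 then GeneralLinearGroup.mkOfDetNeZero M h else 1

/-- the Iwahori subgroup -/
def Iwahori : Set (G Fq) :=
  {κ | (∀ i j, Val 0 (κ.1 i j)) ∧ Val 1 (κ.1 1 0) ∧ κ.1.det.coeff 0 ≠ 0}

end

/-- `F` is a harmonic cochain on the tree of `PGL₂(K_∞)`, as a function on `GL₂(K_∞)` -/
structure IsCochain {Fq : Type} [Field Fq] [Fintype Fq] {R : Type} [AddCommGroup R]
    (F : G Fq → R) : Prop where
  iwahori : ∀ g, ∀ κ ∈ Iwahori Fq, F (g * κ) = F g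
  center : ∀ g, ∀ z : Kinf Fq, z ≠ 0 → F (g * gl !![z, 0; 0, z]) = F g
  reverse : ∀ g, F (g * gl !![0, 1; unif Fq, 0]) = -F g
  harmonic : ∀ g, F g + ∑ c : Fq, F (g * gl !![HahnSeries.C c, 1; 1, 0]) = 0

/-- `Γ₀(n)` inside `GL₂(K_∞)` -/
def Gam0 {Fq : Type} [Field Fq] (n : Fq[X]) : Set (G Fq) :=
  {γ | ∃ a b c d : Fq[X], IsUnit (a * d - b * c) ∧ n ∣ c ∧
    γ.1 = !![emb Fq a, emb Fq b; emb Fq c, emb Fq d]}

/-- finite support modulo `Γ₀(n)` (and modulo the centre and the Iwahori group) -/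
def FinSupp {Fq : Type} [Field Fq] (n : Fq[X]) {R : Type} [AddCommGroup R] (F : G Fq → R) : Prop :=
  ∃ S : Set (G Fq), S.Finite ∧ ∀ g, F g ≠ 0 →
    ∃ γ ∈ Gam0 n, ∃ s ∈ S, ∃ κ ∈ Iwahori Fq, ∃ z : Kinf Fq, z ≠ 0 ∧
      g = γ * s * κ * gl !![z, 0; 0, z]

/-- cuspidal harmonic cochains for `Γ₀(n)` -/
structure IsHarm {Fq : Type} [Field Fq] [Fintype Fq] (n : Fq[X]) {R : Type} [AddCommGroup R]
    (F : G Fq → R) : Prop where
  cochain : IsCochain F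
  inv : ∀ γ ∈ Gam0 n, ∀ g, F (γ * g) = F g
  cusp : FinSupp n F

/-- the matrices `(a b; 0 d)`, `a, d` monic, `a d = m`, `(a, n) = 1`, `deg b < deg d` -/
def heckeSet {Fq : Type} [Field Fq] (n m : Fq[X]) : Set (G Fq) :=
  {h | ∃ a b d : Fq[X], a.Monic ∧ d.Monic ∧ a * d = m ∧ IsCoprime a n ∧ b.degree < d.degree ∧
    h.1 = !![emb Fq a, emb Fq b; 0, emb Fq d]}

/-- the Hecke operator `T_m` -/
noncomputable def hecke {Fq : Type} [Field Fq] (n m : Fq[X]) {R : Type} [AddCommGroup R]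
    (F : G Fq → R) : G Fq → R :=
  fun g => ∑ᶠ h ∈ heckeSet n m, F (h * g)

/-- the coefficient `c_1(F)` -/
noncomputable def c1 {Fq : Type} [Field Fq] {R : Type} [AddCommGroup R] (F : G Fq → R) : R :=
  -F (gl !![unif Fq ^ 2, unif Fq; 0, 1])

/-! ### Abstract families -/

/-- the polynomial `∑ v_i T^i` of degree `< m` -/
noncomputable def pol {Fq : Type} [Field Fq] {m : ℕ} (v : Fin m → Fq) : Fq[X] :=
  ∑ i, C (v i) * X ^ (i : ℕ)

/-- the edge `δ (π^k u; 0 1)` -/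
noncomputable def edge {Fq : Type} [Field Fq] (δ : Matrix (Fin 2) (Fin 2) Fq[X]) (k : ℤ)
    (u : Kinf Fq) : G Fq :=
  gl (δ.map (emb Fq)) * gl !![HahnSeries.single k (1 : Fq), u; 0, 1]

/-- the denominator `c u + d` -/
noncomputable def den {Fq : Type} [Field Fq] (γ : Matrix (Fin 2) (Fin 2) Fq[X]) (u : Kinf Fq) :
    Kinf Fq := emb Fq (γ 1 0) * u + emb Fq (γ 1 1)

/-- the numerator `a u + b` -/
noncomputable def num {Fq : Type} [Field Fq] (γ : Matrix (Fin 2) (Fin 2) Fq[X]) (u : Kinf Fq) :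
    Kinf Fq := emb Fq (γ 0 0) * u + emb Fq (γ 0 1)

/-- A family of ball functions `Φ δ k u`, `δ ∈ GL₂(A)`, `k ∈ ℤ`, `u ∈ K_∞` (`u` modulo `π^k`),
with the properties of a `Γ₀(n)`-invariant harmonic cochain `F`: `Φ δ k u = F (edge δ k u)`. -/
structure Fam0 {Fq : Type} [Field Fq] [Fintype Fq] (n : Fq[X]) {N : Type} [AddCommGroup N]
    (Φ : Matrix (Fin 2) (Fin 2) Fq[X] → ℤ → Kinf Fq → N) : Prop where
  congr : ∀ δ, IsUnit δ.det → ∀ k u u', Val k (u - u') → Φ δ k u = Φ δ k u'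
  sum : ∀ δ, IsUnit δ.det → ∀ k u, Φ δ k u = ∑ c : Fq, Φ δ (k + 1) (u + HahnSeries.single k c)
  moebA : ∀ δ γ, IsUnit δ.det → IsUnit γ.det → ∀ k u, den γ u ≠ 0 →
    Val ((den γ u).order + 1 - k) (emb Fq (γ 1 0)) →
    Φ (δ * γ) k u = Φ δ (k - 2 * (den γ u).order) (num γ u / den γ u)
  moebB : ∀ δ γ, IsUnit δ.det → IsUnit γ.det → ∀ k u, γ 1 0 ≠ 0 →
    Val (k - (γ 1 0).natDegree) (den γ u) →
    Φ (δ * γ) k u = -Φ δ (1 - k + 2 * (γ 1 0).natDegree) (emb Fq (γ 0 0) / emb Fq (γ 1 0))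
  inv : ∀ δ, IsUnit δ.det → ∀ γ : Matrix (Fin 2) (Fin 2) Fq[X], IsUnit γ.det → n ∣ γ 1 0 →
    Φ (γ * δ) = Φ δ

/-- the same for cuspidal `F` and `deg n = 4` -/
structure Fam {Fq : Type} [Field Fq] [Fintype Fq] (n : Fq[X]) {N : Type} [AddCommGroup N]
    (Φ : Matrix (Fin 2) (Fin 2) Fq[X] → ℤ → Kinf Fq → N) : Prop extends Fam0 n Φ where
  cuspInf : Φ 1 1 0 = 0
  cuspZero : Φ !![0, 1; 1, 0] (-3) 0 = 0

end Pool.Agent.J4H98.HP
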