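import Mathlib

/-!
# Digit vectors and binomial coefficients
-/

open Finset

namespace Pool.Agent.J4H98.HP

variable {p : ℕ} {ι : Type*} [Fintype ι] [DecidableEq ι]

/-- product of binomial coefficients -/
def bin (d h : ι → Fin p) : ℕ := ∏ k, (d k : ℕ).choose (h k)

omit [DecidableEq ι] in
theorem bin_ne {d h : ι → Fin p} (H : bin d h ≠ 0) : ∀ k, (h k : ℕ) ≤ d k := by
  intro k
  by_contra hk
  exact H (Finset.prod_eq_zero (mem_univ k) (Nat.choose_eq_zero_of_lt (by omega)))

theorem add_pow_fin {R : Type*} [CommSemiring R] (z t : R) (n : Fin p) :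
    (z + t) ^ (n : ℕ) = ∑ h : Fin p, ((n : ℕ).choose h : R) * z ^ (h : ℕ) * t ^ ((n : ℕ) - h) := by
  rw [add_pow, Finset.sum_fin_eq_sum_range]
  have hn := n.2
  rw [← Finset.sum_subset (s₁ := range ((n : ℕ) + 1)) (s₂ := range p)]
  · apply Finset.sum_congr rfl
    intro m hm
    have hm' : m < (n : ℕ) + 1 := Finset.mem_range.1 hm
    have : m < p := by omega
    simp only [this, dif_pos]
    ring
  · intro m hm
    have hm' : m < (n : ℕ) + 1 := Finset.mem_range.1 hm
    exact Finset.mem_range.2 (by omega)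
  · intro m hm hm2
    have hm' : m < p := Finset.mem_range.1 hm
    simp only [hm', dif_pos]
    have : (n : ℕ) < m := by
      by_contra h
      exact hm2 (Finset.mem_range.2 (by omega))
    rw [Nat.choose_eq_zero_of_lt this]
    simp

/-- the multi-binomial theorem -/
theorem prod_add_pow {R : Type*} [CommSemiring R] (z t : ι → R) (d : ι → Fin p) :
    ∏ k, (z k + t k) ^ (d k : ℕ) =
      ∑ h : ι → Fin p, (bin d h : R) * (∏ k, z k ^ (h k : ℕ)) * ∏ k, t k ^ ((d k : ℕ) - h k) := by
  simp only [add_pow_fin]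
  rw [Finset.prod_univ_sum, Fintype.piFinset_univ]
  apply Finset.sum_congr rfl
  intro h _
  rw [bin, Nat.cast_prod, ← Finset.prod_mul_distrib, ← Finset.prod_mul_distrib]

/-- `∑_j C(n,j) C(j,h) z^j = C(n,h) z^h (1+z)^(n-h)` -/
theorem choose_comp {R : Type*} [CommSemiring R] (z : R) (n h : Fin p) :
    ∑ j : Fin p, ((n : ℕ).choose j : R) * ((j : ℕ).choose h : R) * z ^ (j : ℕ) =
      ((n : ℕ).choose h : R) * z ^ (h : ℕ) * (1 + z) ^ ((n : ℕ) - h) := by
  have hn := n.2
  rcases le_or_gt (h : ℕ) n with hle | hlt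
  · rw [Finset.sum_fin_eq_sum_range, add_comm 1 z, add_pow, Finset.mul_sum]
    rw [← Finset.sum_subset (s₁ := Finset.Ico (h : ℕ) ((n : ℕ) + 1)) (s₂ := range p)]
    · rw [Finset.sum_Ico_eq_sum_range, show (n : ℕ) + 1 - h = (n : ℕ) - h + 1 by omega]
      apply Finset.sum_congr rfl
      intro m hm
      have hm' : m < (n : ℕ) - h + 1 := Finset.mem_range.1 hm
      have : (h : ℕ) + m < p := by omega
      simp only [this, dif_pos]
      have e := Nat.choose_mul (n := n) (k := h + m) (s := h) (by omega)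
      have e2 : ((n : ℕ).choose (h + m) : R) * (((h : ℕ) + m).choose h : R) =
        ((n : ℕ).choose h : R) * (((n : ℕ) - h).choose m : R) := by
        rw [← Nat.cast_mul, ← Nat.cast_mul, e]
        simp
      rw [e2, pow_add]
      ring
    · intro m hm
      have hm' := Finset.mem_Ico.1 hm
      exact Finset.mem_range.2 (by omega)
    · intro m hm hm2
      have hm' : m < p := Finset.mem_range.1 hm
      simp only [hm', dif_pos]
      rcases lt_or_ge m h with h1 | h1
      · rw [Nat.choose_eq_zero_of_lt h1]; simp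
      · have : (n : ℕ) < m := by
          by_contra h
          exact hm2 (Finset.mem_Ico.2 (by omega))
        rw [Nat.choose_eq_zero_of_lt this]; simp
  · rw [Nat.choose_eq_zero_of_lt hlt]
    simp only [Nat.cast_zero, zero_mul]
    apply Finset.sum_eq_zero
    intro j _
    rcases lt_or_ge (j : ℕ) h with h1 | h1
    · rw [Nat.choose_eq_zero_of_lt h1]; simp
    · rw [Nat.choose_eq_zero_of_lt (show (n : ℕ) < j by omega)]; simp

/-- weighted digit sum -/
def wt (P : ι → ℕ) (d : ι → Fin p) : ℕ := ∑ k, P k * (d k : ℕ)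

omit [DecidableEq ι] in
theorem wt_le {P : ι → ℕ} {d h : ι → Fin p} (H : ∀ k, (h k : ℕ) ≤ d k) : wt P h ≤ wt P d :=
  Finset.sum_le_sum fun k _ => Nat.mul_le_mul_left _ (H k)

omit [DecidableEq ι] in
theorem wt_sub {P : ι → ℕ} {d h : ι → Fin p} (H : ∀ k, (h k : ℕ) ≤ d k) :
    ∑ k, P k * ((d k : ℕ) - h k) = wt P d - wt P h := by
  have : ∑ k, P k * ((d k : ℕ) - h k) + wt P h = wt P d := by
    rw [wt, wt, ← Finset.sum_add_distrib]
    apply Finset.sum_congr rfl
    intro k _
    rw [← mul_add, Nat.sub_add_cancel (H k)]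
  omega

open Polynomial in
/-- composition: `∑_k C(d,k) C(k,h) X^(s k) = C(d,h) X^(s h) (1+X)^(s d - s h)` -/
theorem bin_comp {R : Type*} [CommRing R] [Fact p.Prime] [CharP R p] (e : ι → ℕ)
    (d h : ι → Fin p) :
    ∑ k : ι → Fin p, ((bin d k : R[X]) * (bin k h : R[X])) * X ^ wt (fun k => p ^ e k) k =
      (bin d h : R[X]) * X ^ wt (fun k => p ^ e k) h *
        (1 + X) ^ (wt (fun k => p ^ e k) d - wt (fun k => p ^ e k) h) := by
  have h1 : ∏ k, ∑ j : Fin p, (((d k : ℕ).choose j : R[X]) * ((j : ℕ).choose (h k) : R[X])) *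
      (X ^ p ^ e k) ^ (j : ℕ) = ∑ k : ι → Fin p, ((bin d k : R[X]) * (bin k h : R[X])) *
        X ^ wt (fun k => p ^ e k) k := by
    rw [Finset.prod_univ_sum, Fintype.piFinset_univ]
    apply Finset.sum_congr rfl
    intro k _
    rw [bin, bin, Nat.cast_prod, Nat.cast_prod, wt, ← Finset.prod_pow_eq_pow_sum,
      ← Finset.prod_mul_distrib, ← Finset.prod_mul_distrib]
    apply Finset.prod_congr rfl
    intro i _
    rw [pow_mul]
  rw [← h1]
  simp only [choose_comp]
  rw [Finset.prod_mul_distrib, Finset.prod_mul_distrib, bin, Nat.cast_prod]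
  have h2 : ∏ k, (X ^ p ^ e k : R[X]) ^ (h k : ℕ) = X ^ wt (fun k => p ^ e k) h := by
    rw [wt, ← Finset.prod_pow_eq_pow_sum]
    apply Finset.prod_congr rfl
    intro i _
    rw [pow_mul]
  rw [h2]
  by_cases H : bin d h = 0
  · have : (∏ k, ((d k : ℕ).choose (h k) : R[X])) = 0 := by
      rw [← Nat.cast_prod]
      have : (∏ k, (d k : ℕ).choose (h k)) = 0 := H
      rw [this]; simp
    rw [this]; simp
  · congr 1
    rw [← wt_sub (bin_ne H), ← Finset.prod_pow_eq_pow_sum]
    apply Finset.prod_congr rfl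
    intro i _
    rw [pow_mul]
    congr 1
    rw [add_pow_char_pow, one_pow]

open Polynomial in
/-- coefficient form of the composition rule -/
theorem bin_comp_coeff {R : Type*} [CommRing R] [Fact p.Prime] [CharP R p] (e : ι → ℕ)
    (d h : ι → Fin p) (N : ℕ) (hN : wt (fun k => p ^ e k) h ≤ N) :
    ∑ k : ι → Fin p with wt (fun k => p ^ e k) k = N, ((bin d k : R) * (bin k h : R)) =
      (bin d h : R) * ((wt (fun k => p ^ e k) d - wt (fun k => p ^ e k) h).choose
        (N - wt (fun k => p ^ e k) h) : R) := by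
  have H := congrArg (fun P : R[X] => P.coeff N) (bin_comp (R := R) e d h)
  simp only [Polynomial.finset_sum_coeff] at H
  rw [Finset.sum_filter]
  have h1 : ∀ k : ι → Fin p, (((bin d k : R[X]) * (bin k h : R[X])) *
      X ^ wt (fun k => p ^ e k) k).coeff N = if wt (fun k => p ^ e k) k = N then
        ((bin d k : R) * (bin k h : R)) else 0 := by
    intro k
    rw [← Nat.cast_mul, ← Polynomial.C_eq_natCast, Polynomial.coeff_C_mul, Polynomial.coeff_X_pow]
    split_ifs with h1 h2 h2
    · simp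
    · exact absurd h1.symm h2
    · exact absurd h2.symm h1
    · simp
  rw [Finset.sum_congr rfl fun k _ => h1 k] at H
  rw [H, mul_assoc, ← Polynomial.C_eq_natCast, Polynomial.coeff_C_mul]
  congr 1
  rw [Polynomial.coeff_X_pow_mul', if_pos hN, Polynomial.coeff_one_add_X_pow]

end Pool.Agent.J4H98.HP
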