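import Pool.Agent.J4H98.HP.Asm

/-!
# `c₁` is Gekeler's Fourier coefficient
-/

open Polynomial Matrix TensorProduct

namespace Pool.Agent.J4H98.HP

variable {Fq : Type} [Field Fq] [Fintype Fq]

theorem edge_one (k : ℤ) (u : Kinf Fq) :
    edge 1 k u = gl !![HahnSeries.single k (1 : Fq), u; 0, 1] := by
  rw [edge]
  have : (1 : Matrix (Fin 2) (Fin 2) Fq[X]).map (emb Fq) = 1 := by
    ext i j; fin_cases i <;> fin_cases j <;> simp
  rw [this, J4H97.HP.gl_one, one_mul]

theorem unif_sq : (unif Fq) ^ 2 = HahnSeries.single (2 : ℤ) (1 : Fq) := by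
  rw [unif, HahnSeries.single_pow]; simp

/-- Gekeler's formula for the Fourier coefficient at the trivial ideal,
`q⁻¹ ∑_{u ∈ (π)/(π²)} F(π² u; 0 1) η(-u)`. -/
theorem c1_fourier {n : Fq[X]} (hn : n.Monic) (h4 : n.natDegree = 4) {F : G Fq → ℤ}
    (HF : IsHarm n F) (ψ : AddChar Fq ℂ) (hψ : ψ ≠ 1) :
    (Fintype.card Fq : ℂ) * ((c1 F : ℤ) : ℂ) = ∑ a : Fq,
      (F (gl !![unif Fq ^ 2, HahnSeries.C a * unif Fq; 0, 1]) : ℂ) * ψ (-a) := by
  classical
  have H := HF.fam hn h4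
  have e2 : ∀ a : Fq, F (gl !![unif Fq ^ 2, HahnSeries.C a * unif Fq; 0, 1]) =
      F (edge 1 2 (HahnSeries.C a * unif Fq)) := by
    intro a; rw [edge_one, unif_sq]
  have e3 : ∀ a : Fq, a ≠ 0 → F (edge 1 2 (HahnSeries.C a * unif Fq)) = -c1 F := by
    intro a ha
    have := J4H8.HP.hom H.toFam0 2 (unif Fq) ha
    rw [this, c1, neg_neg, edge_one, unif_sq]
  have e4 : ∀ c : Fq, (HahnSeries.single (1 : ℤ) c : Kinf Fq) = HahnSeries.C c * unif Fq := by
    intro c
    rw [unif, HahnSeries.C_apply, HahnSeries.single_mul_single, zero_add, mul_one]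
  have e5 : F (edge 1 2 0) = (Fintype.card Fq - 1 : ℤ) * c1 F := by
    have h1 := H.sum 1 (by simp) 1 0
    rw [H.cuspInf] at h1
    simp only [zero_add, e4, show (1 + 1 : ℤ) = 2 by norm_num] at h1
    rw [← Finset.add_sum_erase _ _ (Finset.mem_univ (0 : Fq)), map_zero, zero_mul,
      Finset.sum_congr rfl fun a ha => e3 a (Finset.ne_of_mem_erase ha), Finset.sum_const,
      Finset.card_erase_of_mem (Finset.mem_univ _), Finset.card_univ, nsmul_eq_mul,
      Nat.cast_sub Fintype.card_pos] at h1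
    push_cast at h1
    linarith
  simp only [e2]
  rw [← Finset.add_sum_erase _ _ (Finset.mem_univ (0 : Fq)), map_zero, zero_mul, e5, neg_zero,
    AddChar.map_zero_eq_one]
  have e6 : ∑ a ∈ Finset.univ.erase (0 : Fq),
      (F (edge 1 2 (HahnSeries.C a * unif Fq)) : ℂ) * ψ (-a) = ((c1 F : ℤ) : ℂ) := by
    have h1 : ∀ a ∈ Finset.univ.erase (0 : Fq),
        (F (edge 1 2 (HahnSeries.C a * unif Fq)) : ℂ) * ψ (-a) = (-((c1 F : ℤ) : ℂ)) * ψ (-a) := by
      intro a ha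
      rw [e3 a (Finset.ne_of_mem_erase ha)]
      push_cast; ring
    rw [Finset.sum_congr rfl h1, ← Finset.mul_sum]
    have h2 : ∑ a : Fq, ψ (-a) = 0 := by
      rw [← AddChar.sum_eq_zero_of_ne_one hψ]
      exact Equiv.sum_comp (Equiv.neg Fq) (fun a => ψ a)
    rw [← Finset.add_sum_erase _ _ (Finset.mem_univ (0 : Fq)), neg_zero,
      AddChar.map_zero_eq_one] at h2
    have h3 : ∑ a ∈ Finset.univ.erase (0 : Fq), ψ (-a) = -1 := by linear_combination h2
    rw [h3]; ring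
  rw [e6]
  push_cast
  ring

end Pool.Agent.J4H98.HP
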