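import Pool.Agent.J4H98.HP.Dig

/-!
# Lemma A

A reduced homogeneous polynomial of degree `2p - 1` in four variables over a field of
characteristic `p`, with `P(Y + c) = P(Y) + c H(Y)`, is zero.
-/

open Finset

namespace Pool.Agent.J4H98.HP

variable {p : ℕ}

/-- sum of the digits -/
def sm (d : Fin 4 → Fin p) : ℕ := ∑ i, (d i : ℕ)

theorem sm_wt (d : Fin 4 → Fin p) : wt (fun _ => p ^ 0) d = sm d := by
  simp [wt, sm]

/-- `C(p^r + t, t) = 1` for `t < p^r` -/
theorem choose_q {R : Type*} [CommRing R] [Fact p.Prime] [CharP R p] (r t : ℕ) (ht : t < p ^ r) :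
    (((p ^ r + t).choose t : ℕ) : R) = 1 := by
  have h := congrArg (fun P : Polynomial R => P.coeff t) (show
    (1 + Polynomial.X : Polynomial R) ^ (p ^ r + t) = (1 + Polynomial.X ^ p ^ r) *
      (1 + Polynomial.X) ^ t by
    rw [pow_add, add_pow_char_pow, one_pow])
  simp only [Polynomial.coeff_one_add_X_pow] at h
  rw [h, add_mul, one_mul, Polynomial.coeff_add, Polynomial.coeff_one_add_X_pow,
    Polynomial.coeff_X_pow_mul', if_neg (by omega)]
  simp

theorem ident {κ R : Type} [Field κ] [CommRing R] (cc : κ →+* R) (U V : Fin 4 → R)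
    (a : (Fin 4 → Fin p) → κ) (ha : ∀ d, a d ≠ 0 → sm d = 2 * p - 1) :
    ∑ d : Fin 4 → Fin p, cc (a d) *
      ((∏ i, (U i + -V i) ^ (d i : ℕ)) * ∏ i, V i ^ (p - 1 - (d i : ℕ))) =
      ∑ h : Fin 4 → Fin p, (cc (∑ d : Fin 4 → Fin p, a d * (bin d h : κ)) *
        (-1) ^ (2 * p - 1 - sm h)) *
        ((∏ i, U i ^ (h i : ℕ)) * ∏ i, V i ^ (p - 1 - (h i : ℕ))) := by
  simp only [prod_add_pow, Finset.sum_mul, Finset.mul_sum, map_sum]
  rw [Finset.sum_comm]
  apply Finset.sum_congr rfl
  intro h _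
  apply Finset.sum_congr rfl
  intro d _
  by_cases hb : bin d h = 0
  · simp [hb]
  by_cases had : a d = 0
  · simp [had]
  have hle := bin_ne hb
  have e1 : ∏ k, (-V k) ^ ((d k : ℕ) - h k) = (-1) ^ (2 * p - 1 - sm h) *
      ∏ k, V k ^ ((d k : ℕ) - h k) := by
    have : ∀ k, (-V k) ^ ((d k : ℕ) - h k) = (-1) ^ ((d k : ℕ) - h k) *
        V k ^ ((d k : ℕ) - h k) := fun k => neg_pow (V k) _
    simp only [this]
    rw [Finset.prod_mul_distrib, Finset.prod_pow_eq_pow_sum]
    congr 2
    have : ∑ k, ((d k : ℕ) - h k) + sm h = sm d := by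
      rw [sm, sm, ← Finset.sum_add_distrib]
      exact Finset.sum_congr rfl fun k _ => Nat.sub_add_cancel (hle k)
    rw [ha d had] at this
    omega
  have e2 : (∏ k, V k ^ ((d k : ℕ) - h k)) * ∏ i, V i ^ (p - 1 - (d i : ℕ)) =
      ∏ i, V i ^ (p - 1 - (h i : ℕ)) := by
    rw [← Finset.prod_mul_distrib]
    apply Finset.prod_congr rfl
    intro i _
    rw [← pow_add]
    congr 1
    have := hle i
    have := (d i).2
    omega
  rw [e1, ← e2]
  simp only [map_mul, map_natCast]
  ring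

theorem lemA {κ : Type} [Field κ] [hp : Fact p.Prime] (a : (Fin 4 → Fin p) → κ)
    (ha : ∀ d, a d ≠ 0 → sm d = 2 * p - 1)
    (hD : ∀ h, sm h + 2 ≤ 2 * p - 1 → ∑ d, a d * (bin d h : κ) = 0) : a = 0 := by
  have hp2 := hp.out.two_le
  -- the identity in `S[t]`
  obtain ⟨Z, hZ⟩ : ∃ Z : Fin 4 → MvPolynomial (Fin 4) κ, ∀ i, Z i = MvPolynomial.X i - 1 :=
    ⟨_, fun _ => rfl⟩
  obtain ⟨U, hU⟩ : ∃ U : Fin 4 → Polynomial (MvPolynomial (Fin 4) κ),
    ∀ i, U i = Polynomial.X * Polynomial.C (Z i) := ⟨_, fun _ => rfl⟩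
  obtain ⟨V, hV⟩ : ∃ V : Fin 4 → Polynomial (MvPolynomial (Fin 4) κ),
    ∀ i, V i = 1 + U i := ⟨_, fun _ => rfl⟩
  obtain ⟨cc, hcc⟩ : ∃ cc : κ →+* Polynomial (MvPolynomial (Fin 4) κ),
    ∀ x, cc x = Polynomial.C (MvPolynomial.C x) :=
    ⟨(Polynomial.C : _ →+* Polynomial _).comp MvPolynomial.C, fun _ => rfl⟩
  -- left hand side
  obtain ⟨L, hLd⟩ : ∃ L : Polynomial (MvPolynomial (Fin 4) κ),
    L = ∑ d : Fin 4 → Fin p, cc (a d) * ∏ i, V i ^ (p - 1 - (d i : ℕ)) := ⟨_, rfl⟩
  have hL0 : L = (-1) ^ (2 * p - 1) * ∑ d : Fin 4 → Fin p, cc (a d) *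
      ((∏ i, (U i + -V i) ^ (d i : ℕ)) * ∏ i, V i ^ (p - 1 - (d i : ℕ))) := by
    rw [Finset.mul_sum, hLd]
    apply Finset.sum_congr rfl
    intro d _
    by_cases had : a d = 0
    · simp [had]
    · have h1 : ∏ i, (U i + -V i) ^ (d i : ℕ) = (-1) ^ (2 * p - 1) := by
        have : ∀ i, U i + -V i = -1 := by intro i; rw [hV]; ring
        simp only [this]
        rw [Finset.prod_pow_eq_pow_sum]
        congr 1
        exact ha d had
      rw [h1]
      have h2 : ((-1 : Polynomial (MvPolynomial (Fin 4) κ)) ^ (2 * p - 1)) *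
          (-1) ^ (2 * p - 1) = 1 := by
        rw [← mul_pow, show (-1 * -1 : Polynomial (MvPolynomial (Fin 4) κ)) = 1 by ring, one_pow]
      linear_combination (-(cc (a d) * ∏ i, V i ^ (p - 1 - (d i : ℕ)))) * h2
  rw [ident cc U V a ha] at hL0
  have hdvd : Polynomial.X ^ (2 * p - 2) ∣ L := by
    rw [hL0]
    apply Dvd.dvd.mul_left
    apply Finset.dvd_sum
    intro h _
    by_cases hh : sm h + 2 ≤ 2 * p - 1
    · rw [hD h hh, map_zero, zero_mul, zero_mul]; exact dvd_zero _
    · apply Dvd.dvd.mul_left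
      apply Dvd.dvd.mul_right
      have : ∏ i, U i ^ (h i : ℕ) = Polynomial.X ^ sm h * ∏ i, Polynomial.C (Z i) ^ (h i : ℕ) := by
        simp only [hU, mul_pow]
        rw [Finset.prod_mul_distrib, Finset.prod_pow_eq_pow_sum]
        rfl
      rw [this]
      apply Dvd.dvd.mul_right
      exact pow_dvd_pow _ (by omega)
  have hdeg : L.natDegree ≤ 2 * p - 3 := by
    rw [hLd]
    apply Polynomial.natDegree_sum_le_of_forall_le
    intro d _
    by_cases had : a d = 0
    · rw [had, map_zero, zero_mul, Polynomial.natDegree_zero]; omega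
    refine (Polynomial.natDegree_mul_le).trans ?_
    have h1 : (cc (a d)).natDegree = 0 := by
      rw [hcc, Polynomial.natDegree_C]
    rw [h1, zero_add]
    refine (Polynomial.natDegree_prod_le _ _).trans ?_
    have h2 : ∀ i, (V i ^ (p - 1 - (d i : ℕ))).natDegree ≤ p - 1 - (d i : ℕ) := by
      intro i
      refine Polynomial.natDegree_pow_le.trans ?_
      have : (V i).natDegree ≤ 1 := by
        rw [hV, hU]
        refine (Polynomial.natDegree_add_le _ _).trans ?_
        rw [Polynomial.natDegree_one, max_le_iff]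
        refine ⟨by omega, ?_⟩
        refine Polynomial.natDegree_mul_le.trans ?_
        have := Polynomial.natDegree_X_le (R := MvPolynomial (Fin 4) κ)
        rw [Polynomial.natDegree_C]
        omega
      calc _ ≤ (p - 1 - (d i : ℕ)) * 1 := Nat.mul_le_mul_left _ this
        _ = _ := by ring
    refine (Finset.sum_le_sum fun i _ => h2 i).trans ?_
    have h3 : ∑ i, (p - 1 - (d i : ℕ)) + sm d = 4 * (p - 1) := by
      rw [sm, ← Finset.sum_add_distrib]
      rw [Finset.sum_congr rfl (g := fun _ => p - 1)]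
      · simp
      · intro i _
        have := (d i).2
        omega
    rw [ha d had] at h3
    omega
  have hL : L = 0 := by
    by_contra hne
    have h1 : (Polynomial.X ^ (2 * p - 2) : Polynomial (MvPolynomial (Fin 4) κ)).natDegree
      ≤ L.natDegree := Polynomial.natDegree_le_of_dvd hdvd hne
    rw [Polynomial.natDegree_X_pow] at h1
    omega
  -- evaluate at `t = 1`
  rw [hLd] at hL
  have hE := congrArg (Polynomial.eval (1 : MvPolynomial (Fin 4) κ)) hL
  simp only [Polynomial.eval_finsetSum, Polynomial.eval_mul, Polynomial.eval_prod,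
    Polynomial.eval_pow, hV, hU, hZ, Polynomial.eval_add, Polynomial.eval_one, Polynomial.eval_X,
    Polynomial.eval_C, one_mul, add_sub_cancel, Polynomial.eval_zero, hcc] at hE
  funext d0
  have hm : ∀ d : Fin 4 → Fin p, (MvPolynomial.C (a d) * ∏ i, MvPolynomial.X i ^ (p - 1 - (d i : ℕ)) :
      MvPolynomial (Fin 4) κ) = MvPolynomial.monomial
        (Finsupp.equivFunOnFinite.symm fun i => p - 1 - (d i : ℕ)) (a d) := by
    intro d
    rw [MvPolynomial.monomial_eq]
    congr 1
    rw [Finsupp.prod_fintype _ _ (fun i => pow_zero _)]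
    rfl
  rw [Finset.sum_congr rfl fun d _ => hm d] at hE
  have hc := congrArg (MvPolynomial.coeff
    (Finsupp.equivFunOnFinite.symm fun i => p - 1 - (d0 i : ℕ))) hE
  rw [MvPolynomial.coeff_sum] at hc
  simp only [MvPolynomial.coeff_monomial, MvPolynomial.coeff_zero] at hc
  rw [Finset.sum_eq_single d0] at hc
  · simpa using hc
  · intro d _ hd
    rw [if_neg]
    intro h
    apply hd
    have h' := Finsupp.equivFunOnFinite.symm.injective h
    funext i
    have := congrFun h' i
    have := (d i).2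
    have := (d0 i).2
    apply Fin.ext
    omega
  · intro h; exact absurd (mem_univ _) h

end Pool.Agent.J4H98.HP
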