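import Pool.Agent.J4H98.HP.Comb2

/-!
# Reduced polynomials over `F_(q^4)` in terms of digit vectors
-/

open Finset

namespace Pool.Agent.J4H98.HP

variable {p r : ℕ}

/-- the position of a digit -/
def pos (k : Fin r × Fin 4) : ℕ := (k.1 : ℕ) + r * (k.2 : ℕ)

/-- the exponent -/
def w (d : DV p r) : ℕ := wt (fun k => p ^ pos k) d

/-- positions as `Fin (4 r)` -/
def posE : Fin r × Fin 4 ≃ Fin (4 * r) := (Equiv.prodComm _ _).trans finProdFinEquiv

theorem posE_val (k : Fin r × Fin 4) : ((posE k : Fin (4 * r)) : ℕ) = pos k := rfl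

theorem w_eq (d : DV p r) :
    w d = ((finFunctionFinEquiv (fun n => d (posE.symm n)) : Fin (p ^ (4 * r))) : ℕ) := by
  rw [finFunctionFinEquiv_apply, w, wt, ← Equiv.sum_comp posE]
  apply Finset.sum_congr rfl
  intro k _
  simp only [Equiv.symm_apply_apply, posE_val]
  ring

theorem w_lt (d : DV p r) : w d < p ^ (4 * r) := by
  rw [w_eq]; exact Fin.isLt _

theorem w_inj : Function.Injective (w (p := p) (r := r)) := by
  intro d d' h
  rw [w_eq, w_eq] at h
  have := finFunctionFinEquiv.injective (Fin.ext h)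
  funext k
  have h2 := congrFun this (posE k)
  simpa using h2

theorem card_DV : Fintype.card (DV p r) = p ^ (4 * r) := by
  simp [DV, mul_comm]

theorem w_cmp (hp : 1 ≤ p) (d : DV p r) : w d + w (cmp d) = p ^ (4 * r) - 1 := by
  rw [w, w, wt, wt, ← Finset.sum_add_distrib]
  have h1 : ∀ k : Fin r × Fin 4, p ^ pos k * (d k : ℕ) + p ^ pos k * (cmp d k : ℕ) =
      p ^ ((posE k : Fin (4 * r)) : ℕ) * (p - 1) := by
    intro k
    rw [posE_val, ← mul_add]
    congr 1
    have := (d k).2
    simp only [cmp, Fin.val_rev]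
    omega
  rw [Finset.sum_congr rfl fun k _ => h1 k,
    Equiv.sum_comp posE (fun n : Fin (4 * r) => p ^ (n : ℕ) * (p - 1))]
  exact geom hp

variable {κ : Type} [Field κ] [Fintype κ]

/-- uniqueness of reduced polynomials -/
theorem uniq (hκ : Fintype.card κ = p ^ (4 * r)) (a : DV p r → κ)
    (h : ∀ y : κ, ∑ d, a d * y ^ w d = 0) : a = 0 := by
  classical
  let P : Polynomial κ := ∑ d, Polynomial.C (a d) * Polynomial.X ^ w d
  have hP : P = 0 := by
    by_contra hne
    have hdeg : P.natDegree < Fintype.card κ := by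
      rw [hκ]
      have hpos : 0 < p ^ (4 * r) := by rw [← hκ]; exact Fintype.card_pos
      refine lt_of_le_of_lt (Polynomial.natDegree_sum_le_of_forall_le (n := p ^ (4 * r) - 1) _ _ ?_)
        (by omega)
      intro d _
      refine (Polynomial.natDegree_C_mul_X_pow_le _ _).trans ?_
      have := w_lt d
      omega
    have h1 : Fintype.card κ ≤ P.natDegree := by
      have := Polynomial.card_le_degree_of_subset_roots (p := P) (Z := (univ : Finset κ)) (by
        intro y _
        rw [Polynomial.mem_roots hne, Polynomial.IsRoot]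
        simp only [P, Polynomial.eval_finsetSum, Polynomial.eval_mul, Polynomial.eval_C,
          Polynomial.eval_pow, Polynomial.eval_X]
        exact h y)
      simpa using this
    omega
  funext d0
  have := congrArg (fun Q : Polynomial κ => Q.coeff (w d0)) hP
  simp only [P, Polynomial.finsetSum_coeff, Polynomial.coeff_C_mul, Polynomial.coeff_X_pow,
    Polynomial.coeff_zero] at this
  rw [Finset.sum_eq_single d0] at this
  · simpa using this
  · intro d _ hd
    rw [if_neg (fun h => hd (w_inj h.symm)), mul_zero]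
  · intro h; exact absurd (mem_univ _) h

/-- existence of reduced polynomials -/
theorem exis (hκ : Fintype.card κ = p ^ (4 * r)) (f : κ → κ) :
    ∃ a : DV p r → κ, ∀ y, f y = ∑ d, a d * y ^ w d := by
  classical
  let L : (DV p r → κ) →ₗ[κ] (κ → κ) :=
    { toFun := fun a y => ∑ d, a d * y ^ w d
      map_add' := by
        intro a b; funext y
        simp only [Pi.add_apply, add_mul, Finset.sum_add_distrib]
      map_smul' := by
        intro c a; funext y
        simp only [Pi.smul_apply, smul_eq_mul, RingHom.id_apply, Finset.mul_sum, mul_assoc] }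
  have hinj : Function.Injective L := by
    rw [injective_iff_map_eq_zero]
    intro a ha
    exact uniq hκ a fun y => congrFun ha y
  have hfr : Module.finrank κ (DV p r → κ) = Module.finrank κ (κ → κ) := by
    rw [Module.finrank_fintype_fun_eq_card, Module.finrank_fintype_fun_eq_card, card_DV, hκ]
  obtain ⟨a, ha⟩ := (LinearMap.injective_iff_surjective_of_finrank_eq_finrank hfr).1 hinj f
  exact ⟨a, fun y => (congrFun ha y).symm⟩

/-- sums of powers -/
theorem sum_pow_eq [DecidableEq κ] (m : ℕ) (hm : 0 < m) :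
    ∑ y : κ, y ^ m = if (Fintype.card κ - 1) ∣ m then -1 else 0 := by
  rw [← FiniteField.sum_pow_units κ m]
  rw [← Finset.sum_erase (s := univ) (a := (0 : κ)) (f := fun y => y ^ m) (zero_pow (by omega))]
  symm
  apply Finset.sum_bij (fun (x : κˣ) _ => (x : κ))
  · intro x _; simp
  · intro x _ y _ h; exact Units.ext h
  · intro y hy
    have hy0 : y ≠ 0 := Finset.ne_of_mem_erase hy
    exact ⟨Units.mk0 y hy0, mem_univ _, rfl⟩
  · intro x _; rfl

theorem rho_bij [NeZero r] : Function.Bijective (rho (p := p) (r := r)) := by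
  have h := (Equiv.ofBijective _ (tau_bij (r := r)))
  constructor
  · intro d d' hd
    funext k
    obtain ⟨k', rfl⟩ := tau_bij.2 k
    exact congrFun hd k'
  · intro d
    refine ⟨fun k => d ((Equiv.ofBijective _ (tau_bij (r := r))).symm k), ?_⟩
    funext k
    simp only [rho]
    congr 1
    exact (Equiv.ofBijective _ (tau_bij (r := r))).symm_apply_apply k

theorem pos_tau [NeZero r] (k : Fin r × Fin 4) :
    pos (tau k) = pos k + 1 ∨ (pos (tau k) = 0 ∧ pos k + 1 = 4 * r) := by
  obtain ⟨j, i⟩ := k
  have hj := j.2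
  simp only [pos, tau]
  rcases Nat.lt_or_ge ((j : ℕ) + 1) r with h | h
  · have h1 : ((j + 1 : Fin r) : ℕ) = j + 1 := by rw [val_add_one, Nat.mod_eq_of_lt h]
    have h2 : (j + 1 : Fin r) ≠ 0 := by
      intro h3
      rw [h3] at h1
      simp at h1
    left
    rw [if_neg h2, h1]; ring
  · have h1 : ((j + 1 : Fin r) : ℕ) = 0 := by
      rw [val_add_one, show (j : ℕ) + 1 = r by omega, Nat.mod_self]
    have h2 : (j + 1 : Fin r) = 0 := Fin.ext (by simpa using h1)
    rw [if_pos h2, h1]
    fin_cases i
    · left; simp; omega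
    · left; simp; omega
    · left; simp; omega
    · right; simp; omega

theorem w_rho [NeZero r] (hκ : Fintype.card κ = p ^ (4 * r)) (d : DV p r) (y : κ) :
    y ^ (p * w (rho d)) = y ^ w d := by
  have h1 : p * w (rho d) = ∑ k : Fin r × Fin 4, p ^ (pos k + 1) * (d (tau k) : ℕ) := by
    rw [w, wt, Finset.mul_sum]
    apply Finset.sum_congr rfl
    intro k _
    rw [pow_succ', mul_assoc]; rfl
  rw [h1, w, wt, ← Finset.prod_pow_eq_pow_sum, ← Finset.prod_pow_eq_pow_sum]
  rw [← Equiv.prod_comp (Equiv.ofBijective _ (tau_bij (r := r)))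
    (fun k => y ^ (p ^ pos k * (d k : ℕ)))]
  apply Finset.prod_congr rfl
  intro k _
  simp only [Equiv.ofBijective_apply]
  rcases pos_tau k with h | ⟨h, h'⟩
  · rw [h]
  · rw [h, h', pow_mul y (p ^ (4 * r)), ← hκ, FiniteField.pow_card, pow_zero, one_mul]

end Pool.Agent.J4H98.HP
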