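import Pool.Agent.J4H98.HP.Mom

/-!
# The reduced polynomial of `Tr(z)^(q-1)`
-/

open Finset

namespace Pool.Agent.J4H98.HP

variable {p r : ℕ}

/-- multinomial coefficient -/
def mc (e : Fin 4 → Fin p) : ℕ :=
  if sm e = p - 1 then Nat.multinomial univ (fun i => (e i : ℕ)) else 0

theorem multi {R : Type*} [CommSemiring R] (hp : 1 ≤ p) (z : Fin 4 → R) :
    (∑ i, z i) ^ (p - 1) = ∑ e : Fin 4 → Fin p, (mc e : R) * ∏ i, z i ^ (e i : ℕ) := by
  classical
  rw [Finset.sum_pow_eq_sum_piAntidiag]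
  have h1 : ∀ e : Fin 4 → Fin p, (mc e : R) * ∏ i, z i ^ (e i : ℕ) =
      if sm e = p - 1 then (Nat.multinomial univ (fun i => (e i : ℕ)) : R) * ∏ i, z i ^ (e i : ℕ)
      else 0 := by
    intro e
    rw [mc]
    split_ifs <;> simp
  rw [Finset.sum_congr rfl fun e _ => h1 e, ← Finset.sum_filter]
  symm
  apply Finset.sum_bij (fun (e : Fin 4 → Fin p) _ => (fun i => (e i : ℕ)))
  · intro e he
    rw [Finset.mem_filter] at he
    rw [Finset.mem_piAntidiag]
    exact ⟨he.2, fun i _ => mem_univ i⟩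
  · intro e _ e' _ h
    funext i
    exact Fin.ext (congrFun h i)
  · intro k hk
    rw [Finset.mem_piAntidiag] at hk
    have hlt : ∀ i, k i < p := by
      intro i
      have : k i ≤ ∑ i, k i := Finset.single_le_sum (f := k) (fun _ _ => Nat.zero_le _) (mem_univ i)
      have h2 : ∑ i, k i = p - 1 := hk.1
      omega
    refine ⟨fun i => ⟨k i, hlt i⟩, ?_, rfl⟩
    rw [Finset.mem_filter]
    exact ⟨mem_univ _, hk.1⟩
  · intro e _; rfl

theorem mc_ne {κ : Type} [Field κ] [hp : Fact p.Prime] [CharP κ p] {e : Fin 4 → Fin p}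
    (he : sm e = p - 1) : (mc e : κ) ≠ 0 := by
  rw [mc, if_pos he]
  intro h
  rw [CharP.cast_eq_zero_iff κ p] at h
  have h1 := Nat.multinomial_spec univ (fun i => (e i : ℕ))
  have h2 : ∑ i, (e i : ℕ) = p - 1 := he
  rw [h2] at h1
  have h3 : p ∣ (p - 1).factorial := by
    rw [← h1]; exact Dvd.dvd.mul_left h _
  rw [hp.out.dvd_factorial] at h3
  have := hp.out.two_le
  omega

/-- the coefficient of `z^(w ε)` in `Tr(z)^(q-1)` -/
def tc (ε : DV p r) : ℕ := ∏ j : Fin r, mc (fun i => ε (j, i)) ^ p ^ (j : ℕ)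

theorem tc_ne {κ : Type} [Field κ] [hp : Fact p.Prime] [CharP κ p] {ε : DV p r}
    (he : ∀ j, col ε j = p - 1) : (tc ε : κ) ≠ 0 := by
  rw [tc, Nat.cast_prod]
  apply Finset.prod_ne_zero_iff.2
  intro j _
  rw [Nat.cast_pow]
  exact pow_ne_zero _ (mc_ne (he j))

theorem tc_zero [NeZero r] [hp : Fact p.Prime] : tc (0 : DV p r) = 0 := by
  rw [tc]
  apply Finset.prod_eq_zero (mem_univ (0 : Fin r))
  have h2 := hp.out.two_le
  rw [mc, if_neg, zero_pow (by positivity)]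
  have : sm (fun i : Fin 4 => (0 : DV p r) (0, i)) = 0 := by simp [sm]
  rw [this]; omega

theorem trace_pow {κ : Type} [Field κ] [hp : Fact p.Prime] [CharP κ p] (z : κ) :
    (∑ i : Fin 4, z ^ (p ^ r) ^ (i : ℕ)) ^ (p ^ r - 1) =
      ∑ ε : DV p r, (tc ε : κ) * z ^ w ε := by
  have hp1 : 1 ≤ p := hp.out.one_le
  rw [← geom hp1, ← Finset.prod_pow_eq_pow_sum]
  have h1 : ∀ j : Fin r, (∑ i : Fin 4, z ^ (p ^ r) ^ (i : ℕ)) ^ (p ^ (j : ℕ) * (p - 1)) =
      ∑ e : Fin 4 → Fin p, ((mc e : κ) ^ p ^ (j : ℕ)) *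
        ∏ i : Fin 4, z ^ (p ^ ((j : ℕ) + r * (i : ℕ)) * (e i : ℕ)) := by
    intro j
    rw [mul_comm, pow_mul, multi hp1, sum_pow_char_pow]
    apply Finset.sum_congr rfl
    intro e _
    rw [mul_pow, ← Finset.prod_pow]
    congr 1
    apply Finset.prod_congr rfl
    intro i _
    rw [← pow_mul, ← pow_mul, ← pow_mul, pow_add]
    congr 1
    ring
  rw [Finset.prod_congr rfl fun j _ => h1 j, Finset.prod_univ_sum, Fintype.piFinset_univ]
  rw [← Equiv.sum_comp (Equiv.curry (Fin r) (Fin 4) (Fin p))]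
  apply Finset.sum_congr rfl
  intro ε _
  rw [Finset.prod_mul_distrib, tc, Nat.cast_prod]
  congr 1
  · apply Finset.prod_congr rfl
    intro j _
    rw [Nat.cast_pow]; rfl
  · rw [w, wt, ← Finset.prod_pow_eq_pow_sum, Fintype.prod_prod_type]
    rfl

end Pool.Agent.J4H98.HP
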