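import Pool.Agent.J4H98.HP.Defs

/-!
# Definitions: the module of cuspidal cochains, the Hecke algebra, the pairings
-/

open Polynomial Matrix TensorProduct

namespace Pool.Agent.J4H98.HP

variable {Fq : Type} [Field Fq] [Fintype Fq]

theorem isHarm_zero (n : Fq[X]) : IsHarm n (0 : G Fq → ℤ) :=
  ⟨⟨fun _ _ _ => rfl, fun _ _ _ => rfl, fun _ => by simp, fun _ => by simp⟩,
      fun _ _ _ => rfl, ⟨∅, Set.finite_empty, fun g hg => absurd rfl hg⟩⟩

theorem IsHarm.add {n : Fq[X]} {F F' : G Fq → ℤ} (h : IsHarm n F) (h' : IsHarm n F') :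
    IsHarm n (F + F') := by
  refine ⟨⟨fun g κ hκ => ?_, fun g z hz => ?_, fun g => ?_, fun g => ?_⟩, fun γ hγ g => ?_, ?_⟩
  · simp only [Pi.add_apply, h.cochain.iwahori g κ hκ, h'.cochain.iwahori g κ hκ]
  · simp only [Pi.add_apply, h.cochain.center g z hz, h'.cochain.center g z hz]
  · simp only [Pi.add_apply, h.cochain.reverse g, h'.cochain.reverse g]; ring
  · have h1 := h.cochain.harmonic g
    have h2 := h'.cochain.harmonic g
    simp only [Pi.add_apply, Finset.sum_add_distrib]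
    linear_combination h1 + h2
  · simp only [Pi.add_apply, h.inv γ hγ g, h'.inv γ hγ g]
  · obtain ⟨S, hS, H⟩ := h.cusp
    obtain ⟨S', hS', H'⟩ := h'.cusp
    refine ⟨S ∪ S', hS.union hS', fun g hg => ?_⟩
    by_cases h0 : F g = 0
    · have h1 : F' g ≠ 0 := by
        intro h1; apply hg; simp [h0, h1]
      obtain ⟨γ, hγ, s, hs, r⟩ := H' g h1
      exact ⟨γ, hγ, s, Or.inr hs, r⟩
    · obtain ⟨γ, hγ, s, hs, r⟩ := H g h0
      exact ⟨γ, hγ, s, Or.inl hs, r⟩

theorem IsHarm.neg {n : Fq[X]} {F : G Fq → ℤ} (h : IsHarm n F) : IsHarm n (-F) := by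
  refine ⟨⟨fun g κ hκ => ?_, fun g z hz => ?_, fun g => ?_, fun g => ?_⟩, fun γ hγ g => ?_, ?_⟩
  · simp only [Pi.neg_apply, h.cochain.iwahori g κ hκ]
  · simp only [Pi.neg_apply, h.cochain.center g z hz]
  · simp only [Pi.neg_apply, h.cochain.reverse g]
  · have h1 := h.cochain.harmonic g
    simp only [Pi.neg_apply, Finset.sum_neg_distrib]
    linear_combination -h1
  · simp only [Pi.neg_apply, h.inv γ hγ g]
  · obtain ⟨S, hS, H⟩ := h.cusp
    refine ⟨S, hS, fun g hg => H g ?_⟩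
    intro h0; apply hg; simp [h0]

/-- the cuspidal `Γ₀(n)`-invariant harmonic cochains with integral values, as a subgroup -/
def harm0 (n : Fq[X]) : AddSubgroup (G Fq → ℤ) where
  carrier := {F | IsHarm n F}
  zero_mem' := isHarm_zero n
  add_mem' := IsHarm.add
  neg_mem' := IsHarm.neg

/-- `Harm₀(n, ℤ)`, the cuspidal `Γ₀(n)`-invariant harmonic cochains with integral values -/
def Harm (n : Fq[X]) : Type := harm0 n

noncomputable instance (n : Fq[X]) : AddCommGroup (Harm n) :=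
  AddSubgroup.toAddCommGroup (harm0 n)

/-- the underlying function on `GL₂(K_∞)` -/
def Harm.fn {n : Fq[X]} (F : Harm n) : G Fq → ℤ := Subtype.val (p := (· ∈ harm0 n)) F

/-- the ring of `ℤ`-linear endomorphisms of `Harm₀(n, ℤ)` -/
abbrev EndHarm (n : Fq[X]) : Type := Module.End ℤ (Harm n)

/-- the Hecke algebra `𝕋(n, ℤ) ⊂ End(Harm₀(n, ℤ))`, the subring generated by all `T_m` -/
noncomputable def heckeRing (n : Fq[X]) : Subring (EndHarm n) :=
  Subring.closure {θ | ∃ m : Fq[X], m.Monic ∧ ∀ F : Harm n, (θ F).fn = hecke n m F.fn}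

/-- the Hecke algebra as a type -/
noncomputable def HeckeT (n : Fq[X]) : Type := heckeRing n

noncomputable instance (n : Fq[X]) : Ring (HeckeT n) := Subring.toRing (heckeRing n)

/-- the endomorphism of `Harm₀(n, ℤ)` -/
noncomputable def HeckeT.op {n : Fq[X]} (θ : HeckeT n) : EndHarm n := Subtype.val (p := (· ∈ heckeRing n)) θ

theorem c1_add {n : Fq[X]} (F F' : Harm n) : c1 (F + F').fn = c1 F.fn + c1 F'.fn := by
  have : (F + F').fn = F.fn + F'.fn := rfl
  rw [this]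
  simp only [c1, Pi.add_apply]; ring

/-- `c₁` as a homomorphism `Harm₀(n, ℤ) → ℤ` -/
noncomputable def c1H (n : Fq[X]) : Harm n →+ ℤ := AddMonoidHom.mk' (fun F => c1 F.fn) c1_add

/-- `c₁` as a linear form -/
noncomputable def c1L (n : Fq[X]) : Harm n →ₗ[ℤ] ℤ := (c1H n).toIntLinearMap

/-- the inclusion of the Hecke algebra into the endomorphisms -/
noncomputable def opL (n : Fq[X]) : HeckeT n →ₗ[ℤ] EndHarm n :=
  (AddMonoidHom.mk' HeckeT.op fun _ _ => rfl).toIntLinearMap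

/-- the pairing `φ_HC(θ, F) = c₁(θ F)` -/
noncomputable def pairing (n : Fq[X]) : HeckeT n →ₗ[ℤ] Harm n →ₗ[ℤ] ℤ :=
  LinearMap.compRight ℤ (c1L n) ∘ₗ opL n

theorem pairing_apply (n : Fq[X]) (θ : HeckeT n) (F : Harm n) :
    pairing n θ F = c1 (θ.op F).fn := rfl

/-- base change of a linear form -/
noncomputable def bcForm {Y : Type} [AddCommGroup Y] (R : Type) [CommRing R]
    (f : Y →ₗ[ℤ] ℤ) : R ⊗[ℤ] Y →ₗ[R] R := LinearMap.liftBaseChange R (Algebra.linearMap ℤ R ∘ₗ f)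

theorem bcForm_add {Y : Type} [AddCommGroup Y] (R : Type) [CommRing R] (f g : Y →ₗ[ℤ] ℤ) :
    bcForm R (f + g) = bcForm R f + bcForm R g := by
  ext; simp [bcForm]

/-- base change of a bilinear pairing -/
noncomputable def bcPair {X Y : Type} [AddCommGroup X] [AddCommGroup Y] (R : Type) [CommRing R]
    (B : X →ₗ[ℤ] Y →ₗ[ℤ] ℤ) : R ⊗[ℤ] X →ₗ[R] R ⊗[ℤ] Y →ₗ[R] R :=
  LinearMap.liftBaseChange R ((AddMonoidHom.mk' (bcForm (Y := Y) R) (bcForm_add R)).comp
    B.toAddMonoidHom).toIntLinearMap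

theorem bcPair_tmul {X Y : Type} [AddCommGroup X] [AddCommGroup Y] (R : Type) [CommRing R]
    (B : X →ₗ[ℤ] Y →ₗ[ℤ] ℤ) (r : R) (x : X) (s : R) (y : Y) :
    bcPair R B (r ⊗ₜ x) (s ⊗ₜ y) = r * s * (B x y : R) := by
  simp [bcPair, bcForm, mul_assoc]

end Pool.Agent.J4H98.HP
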